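import Pool.Agent.Lib.MP_4d246d_lc.Net.PolyB

/-!
# Polynomial time: the whole method for a table
-/

open Finset

namespace Pool.Agent.Simplex.Net

open Pool.Agent.Lib.PolyTime

section

variable {α : Type*} [TEnc α] {l : α → List ℚ} {C : α → List ℤ} {N M : α → ℕ}

theorem polyF_densZ (hl : PolyF l) : PolyF (fun x => ((dens (l x) : ℕ) : ℤ)) := by
  have h1 : PolyF (fun x => (l x).map (fun q : ℚ => ((q.den : ℕ) : ℤ))) :=
    hl.map (h := fun _ (q : ℚ) => ((q.den : ℕ) : ℤ)) PolyF.snd'.ratDenZ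
  refine h1.intProd.congr fun x => ?_
  unfold dens
  induction l x with
  | nil => simp
  | cons a t ih =>
    simp only [List.map_cons, List.prod_cons]
    rw [ih]
    push_cast
    rfl

theorem polyF_densB (hl : PolyF l) : PolyF (fun x => (⟨dens (l x)⟩ : Bin)) := by
  refine (polyF_densZ hl).intToNat.congr fun x => ?_
  simp

theorem polyF_icost (hN : PolyF N) (hl : PolyF l) : PolyF (fun x => icost (N x) (l x)) := by
  unfold icost
  refine hl.map (h := fun x (q : ℚ) => - ((2 * ((N x : ℕ) : ℤ) + 3) *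
    (q.num * ((dens (l x) / q.den : ℕ) : ℤ)))) ?_
  have h1 : PolyF (fun p : α × ℚ => ((dens (l p.1) / p.2.den : ℕ) : ℤ)) :=
    ((polyF_densB (hl.comp PolyF.fst')).binDiv PolyF.snd'.ratDen).intOfBin
  have h2 : PolyF (fun p : α × ℚ => (2 * ((N p.1 : ℕ) : ℤ) + 3)) :=
    ((PolyF.const 2).intMul (hN.comp PolyF.fst').intOfNat).intAdd (PolyF.const 3)
  exact (h2.intMul (PolyF.snd'.ratNum.intMul h1)).intNeg

theorem polyF_kbound (hC : PolyF C) : PolyF (fun x => kbound (C x)) := by
  unfold kbound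
  exact (hC.map (h := fun _ (z : ℤ) => |z|) PolyF.snd'.intAbs).intSum

theorem polyF_hbound (hN : PolyF N) (hC : PolyF C) : PolyF (fun x => hbound (N x) (C x)) := by
  unfold hbound
  exact ((polyF_kbound hC).intMul (hN.intOfNat.intAdd (PolyF.const 2))).intSize

theorem polyF_jbound (hN : PolyF N) (hM : PolyF M) (hC : PolyF C) :
    PolyF (fun x => jbound (N x) (M x) (C x)) := by
  unfold jbound phaseBound
  have h1 : PolyF (fun x => (N x + 1) * (M x * (8 * N x + 1)) + 8 * N x * N x + N x) :=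
    ((hN.succ.natMul (hM.natMul ((PolyF.const 8).natMul hN).succ)).natAdd
      (((PolyF.const 8).natMul hN).natMul hN)).natAdd hN
  exact (polyF_hbound hN hC).succ.natMul h1.succ

/-- sequences -/
theorem polyF_seqOf {β : Type*} [TEnc β] [TInj β] [DecidableEq β] {f : α → ℕ → β} {J : α → ℕ}
    (hf : PolyF (fun p : α × ℕ => f p.1 p.2)) (hJ : PolyF J) :
    PolyF (fun x => seqOf (f x) (J x)) := by
  unfold seqOf
  refine PolyF.map (h := fun x k => f x k) ?_ hf
  refine hJ.succ.range.filter (p := fun x k => decide (k = 0 ∨ f x k ≠ f x (k - 1))) ?_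
  have h1 : PolyF (fun q : α × ℕ => f q.1 (q.2 - 1)) :=
    hf.comp (PolyF.fst'.pair PolyF.snd'.pred)
  exact PolyF.snd'.natIsZero.decide_or (hf.eq h1).decide_not

theorem polyF_listGetD {β : Type*} [TEnc β] {f : α → List β} {k : α → ℕ} (b : β)
    (hf : PolyF f) (hk : PolyF k) : PolyF (fun x => (f x).getD (k x) b) :=
  ((hk.getElem? hf).getD (PolyF.const b)).congr fun x => by simp [List.getD]

theorem polyF_tree0 {r c v : α → ℕ} (hr : PolyF r) (hc : PolyF c) (hv : PolyF v) :
    PolyF (fun x => (tree0 (r x) (c x)).pa (v x)) := by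
  unfold tree0
  dsimp only
  have hrc := hr.natMul hc
  refine PolyF.ite (hv.natLt hrc) (PolyF.ite (p := fun x => v x % c x = 0 ∧ v x ≠ 0)
    ((hv.natMod hc).natIsZero.decide_and hv.natIsZero.decide_not)
    ((PolyF.const 2).natMul hv).succ ((PolyF.const 2).natMul hv))
    (PolyF.ite (hv.natLt (hrc.natAdd hr)) ?_ ?_)
  · exact (PolyF.const 2).natMul ((hv.natSub hrc).natMul hc)
  · exact ((PolyF.const 2).natMul ((hv.natSub hrc).natSub hr)).succ

theorem polyF_supp2 {r c v : α → ℕ} {s : α → ℕ → ℚ} (hr : PolyF r) (hc : PolyF c)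
    (hs : PolyF (fun p : α × ℕ => s p.1 p.2)) (hv : PolyF v) :
    PolyF (fun x => supp2 (r x) (c x) (s x) (v x)) := by
  have hrc := hr.natMul hc
  have key : ∀ g : α → ℕ, PolyF g → PolyF (fun x => s x (g x)) := fun g hg =>
    (hs.comp (PolyF.id.pair hg)).congr fun _ => rfl
  have h1 := (key _ ((hrc.natAdd ((PolyF.const 2).natMul hc)).natAdd
    ((PolyF.const 2).natMul (hv.natSub hrc)))).ratNeg
  have h2 := (key _ (hrc.natAdd (((PolyF.const 2).natMul ((hv.natSub hrc).natSub hr)).succ))).ratNeg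
  refine (PolyF.ite (p := fun x => v x < r x * c x) (hv.natLt hrc) (key v hv)
    (PolyF.ite (p := fun x => v x < r x * c x + r x) (hv.natLt (hrc.natAdd hr)) h1 h2)).congr
    fun x => ?_
  rfl

end

variable {α : Type*} [TEnc α] {d : α → TD}

theorem polyF_t0 (hd : PolyF d) : PolyF (fun x => (d x).t0) := by
  unfold TD.t0 TD.Γ
  refine polyF_lgrow hd.fst.fst hd.fst.snd hd.snd.snd.snd
    (PolyF.pair (hd.fst.fst.natMul hd.fst.snd) ?_)
  refine (polyF_N hd.fst.fst hd.fst.snd).range.map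
    (h := fun x v => (tree0 (d x).1.1 (d x).1.2).pa v) ?_
  exact polyF_tree0 (hd.comp PolyF.fst').fst.fst (hd.comp PolyF.fst').fst.snd PolyF.snd'

theorem polyF_e (hd : PolyF d) : PolyF (fun x => (d x).e) := by
  unfold TD.e leta
  have hN : PolyF (fun x => (d x).Γ.N) := polyF_N hd.fst.fst hd.fst.snd
  refine PolyF.pair ?_ (PolyF.pair ?_ (polyF_icost hN hd.snd.snd.fst))
  · refine hN.range.map
      (h := fun x v => supp2 (d x).1.1 (d x).1.2 (fun p => (d x).2.1.getD p 0) v) ?_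
    exact polyF_supp2 (s := fun (q : α × ℕ) p => (d q.1).2.1.getD p 0)
      (hd.comp PolyF.fst').fst.fst (hd.comp PolyF.fst').fst.snd
      (polyF_listGetD 0 ((hd.comp PolyF.fst').comp PolyF.fst').snd.fst PolyF.snd') PolyF.snd'
  · refine hN.range.map (h := fun x v => eta (d x).Γ (d x).t0.tr v) ?_
    exact polyF_eta (hd.comp PolyF.fst').fst.fst (hd.comp PolyF.fst').fst.snd
      (polyF_t0 (hd.comp PolyF.fst')) PolyF.snd'

theorem polyF_s0 (hd : PolyF d) : PolyF (fun x => (d x).s0) := by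
  unfold TD.s0
  have hN : PolyF (fun x => (d x).Γ.N) := polyF_N hd.fst.fst hd.fst.snd
  exact polyF_lstart hd.fst.fst hd.fst.snd (polyF_kbound (polyF_e hd).snd.snd)
    (polyF_hbound hN (polyF_e hd).snd.snd) (polyF_t0 hd)

theorem polyF_vert {k : α → ℕ} (hd : PolyF d) (hk : PolyF k) :
    PolyF (fun x => (d x).vert (k x)) := by
  unfold TD.vert TD.state
  refine (polyF_M hd.fst.fst hd.fst.snd).range.map (h := fun x q => flowOf (d x).Γ
    (fun v => (d x).e.1.getD v 0) ((lstep (d x).Γ (d x).e)^[k x] (d x).s0).1.tr q) ?_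
  have h1 : PolyF (fun p : α × ℕ => (lstep (d p.1).Γ (d p.1).e)^[k p.1] (d p.1).s0) :=
    (polyF_lrun hd.fst.fst hd.fst.snd (polyF_e hd) (polyF_s0 hd) hk).comp PolyF.fst'
  exact polyF_flowOf (hd.comp PolyF.fst').fst.fst (hd.comp PolyF.fst').fst.snd h1.fst
    (polyF_e (hd.comp PolyF.fst')).fst PolyF.snd'

theorem polyF_verts (hd : PolyF d) : PolyF (fun x => (d x).verts) := by
  unfold TD.verts
  have hN : PolyF (fun x => (d x).Γ.N) := polyF_N hd.fst.fst hd.fst.snd
  have hM : PolyF (fun x => (d x).Γ.M) := polyF_M hd.fst.fst hd.fst.snd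
  exact PolyF.ite (p := fun x => (d x).Γ.M = 0) hM.natIsZero hd.snd.snd.snd.singleton
    (polyF_seqOf (f := fun x k => (d x).vert k) (polyF_vert (hd.comp PolyF.fst') PolyF.snd')
      (polyF_jbound hN hM (polyF_e hd).snd.snd))

end Pool.Agent.Simplex.Net
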