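import Pool.Agent.Lib.MP_4d246d_lc.Net.AlgC
import Pool.Agent.Lib.MP_4d246d_lc.Net.PolyC
import Pool.Agent.Lib.MP_4d246d_lc.EB.Two

/-!
# A version of the simplex method with polynomial running time for r × c × 2 tables
-/

open Finset

namespace Pool.Agent.Simplex.Net

open Pool.Agent.Lib.PolyTime Pool.Agent.Simplex.QP Pool.Agent.Simplex.EB Turing

/-- the data of an input -/
def dOf (I : Input) : TD :=
  ((Two.rcI I).getD (0, 0),
    (I.data.2.2.1).take (lines2 ((Two.rcI I).getD (0, 0)).1 ((Two.rcI I).getD (0, 0)).2),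
    I.data.2.2.2.1, I.data.2.2.2.2)

theorem polyF_dOf : PolyF dOf := by
  have h1 : PolyF (fun I : Input => (Two.rcI I).getD (0, 0)) :=
    Two.polyF_rcI.getD (PolyF.const (0, 0))
  exact h1.pair (((Two.polyF_lines2 h1.fst h1.snd).take polyF_data.snd.snd.fst).pair
    (polyF_data.snd.snd.snd.fst.pair polyF_data.snd.snd.snd.snd))

/-- an input is the program for its data -/
theorem of_dOf {I : Input} (h : IsTransport2 I) :
    ∃ (r c : ℕ) (s : Fin (lines2 r c) → ℚ) (cost : Fin (2 * (r * c)) → ℚ)
      (v : Fin (2 * (r * c)) → ℚ) (hv : (transportQ2 r c s cost).Vertex (toReal v)),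
      I = ⟨_, _, transportQ2 r c s cost, v, hv⟩ ∧ dOf I = tdOf s cost v := by
  obtain ⟨⟨r, c⟩, h1⟩ := Option.isSome_iff_exists.1 ((Two.isSome_iff I).2 h)
  obtain ⟨s, cost, v, hv, h2⟩ := Two.of_some h1
  refine ⟨r, c, s, cost, v, hv, h2, ?_⟩
  unfold dOf
  rw [h1]
  subst h2
  show ((r, c), (List.ofFn (transportQ2 r c s cost).b).take (lines2 r c), List.ofFn cost,
    List.ofFn v) = _
  rw [Two.ofFn_b, List.take_left' (List.length_ofFn ..)]
  rfl

/-- the number of pivots -/
def nOf (I : Input) : ℕ := (dOf I).verts.length - 1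

/-- the vertices -/
def xOf (I : Input) (t : ℕ) : Fin I.n → ℚ := fun j => ((dOf I).verts.getD t []).getD j 0

theorem run_of {I : Input} (h : IsTransport2 I) : SimplexRun I (nOf I) (xOf I) .optimal := by
  obtain ⟨r, c, s, cost, v, hv, h1, h2⟩ := of_dOf h
  unfold nOf xOf
  rw [h2]
  subst h1
  exact alg_run hv

theorem verts_ne_nil (d : TD) : d.verts ≠ [] := by
  unfold TD.verts
  split_ifs
  · exact List.cons_ne_nil _ _
  · unfold seqOf
    rw [ne_eq, List.map_eq_nil_iff, List.filter_eq_nil_iff]
    intro h
    have h1 := h 0 (List.mem_range.2 (Nat.succ_pos _))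
    simp at h1

/-- the protocol from the list of vertices -/
def protL (l : List (List ℚ)) : List (List ℚ × Verdict) :=
  (List.range l.length).map fun t =>
    (l.getD t [], if t < l.length - 1 then Verdict.pivot else Verdict.optimal)

theorem protocol_of {I : Input} (h : IsTransport2 I) :
    protocol (nOf I) (xOf I) .optimal = protL (dOf I).verts := by
  have hne := verts_ne_nil (dOf I)
  have hl : nOf I + 1 = (dOf I).verts.length := by
    unfold nOf
    have := List.length_pos_iff.2 hne
    omega
  have hlen : ∀ l ∈ (dOf I).verts, l.length = I.n := by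
    obtain ⟨r, c, s, cost, v, hv, h1, h2⟩ := of_dOf h
    rw [h2]
    subst h1
    exact length_verts hv
  unfold protocol protL
  rw [hl]
  refine List.map_congr_left fun t ht => ?_
  rw [List.mem_range] at ht
  unfold reportAt
  refine Prod.ext ?_ rfl
  dsimp only
  have h3 : (dOf I).verts.getD t [] ∈ (dOf I).verts := by
    rw [List.getD_eq_getElem _ _ ht]
    exact List.getElem_mem _
  have h4 := hlen _ h3
  refine List.ext_getElem (by rw [List.length_ofFn, h4]) fun i hi1 hi2 => ?_
  rw [List.getElem_ofFn]
  unfold xOf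
  dsimp only
  rw [List.getD_eq_getElem _ _ hi2]

theorem polyF_protL {α : Type*} [TEnc α] {l : α → List (List ℚ)} (hl : PolyF l) :
    PolyF (fun a => protL (l a)) := by
  refine hl.length.range.map (h := fun (a : α) (t : ℕ) =>
    ((l a).getD t [], if t < (l a).length - 1 then Verdict.pivot else Verdict.optimal)) ?_
  have h1 : PolyF (fun x : α × ℕ => l x.1) := hl.comp PolyF.fst'
  have h2 : PolyF (fun x : α × ℕ => (l x.1).getD x.2 []) := by
    refine ((PolyF.snd'.getElem? h1).getD (PolyF.const [])).congr fun x => ?_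
    exact (List.getD_eq_getElem?_getD ..).symm
  exact h2.pair (PolyF.ite (PolyF.snd'.natLt (h1.length.natSub (PolyF.const 1)))
    (PolyF.const _) (PolyF.const _))

/-- **There is a version of the simplex method with polynomial running time for `r × c × 2`
tables.** -/
theorem simplexOn_two : SimplexOn IsTransport2 := by
  refine ⟨nOf, xOf, fun _ => .optimal, fun I hI => run_of hI, ?_⟩
  have h1 : PolyF (fun I : {I : Input // IsTransport2 I} => protL (dOf I.1).verts) :=
    polyF_protL (polyF_verts (polyF_dOf.comp PolyF.id.val))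
  exact (h1.congr fun I => (protocol_of I.2).symm).tm2_word

end Pool.Agent.Simplex.Net
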