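import Pool.Agent.Lib.MP_4d246d_lc.Net.TreeA

/-!
# The network of r × c × 2 tables

Left nodes: the pairs `(i, j)`, number `i c + j`; right nodes: the rows `i`, number `r c + i`, and
the columns `j`, number `r c + r + j`. The entry `x_(i,j,0)` is the flow on the arc `2 (i c + j)`
from the pair to the row, the entry `x_(i,j,1)` is the flow on the arc `2 (i c + j) + 1` from the
pair to the column.
-/

open Finset

namespace Pool.Agent.Simplex.Net

/-- the network -/
def tnet (r c : ℕ) : Graph where
  N := r * c + r + c
  L := r * c
  M := 2 * (r * c)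
  tail q := q / 2
  head q := if q % 2 = 0 then r * c + q / 2 / c else r * c + r + q / 2 % c

theorem tab_div_lt {r c v : ℕ} (h : v < r * c) : v / c < r := by
  rw [Nat.div_lt_iff_lt_mul]
  · exact h
  · rcases Nat.eq_zero_or_pos c with h0 | h0
    · subst h0; simp at h
    · exact h0

theorem tab_c_pos {r c v : ℕ} (h : v < r * c) : 0 < c := by
  rcases Nat.eq_zero_or_pos c with h0 | h0
  · subst h0; simp at h
  · exact h0

theorem tab_mul_lt {r c i : ℕ} (hc : 0 < c) (h : i < r) : i * c < r * c :=
  (Nat.mul_lt_mul_right hc).2 h

theorem tnet_ok (r c : ℕ) : (tnet r c).Ok where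
  tail_lt := by
    intro a ha
    show a / 2 < r * c
    have ha' : a < 2 * (r * c) := ha
    omega
  le_head := by
    intro a _
    show r * c ≤ if a % 2 = 0 then r * c + a / 2 / c else r * c + r + a / 2 % c
    split_ifs
    · exact Nat.le_add_right _ _
    · rw [add_assoc]
      exact Nat.le_add_right _ _
  head_lt := by
    intro a ha
    have ha' : a < 2 * (r * c) := ha
    have h1 : a / 2 < r * c := by omega
    have h2 := tab_div_lt h1
    have h3 := Nat.mod_lt (a / 2) (tab_c_pos h1)
    show (if a % 2 = 0 then r * c + a / 2 / c else r * c + r + a / 2 % c) < r * c + r + c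
    split_ifs
    · generalize a / 2 / c = x at *
      omega
    · generalize a / 2 % c = x at *
      omega
  le := by
    show r * c ≤ r * c + r + c
    omega

/-- a spanning tree with the root row `0`: pair `(0, j)` under row `0`, column `j` under pair
`(0, j)`, pair `(i, 0)` under column `0`, row `i` under pair `(i, 0)`, pair `(i, j)` under row `i`
(`i, j ≥ 1`) -/
def tree0 (r c : ℕ) : Tr where
  r := r * c
  pa v := if v < r * c then (if v % c = 0 ∧ v ≠ 0 then 2 * v + 1 else 2 * v)
    else if v < r * c + r then 2 * ((v - r * c) * c) else 2 * (v - r * c - r) + 1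

/-- height function: `0` for row `0`, `1` for the pairs `(0, j)`, `2` for the columns, `3` for the
pairs `(i, 0)`, `4` for the rows `i ≥ 1`, `5` for the other pairs -/
theorem tree0_tree {r c : ℕ} (hr : 0 < r) (hc : 0 < c) : IsTree (tnet r c) (tree0 r c) := by
  have hcr : c ≤ r * c := Nat.le_mul_of_pos_left c hr
  refine isTree_of_height (tnet_ok r c) ?_ ?_ ?_
    (fun v => if v < r * c then (if v < c then 1 else if v % c = 0 then 3 else 5)
      else if v < r * c + r then (if v = r * c then 0 else 4) else 2) ?_
  · show r * c < r * c + r + c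
    omega
  · intro v hv hne
    have hv' : v < r * c + r + c := hv
    show (if v < r * c then (if v % c = 0 ∧ v ≠ 0 then 2 * v + 1 else 2 * v)
      else if v < r * c + r then 2 * ((v - r * c) * c) else 2 * (v - r * c - r) + 1) < 2 * (r * c)
    split_ifs with h1 h2 h3
    · omega
    · omega
    · have := tab_mul_lt hc (show v - r * c < r by omega)
      omega
    · omega
  · intro v hv hne
    have hv' : v < r * c + r + c := hv
    show (if v < r * c then (tree0 r c).pa v / 2 else
      (if (tree0 r c).pa v % 2 = 0 then r * c + (tree0 r c).pa v / 2 / c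
        else r * c + r + (tree0 r c).pa v / 2 % c)) = v
    have hpa : (tree0 r c).pa v = if v < r * c then (if v % c = 0 ∧ v ≠ 0 then 2 * v + 1 else 2 * v)
      else if v < r * c + r then 2 * ((v - r * c) * c) else 2 * (v - r * c - r) + 1 := rfl
    rcases lt_or_ge v (r * c) with h1 | h1
    · rw [if_pos h1]
      rw [hpa, if_pos h1]
      split_ifs <;> omega
    · rw [if_neg (not_lt.2 h1)]
      rw [if_neg (not_lt.2 h1)] at hpa
      rcases lt_or_ge v (r * c + r) with h2 | h2
      · rw [if_pos h2] at hpa
        rw [hpa, if_pos (Nat.mul_mod_right 2 _), Nat.mul_div_cancel_left _ (by norm_num),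
          Nat.mul_div_cancel _ hc]
        omega
      · rw [if_neg (not_lt.2 h2)] at hpa
        have h3 : (2 * (v - r * c - r) + 1) % 2 ≠ 0 := by omega
        have h4 : (2 * (v - r * c - r) + 1) / 2 = v - r * c - r := by omega
        rw [hpa, if_neg h3, h4, Nat.mod_eq_of_lt (by omega)]
        omega
  · intro v hv hne
    have hne' : v ≠ r * c := hne
    have hv' : v < r * c + r + c := hv
    rw [par_of_ne hne]
    have hpa : (tree0 r c).pa v = if v < r * c then (if v % c = 0 ∧ v ≠ 0 then 2 * v + 1 else 2 * v)
      else if v < r * c + r then 2 * ((v - r * c) * c) else 2 * (v - r * c - r) + 1 := rfl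
    have hopp : (tnet r c).opp v ((tree0 r c).pa v) = if v < r * c then
      (if (tree0 r c).pa v % 2 = 0 then r * c + (tree0 r c).pa v / 2 / c
        else r * c + r + (tree0 r c).pa v / 2 % c) else (tree0 r c).pa v / 2 := rfl
    rcases lt_or_ge v (r * c) with h1 | h1
    · rw [if_pos h1] at hpa hopp
      have h5 := tab_div_lt h1
      by_cases h2 : v % c = 0 ∧ v ≠ 0
      · rw [if_pos h2] at hpa
        have h3 : (2 * v + 1) % 2 ≠ 0 := by omega
        have h4 : (2 * v + 1) / 2 = v := by omega
        rw [hpa, if_neg h3, h4, h2.1] at hopp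
        rw [hpa, hopp]
        have h6 : ¬ v < c := by
          intro h
          rw [Nat.mod_eq_of_lt h] at h2
          exact h2.2 h2.1
        simp only [add_zero]
        rw [if_neg (show ¬ r * c + r < r * c by omega), if_neg (lt_irrefl _), if_pos h1,
          if_neg h6, if_pos h2.1]
        norm_num
      · rw [if_neg h2] at hpa
        have h3 : (2 * v) % 2 = 0 := by omega
        have h4 : (2 * v) / 2 = v := by omega
        rw [hpa, if_pos h3, h4] at hopp
        rw [hpa, hopp]
        rcases lt_or_ge v c with h6 | h6
        · have h7 : v / c = 0 := Nat.div_eq_of_lt h6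
          simp only [h7, add_zero]
          rw [if_neg (lt_irrefl _), if_pos (show r * c < r * c + r by omega), if_true, if_pos h1,
            if_pos h6]
          norm_num
        · have h7 : v % c ≠ 0 := fun h => h2 ⟨h, by omega⟩
          rw [if_neg (not_lt.2 (Nat.le_add_right (r * c) (v / c))),
            if_pos (Nat.add_lt_add_left h5 (r * c)), if_pos h1,
            if_neg (show ¬ v < c by omega), if_neg h7]
          split_ifs <;> norm_num
    · have h1' : ¬ v < r * c := not_lt.2 h1
      rw [if_neg h1'] at hpa hopp
      rcases lt_or_ge v (r * c + r) with h2 | h2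
      · rw [if_pos h2] at hpa
        rw [hpa, Nat.mul_div_cancel_left _ (by norm_num)] at hopp
        rw [hpa, hopp]
        have h3 := tab_mul_lt hc (show v - r * c < r by omega)
        have h4 : ¬ (v - r * c) * c < c := by
          have : 1 * c ≤ (v - r * c) * c := Nat.mul_le_mul_right c (by omega)
          omega
        rw [if_pos h3, if_neg h4, if_pos (Nat.mul_mod_left _ _), if_neg h1', if_pos h2,
          if_neg hne']
        norm_num
      · have h2' : ¬ v < r * c + r := not_lt.2 h2
        rw [if_neg h2'] at hpa
        have h4 : (2 * (v - r * c - r) + 1) / 2 = v - r * c - r := by omega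
        rw [hpa, h4] at hopp
        rw [hpa, hopp]
        rw [if_pos (show v - r * c - r < r * c by omega), if_pos (show v - r * c - r < c by omega),
          if_neg h1', if_neg h2']
        norm_num

/-- the supply at the nodes from the line sums: line `(i, j, ·)` at the pair, minus line
`(i, ·, 0)` at the row, minus line `(·, j, 1)` at the column -/
def supp2 {G : Type*} [Neg G] (r c : ℕ) (s : ℕ → G) (v : ℕ) : G :=
  if v < r * c then s v
  else if v < r * c + r then - s (r * c + 2 * c + 2 * (v - r * c))
  else - s (r * c + 2 * (v - r * c - r) + 1)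

end Pool.Agent.Simplex.Net
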