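import Pool.Agent.Lib.MP_4d246d_lc.EB.Statement6

/-!
The definitions of the programs for r × c × 2 tables are in `EB/Statement6.lean`.
-/
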