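import Pool.Agent.Lib.MP_4d246d_lc.Net.FlowA
import Pool.Agent.Lib.MP_4d246d_lc.Net.Tab
import Pool.Agent.Lib.MP_4d246d_lc.Net.Two

/-!
# Tables and flows
-/

open Finset

namespace Pool.Agent.Simplex.Net

open Pool.Agent.Simplex.EB

/-- a vector as a function on the natural numbers -/
def ext {G : Type*} [Zero G] {n : ℕ} (y : Fin n → G) (q : ℕ) : G :=
  if h : q < n then y ⟨q, h⟩ else 0

theorem ext_val {G : Type*} [Zero G] {n : ℕ} (y : Fin n → G) (q : Fin n) : ext y q = y q := by
  unfold ext
  rw [dif_pos q.2]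

theorem sum_ext {G : Type*} [AddCommMonoid G] {n : ℕ} (y : Fin n → G) :
    ∑ q ∈ range n, ext y q = ∑ q, y q := by
  rw [Finset.sum_range]
  exact Finset.sum_congr rfl fun q _ => ext_val y q

/-- the sum over a line -/
def lineSum {G : Type*} [AddCommMonoid G] (r c : ℕ) (y : ℕ → G) (p : ℕ) : G :=
  ∑ q ∈ range (2 * (r * c)), if OnLine2 r c p q then y q else 0

/-- bounds for the indices of an entry -/
theorem lpa_q {r c q : ℕ} (h : q < 2 * (r * c)) : q / 2 < r * c ∧ q / 2 / c < r ∧ q / 2 % c < c := by
  have h1 : q / 2 < r * c := by omega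
  have hc : 0 < c := by
    rcases Nat.eq_zero_or_pos c with h2 | h2
    · rw [h2] at h1
      omega
    · exact h2
  exact ⟨h1, (Nat.div_lt_iff_lt_mul hc).2 h1, Nat.mod_lt _ hc⟩

theorem lpa_tail (r c q : ℕ) : (tnet r c).tail q = q / 2 := rfl

theorem lpa_head (r c q : ℕ) : (tnet r c).head q =
    if q % 2 = 0 then r * c + q / 2 / c else r * c + r + q / 2 % c := rfl

/-- the divergence is a sum of terms with coefficients -/
theorem lpa_div {G : Type*} [AddCommGroup G] (r c : ℕ) (y : ℕ → G) (v : ℕ) :
    div (tnet r c) y v = ∑ q ∈ range (2 * (r * c)),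
      ((if q / 2 = v then y q else 0) - (if (tnet r c).head q = v then y q else 0)) := rfl

theorem lpa_on1 {r c v q : ℕ} (hv : v < r * c) (hq : q < 2 * (r * c)) :
    (OnLine2 r c v q ↔ q / 2 = v) ∧ (tnet r c).head q ≠ v := by
  obtain ⟨h1, h2, h3⟩ := lpa_q hq
  rw [lpa_head]
  unfold OnLine2
  generalize q / 2 / c = i' at *
  generalize q / 2 % c = j' at *
  constructor
  · omega
  · split_ifs <;> omega

theorem lpa_on2 {r c i q : ℕ} (hi : i < r) (hq : q < 2 * (r * c)) :
    (OnLine2 r c (r * c + 2 * c + 2 * i) q ↔ (tnet r c).head q = r * c + i) ∧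
      q / 2 ≠ r * c + i := by
  obtain ⟨h1, h2, h3⟩ := lpa_q hq
  rw [lpa_head]
  unfold OnLine2
  generalize q / 2 / c = i' at *
  generalize q / 2 % c = j' at *
  constructor
  · split_ifs <;> omega
  · omega

theorem lpa_on3 {r c j q : ℕ} (hj : j < c) (hq : q < 2 * (r * c)) :
    (OnLine2 r c (r * c + 2 * j + 1) q ↔ (tnet r c).head q = r * c + r + j) ∧
      q / 2 ≠ r * c + r + j := by
  obtain ⟨h1, h2, h3⟩ := lpa_q hq
  rw [lpa_head]
  unfold OnLine2
  generalize q / 2 / c = i' at *
  generalize q / 2 % c = j' at *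
  constructor
  · split_ifs <;> omega
  · omega

/-- the divergence at the nodes is given by line sums: line `(i, j, ·)`, minus line `(i, ·, 0)`,
minus line `(·, j, 1)` -/
theorem div_eq_supp {G : Type*} [AddCommGroup G] (r c : ℕ) (y : ℕ → G) {v : ℕ}
    (hv : v < (tnet r c).N) : div (tnet r c) y v = supp2 r c (lineSum r c y) v := by
  have hv' : v < r * c + r + c := hv
  rw [lpa_div]
  unfold supp2
  by_cases h1 : v < r * c
  · rw [if_pos h1]
    unfold lineSum
    refine Finset.sum_congr rfl fun q hq => ?_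
    obtain ⟨ha, hb⟩ := lpa_on1 h1 (Finset.mem_range.1 hq)
    rw [if_neg hb, sub_zero]
    exact if_congr ha.symm rfl rfl
  · rw [if_neg h1]
    by_cases h2 : v < r * c + r
    · rw [if_pos h2]
      unfold lineSum
      rw [← Finset.sum_neg_distrib]
      refine Finset.sum_congr rfl fun q hq => ?_
      obtain ⟨i, rfl⟩ : ∃ i, v = r * c + i := ⟨v - r * c, by omega⟩
      obtain ⟨ha, hb⟩ := lpa_on2 (i := i) (by omega) (Finset.mem_range.1 hq)
      rw [if_neg hb, zero_sub, Nat.add_sub_cancel_left]
      congr 1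
      exact if_congr ha.symm rfl rfl
    · rw [if_neg h2]
      unfold lineSum
      rw [← Finset.sum_neg_distrib]
      refine Finset.sum_congr rfl fun q hq => ?_
      obtain ⟨j, rfl⟩ : ∃ j, v = r * c + r + j := ⟨v - (r * c + r), by omega⟩
      obtain ⟨ha, hb⟩ := lpa_on3 (j := j) (by omega) (Finset.mem_range.1 hq)
      have e1 : r * c + r + j - r * c - r = j := by omega
      rw [if_neg hb, zero_sub, e1]
      congr 1
      exact if_congr ha.symm rfl rfl

theorem lpa_supp_congr {G : Type*} [AddCommGroup G] {r c : ℕ} {s s' : ℕ → G}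
    (h : ∀ p < lines2 r c, s p = s' p) {u : ℕ} (hu : u < (tnet r c).N) :
    supp2 r c s u = supp2 r c s' u := by
  have hu' : u < r * c + r + c := hu
  have hl : lines2 r c = r * c + 2 * c + 2 * r := rfl
  unfold supp2
  by_cases h1 : u < r * c
  · rw [if_pos h1, if_pos h1, h u (by omega)]
  · rw [if_neg h1, if_neg h1]
    by_cases h2 : u < r * c + r
    · rw [if_pos h2, if_pos h2, h _ (by omega)]
    · rw [if_neg h2, if_neg h2, h _ (by omega)]

/-- the two lines `(·, j, k)`, `k < 2`, together -/
theorem lpa_pair1 {G : Type*} [AddCommGroup G] (r c : ℕ) (y : ℕ → G) {j : ℕ} (hj : j < c) :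
    lineSum r c y (r * c + 2 * j) + lineSum r c y (r * c + 2 * j + 1) =
      ∑ p ∈ range (r * c), if p % c = j then lineSum r c y p else 0 := by
  have h1 : ∀ p ∈ range (r * c), (if p % c = j then lineSum r c y p else 0) =
      ∑ q ∈ range (2 * (r * c)), if p = q / 2 then (if p % c = j then y q else 0) else 0 := by
    intro p hp
    by_cases h : p % c = j
    · rw [if_pos h]
      unfold lineSum
      refine Finset.sum_congr rfl fun q hq => ?_
      obtain ⟨ha, -⟩ := lpa_on1 (Finset.mem_range.1 hp) (Finset.mem_range.1 hq)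
      rw [if_pos h]
      exact if_congr (ha.trans eq_comm) rfl rfl
    · rw [if_neg h]
      symm
      refine Finset.sum_eq_zero fun q _ => ?_
      rw [if_neg h, ite_self]
  rw [Finset.sum_congr rfl h1, Finset.sum_comm]
  unfold lineSum
  rw [← Finset.sum_add_distrib]
  refine Finset.sum_congr rfl fun q hq => ?_
  obtain ⟨h2, h3, h4⟩ := lpa_q (Finset.mem_range.1 hq)
  rw [Finset.sum_ite_eq' (range (r * c)) (q / 2) (fun p => if p % c = j then y q else 0),
    if_pos (Finset.mem_range.2 h2)]
  rcases Nat.mod_two_eq_zero_or_one q with h5 | h5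
  · have e1 : ¬ OnLine2 r c (r * c + 2 * j + 1) q := by
      unfold OnLine2
      omega
    have e2 : OnLine2 r c (r * c + 2 * j) q ↔ q / 2 % c = j := by
      unfold OnLine2
      omega
    rw [if_neg e1, add_zero]
    exact if_congr e2 rfl rfl
  · have e1 : ¬ OnLine2 r c (r * c + 2 * j) q := by
      unfold OnLine2
      omega
    have e2 : OnLine2 r c (r * c + 2 * j + 1) q ↔ q / 2 % c = j := by
      unfold OnLine2
      omega
    rw [if_neg e1, zero_add]
    exact if_congr e2 rfl rfl

/-- the two lines `(i, ·, k)`, `k < 2`, together -/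
theorem lpa_pair2 {G : Type*} [AddCommGroup G] (r c : ℕ) (y : ℕ → G) {i : ℕ} (hi : i < r) :
    lineSum r c y (r * c + 2 * c + 2 * i) + lineSum r c y (r * c + 2 * c + 2 * i + 1) =
      ∑ p ∈ range (r * c), if p / c = i then lineSum r c y p else 0 := by
  have _ := hi
  have h1 : ∀ p ∈ range (r * c), (if p / c = i then lineSum r c y p else 0) =
      ∑ q ∈ range (2 * (r * c)), if p = q / 2 then (if p / c = i then y q else 0) else 0 := by
    intro p hp
    by_cases h : p / c = i
    · rw [if_pos h]
      unfold lineSum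
      refine Finset.sum_congr rfl fun q hq => ?_
      obtain ⟨ha, -⟩ := lpa_on1 (Finset.mem_range.1 hp) (Finset.mem_range.1 hq)
      rw [if_pos h]
      exact if_congr (ha.trans eq_comm) rfl rfl
    · rw [if_neg h]
      symm
      refine Finset.sum_eq_zero fun q _ => ?_
      rw [if_neg h, ite_self]
  rw [Finset.sum_congr rfl h1, Finset.sum_comm]
  unfold lineSum
  rw [← Finset.sum_add_distrib]
  refine Finset.sum_congr rfl fun q hq => ?_
  obtain ⟨h2, h3, h4⟩ := lpa_q (Finset.mem_range.1 hq)
  rw [Finset.sum_ite_eq' (range (r * c)) (q / 2) (fun p => if p / c = i then y q else 0),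
    if_pos (Finset.mem_range.2 h2)]
  rcases Nat.mod_two_eq_zero_or_one q with h5 | h5
  · have e1 : ¬ OnLine2 r c (r * c + 2 * c + 2 * i + 1) q := by
      unfold OnLine2
      omega
    have e2 : OnLine2 r c (r * c + 2 * c + 2 * i) q ↔ q / 2 / c = i := by
      unfold OnLine2
      omega
    rw [if_neg e1, add_zero]
    exact if_congr e2 rfl rfl
  · have e1 : ¬ OnLine2 r c (r * c + 2 * c + 2 * i) q := by
      unfold OnLine2
      omega
    have e2 : OnLine2 r c (r * c + 2 * c + 2 * i + 1) q ↔ q / 2 / c = i := by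
      unfold OnLine2
      omega
    rw [if_neg e1, zero_add]
    exact if_congr e2 rfl rfl

/-- if two tables have the same divergence, they have the same line sums (line `(i, ·, 1)`:
`∑_j (line (i, j, ·)) - line (i, ·, 0)`; line `(·, j, 0)` similarly) -/
theorem lineSum_eq {G : Type*} [AddCommGroup G] {r c : ℕ} {x y : ℕ → G}
    (h : ∀ v < (tnet r c).N, div (tnet r c) x v = div (tnet r c) y v) :
    ∀ p < lines2 r c, lineSum r c x p = lineSum r c y p := by
  have h' : ∀ v < r * c + r + c, supp2 r c (lineSum r c x) v = supp2 r c (lineSum r c y) v := by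
    intro v hv
    rw [← div_eq_supp r c x hv, ← div_eq_supp r c y hv]
    exact h v hv
  have hA : ∀ p < r * c, lineSum r c x p = lineSum r c y p := by
    intro p hp
    have h1 := h' p (by omega)
    unfold supp2 at h1
    rwa [if_pos hp, if_pos hp] at h1
  have hB : ∀ i < r, lineSum r c x (r * c + 2 * c + 2 * i) =
      lineSum r c y (r * c + 2 * c + 2 * i) := by
    intro i hi
    have h1 := h' (r * c + i) (by omega)
    unfold supp2 at h1
    rw [if_neg (by omega), if_pos (by omega), if_neg (by omega), if_pos (by omega),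
      Nat.add_sub_cancel_left] at h1
    exact neg_injective h1
  have hC : ∀ j < c, lineSum r c x (r * c + 2 * j + 1) = lineSum r c y (r * c + 2 * j + 1) := by
    intro j hj
    have h1 := h' (r * c + r + j) (by omega)
    unfold supp2 at h1
    have e1 : r * c + r + j - r * c - r = j := by omega
    rw [if_neg (by omega), if_neg (by omega), if_neg (by omega), if_neg (by omega), e1] at h1
    exact neg_injective h1
  have hD : ∀ j < c, lineSum r c x (r * c + 2 * j) = lineSum r c y (r * c + 2 * j) := by
    intro j hj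
    have h1 := lpa_pair1 r c x hj
    have h2 := lpa_pair1 r c y hj
    have h3 : (∑ p ∈ range (r * c), if p % c = j then lineSum r c x p else 0) =
        ∑ p ∈ range (r * c), if p % c = j then lineSum r c y p else 0 :=
      Finset.sum_congr rfl fun p hp => by rw [hA p (Finset.mem_range.1 hp)]
    rw [h3, ← h2, hC j hj] at h1
    exact add_right_cancel h1
  have hE : ∀ i < r, lineSum r c x (r * c + 2 * c + 2 * i + 1) =
      lineSum r c y (r * c + 2 * c + 2 * i + 1) := by
    intro i hi
    have h1 := lpa_pair2 r c x hi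
    have h2 := lpa_pair2 r c y hi
    have h3 : (∑ p ∈ range (r * c), if p / c = i then lineSum r c x p else 0) =
        ∑ p ∈ range (r * c), if p / c = i then lineSum r c y p else 0 :=
      Finset.sum_congr rfl fun p hp => by rw [hA p (Finset.mem_range.1 hp)]
    rw [h3, ← h2, hB i hi] at h1
    exact add_left_cancel h1
  intro p hp
  have hl : lines2 r c = r * c + 2 * c + 2 * r := rfl
  rcases Nat.lt_or_ge p (r * c) with h1 | h1
  · exact hA p h1
  · rcases Nat.lt_or_ge p (r * c + 2 * c) with h2 | h2
    · rcases Nat.mod_two_eq_zero_or_one (p - r * c) with h3 | h3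
      · have e1 : p = r * c + 2 * ((p - r * c) / 2) := by omega
        rw [e1]
        exact hD _ (by omega)
      · have e1 : p = r * c + 2 * ((p - r * c) / 2) + 1 := by omega
        rw [e1]
        exact hC _ (by omega)
    · rcases Nat.mod_two_eq_zero_or_one (p - r * c - 2 * c) with h3 | h3
      · have e1 : p = r * c + 2 * c + 2 * ((p - r * c - 2 * c) / 2) := by omega
        rw [e1]
        exact hB _ (by omega)
      · have e1 : p = r * c + 2 * c + 2 * ((p - r * c - 2 * c) / 2) + 1 := by omega
        rw [e1]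
        exact hE _ (by omega)

variable {r c : ℕ} {s : Fin (lines2 r c) → ℚ} {cost : Fin (2 * (r * c)) → ℚ}

theorem lpa_lineSum_ext {G : Type*} [AddCommMonoid G] (r c : ℕ) (y : Fin (2 * (r * c)) → G)
    (p : ℕ) : lineSum r c (ext y) p = ∑ q : Fin (2 * (r * c)),
      if OnLine2 r c p q then y q else 0 := by
  unfold lineSum
  rw [Finset.sum_range]
  exact Finset.sum_congr rfl fun q _ => by rw [ext_val]

/-- the feasible set: nonnegative tables with the given line sums -/
theorem mem_feasible_iff {y : Fin (2 * (r * c)) → ℝ} :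
    y ∈ (transportQ2 r c s cost).feasible ↔
      (∀ q, 0 ≤ y q) ∧ ∀ p : Fin (lines2 r c), lineSum r c (ext y) p = s p := by
  have e1 : ∀ p : Fin (lines2 r c), (∑ q, (((transportQ2 r c s cost).A (Fin.castAdd _ p) q : ℚ) : ℝ)
      * y q) = lineSum r c (ext y) p := by
    intro p
    rw [lpa_lineSum_ext]
    refine Finset.sum_congr rfl fun q _ => ?_
    unfold transportQ2
    simp only [Fin.addCases_left]
    split_ifs <;> simp
  have e2 : ∀ p : Fin (lines2 r c), (∑ q, (((transportQ2 r c s cost).A (Fin.natAdd _ p) q : ℚ) : ℝ)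
      * y q) = - lineSum r c (ext y) p := by
    intro p
    rw [lpa_lineSum_ext, ← Finset.sum_neg_distrib]
    refine Finset.sum_congr rfl fun q _ => ?_
    unfold transportQ2
    simp only [Fin.addCases_right]
    split_ifs <;> simp
  have e3 : ∀ p : Fin (lines2 r c), (transportQ2 r c s cost).b (Fin.castAdd _ p) = s p := by
    intro p
    unfold transportQ2
    simp only [Fin.addCases_left]
  have e4 : ∀ p : Fin (lines2 r c), (transportQ2 r c s cost).b (Fin.natAdd _ p) = - s p := by
    intro p
    unfold transportQ2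
    simp only [Fin.addCases_right]
  constructor
  · rintro ⟨h1, h2⟩
    refine ⟨h2, fun p => ?_⟩
    have h3 := h1 (Fin.castAdd _ p)
    have h4 := h1 (Fin.natAdd _ p)
    rw [e1, e3] at h3
    rw [e2, e4] at h4
    push_cast at h4
    linarith
  · rintro ⟨h1, h2⟩
    refine ⟨fun i => ?_, h1⟩
    refine Fin.addCases (fun p => ?_) (fun p => ?_) i
    · rw [e1, e3, h2 p]
    · rw [e2, e4, h2 p]
      push_cast
      exact le_rfl

/-- the feasible set in terms of flows -/
theorem feasible_iff_div {v y : Fin (2 * (r * c)) → ℝ}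
    (hv : v ∈ (transportQ2 r c s cost).feasible) :
    y ∈ (transportQ2 r c s cost).feasible ↔ (∀ q, 0 ≤ y q) ∧
      ∀ u < (tnet r c).N, div (tnet r c) (ext y) u = div (tnet r c) (ext v) u := by
  have hv2 := (mem_feasible_iff.1 hv).2
  rw [mem_feasible_iff]
  constructor
  · rintro ⟨h1, h2⟩
    refine ⟨h1, fun u hu => ?_⟩
    rw [div_eq_supp r c _ hu, div_eq_supp r c _ hu]
    refine lpa_supp_congr (fun p hp => ?_) hu
    exact (h2 ⟨p, hp⟩).trans (hv2 ⟨p, hp⟩).symm
  · rintro ⟨h1, h2⟩
    refine ⟨h1, fun p => ?_⟩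
    rw [lineSum_eq h2 p p.2]
    exact hv2 p

/-- the supply of a feasible rational table -/
theorem div_of_feasible {v : Fin (2 * (r * c)) → ℚ}
    (hv : toReal v ∈ (transportQ2 r c s cost).feasible) {u : ℕ} (hu : u < (tnet r c).N) :
    div (tnet r c) (ext v) u = supp2 r c (ext s) u := by
  have hv2 := (mem_feasible_iff.1 hv).2
  rw [div_eq_supp r c _ hu]
  refine lpa_supp_congr (fun p hp => ?_) hu
  have h1 := hv2 ⟨p, hp⟩
  have h2 : lineSum r c (ext (toReal v)) p = ((lineSum r c (ext v) p : ℚ) : ℝ) := by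
    rw [lpa_lineSum_ext, lpa_lineSum_ext, Rat.cast_sum]
    refine Finset.sum_congr rfl fun q _ => ?_
    unfold toReal
    split_ifs <;> simp
  have h3 : lineSum r c (ext (toReal v)) p = (s ⟨p, hp⟩ : ℝ) := h1
  rw [h2] at h3
  have h4 : lineSum r c (ext v) p = s ⟨p, hp⟩ := by exact_mod_cast h3
  rw [h4]
  exact (ext_val s ⟨p, hp⟩).symm

end Pool.Agent.Simplex.Net
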