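import Pool.Agent.Lib.MP_4d246d_lc.Net.Defs

/-!
# The beginning: a tree that contains the support of a vertex, perturbation, first potentials
(definitions)
-/

open Finset

namespace Pool.Agent.Simplex.Net

variable (Γ : Graph)

/-- the first node on the way up from `w` whose parent arc has `x = 0` -/
def first0 (x : ℕ → ℚ) (t : Tr) (w : ℕ) : ℕ :=
  match (List.range (Γ.N + 1)).find? (fun k => decide (up Γ t k w ≠ t.r) &&
    decide (x (t.pa (up Γ t k w)) = 0)) with
  | some k => up Γ t k w
  | none => w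

/-- if an arc with `x ≠ 0` is not in the tree, it enters, and an arc with `x = 0` leaves -/
def grow1 (x : ℕ → ℚ) (t : Tr) : Tr :=
  match (List.range Γ.M).find? (fun a => decide (x a ≠ 0) && !decide (InT Γ t a)) with
  | some a => exch (reroot Γ t (Γ.tail a)) a (first0 Γ x (reroot Γ t (Γ.tail a)) (Γ.head a))
  | none => t

/-- a tree that contains all arcs with `x ≠ 0` -/
def grow (x : ℕ → ℚ) (t : Tr) : Tr := (grow1 Γ x)^[Γ.M] t

/-- the perturbation of the flow: `2 ^ v` on the parent arc of `v` -/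
def bump (t : Tr) (q : ℕ) : ℤ := ∑ v ∈ range Γ.N, if v ≠ t.r ∧ t.pa v = q then 2 ^ v else 0

/-- the perturbation of the supply -/
def eta (t : Tr) (v : ℕ) : ℤ := div Γ (bump Γ t) v

/-- supply and its perturbation -/
def pert (b : ℕ → ℚ) (e : ℕ → ℤ) (v : ℕ) : ℚ ×ₗ ℤ := toLex (b v, e v)

/-- the number of steps from `v` to the root -/
def depth (t : Tr) (v : ℕ) : ℕ :=
  ((List.range Γ.N).filter fun k => decide (up Γ t k v ≠ t.r)).length

/-- the first potentials -/
def pot0 (K : ℤ) (t : Tr) (v : ℕ) : ℤ := if v < Γ.N then K * depth Γ t v else 0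

/-- the first state -/
def start (K : ℤ) (h : ℕ) (Γ : Graph) (t : Tr) : St :=
  ⟨t, pot0 Γ K t, fun v => decide (v < Γ.N), h⟩

end Pool.Agent.Simplex.Net
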