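import Pool.Agent.Lib.MP_4d246d_lc.Net.FlowA
import Pool.Agent.Lib.MP_4d246d_lc.Net.InitDefs

/-!
# Perturbation and first potentials
-/

open Finset

namespace Pool.Agent.Simplex.Net

variable {Γ : Graph} {t : Tr}

/-! ### Auxiliary lemmas -/

private theorem initB_pow_sum (n : ℕ) : ∀ f : ℕ → ℤ, (∀ v < n, f v = 0 ∨ f v = 1 ∨ f v = -1) →
    ∑ v ∈ range n, f v * 2 ^ v = 0 → ∀ v < n, f v = 0 := by
  induction n with
  | zero => intro f _ _ v hv; omega
  | succ n ih =>
    intro f hf hs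
    rw [Finset.sum_range_succ'] at hs
    have e : ∑ k ∈ range n, f (k + 1) * 2 ^ (k + 1) = 2 * ∑ k ∈ range n, f (k + 1) * 2 ^ k := by
      rw [Finset.mul_sum]
      refine Finset.sum_congr rfl fun k _ => ?_
      ring
    rw [e, pow_zero, mul_one] at hs
    have h0 : f 0 = 0 := by
      rcases hf 0 (by omega) with h | h | h
      · exact h
      · rw [h] at hs; omega
      · rw [h] at hs; omega
    rw [h0, add_zero] at hs
    have h1 : ∑ k ∈ range n, f (k + 1) * 2 ^ k = 0 := by omega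
    have h2 := ih (fun k => f (k + 1)) (fun v hv => hf (v + 1) (by omega)) h1
    intro v hv
    rcases v with _ | v
    · exact h0
    · exact h2 v (by omega)

private theorem initB_filter (n m : ℕ) :
    ((List.range n).filter fun k => decide (k < m)).length = min n m := by
  induction n with
  | zero => simp
  | succ n ih =>
    rw [List.range_succ, List.filter_append, List.length_append, ih]
    by_cases h : n < m
    · simp [h]
      omega
    · simp [h]
      omega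

private theorem initB_depth (ht : IsTree Γ t) {v : ℕ} (hv : v < Γ.N) :
    depth Γ t v = height Γ t v := by
  have h1 : ((List.range Γ.N).filter fun k => decide (up Γ t k v ≠ t.r)) =
      (List.range Γ.N).filter fun k => decide (k < height Γ t v) := by
    apply List.filter_congr
    intro k _
    rw [decide_eq_decide]
    constructor
    · intro h
      by_contra h2
      exact h (ht.up_of_height_le hv (by omega))
    · exact fun h => ht.up_ne_root hv h
  unfold depth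
  rw [h1, initB_filter]
  exact min_eq_right (ht.height_le hv)

/-- the two ends of the parent arc -/
private theorem initB_ends (ht : IsTree Γ t) {v : ℕ} (hv : v < Γ.N) (hr : v ≠ t.r) :
    (v < Γ.L → Γ.tail (t.pa v) = v ∧ Γ.head (t.pa v) = par Γ t v) ∧
      (¬ v < Γ.L → Γ.head (t.pa v) = v ∧ Γ.tail (t.pa v) = par Γ t v) := by
  have h1 := ht.own v hv hr
  have h2 := par_of_ne (Γ := Γ) hr
  unfold Graph.own at h1
  unfold Graph.opp at h2
  constructor
  · intro h
    rw [if_pos h] at h1 h2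
    exact ⟨h1, h2.symm⟩
  · intro h
    rw [if_neg h] at h1 h2
    exact ⟨h1, h2.symm⟩

private theorem initB_bump_zero {q : ℕ} (h : ¬ InT Γ t q) : bump Γ t q = 0 := by
  unfold bump
  refine Finset.sum_eq_zero fun v hv => ?_
  rw [if_neg]
  rintro ⟨h1, h2⟩
  exact h ⟨v, Finset.mem_range.1 hv, h1, h2⟩

private theorem initB_bump_pos {q : ℕ} (h : InT Γ t q) : 0 < bump Γ t q := by
  obtain ⟨v, hv, hr, hq⟩ := h
  unfold bump
  refine Finset.sum_pos' (fun w _ => ?_) ⟨v, Finset.mem_range.2 hv, ?_⟩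
  · split_ifs
    · positivity
    · exact le_rfl
  · rw [if_pos ⟨hr, hq⟩]
    positivity

/-- `1` if the arc leaves `A`, `-1` if it enters `A` -/
private def initB_s (Γ : Graph) (A : Finset ℕ) (q : ℕ) : ℤ :=
  (if Γ.tail q ∈ A ∧ Γ.head q ∉ A then 1 else 0) - (if Γ.tail q ∉ A ∧ Γ.head q ∈ A then 1 else 0)

private theorem initB_s_val (A : Finset ℕ) (q : ℕ) :
    initB_s Γ A q = 0 ∨ initB_s Γ A q = 1 ∨ initB_s Γ A q = -1 := by
  unfold initB_s
  by_cases h1 : Γ.tail q ∈ A <;> by_cases h2 : Γ.head q ∈ A <;> simp [h1, h2]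

private theorem initB_s_zero {A : Finset ℕ} {q : ℕ} (h : initB_s Γ A q = 0) :
    Γ.tail q ∈ A ↔ Γ.head q ∈ A := by
  unfold initB_s at h
  by_cases h1 : Γ.tail q ∈ A <;> by_cases h2 : Γ.head q ∈ A <;> simp [h1, h2] at h ⊢

private theorem initB_sum (hΓ : Γ.Ok) (ht : IsTree Γ t) {A : Finset ℕ} (hA : A ⊆ range Γ.N) :
    ∑ v ∈ A, eta Γ t v =
      ∑ v ∈ range Γ.N, (if v ≠ t.r then initB_s Γ A (t.pa v) else 0) * 2 ^ v := by
  have h1 : ∑ v ∈ A, eta Γ t v = ∑ q ∈ range Γ.M, initB_s Γ A q * bump Γ t q := by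
    unfold eta
    rw [sum_div hΓ (bump Γ t) hA]
    refine Finset.sum_congr rfl fun q _ => ?_
    unfold initB_s
    by_cases h1 : Γ.tail q ∈ A <;> by_cases h2 : Γ.head q ∈ A <;> simp [h1, h2]
  rw [h1]
  unfold bump
  simp_rw [Finset.mul_sum]
  rw [Finset.sum_comm]
  refine Finset.sum_congr rfl fun v hv => ?_
  by_cases hr : v = t.r
  · simp [hr]
  · rw [if_pos hr]
    have h2 : ∀ q ∈ range Γ.M, initB_s Γ A q * (if v ≠ t.r ∧ t.pa v = q then (2 : ℤ) ^ v else 0) =
        if q = t.pa v then initB_s Γ A (t.pa v) * 2 ^ v else 0 := by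
      intro q _
      by_cases h : q = t.pa v
      · rw [if_pos h, if_pos ⟨hr, h.symm⟩, h]
      · rw [if_neg h, if_neg (fun h3 => h h3.2.symm), mul_zero]
    rw [Finset.sum_congr rfl h2, Finset.sum_ite_eq']
    rw [if_pos (Finset.mem_range.2 (ht.pa_lt v (Finset.mem_range.1 hv) hr))]

private theorem initB_eta (hΓ : Γ.Ok) (ht : IsTree Γ t) {A : Finset ℕ} (hA : A ⊆ range Γ.N)
    (hne : A.Nonempty) (hn : A ≠ range Γ.N) : ∑ v ∈ A, eta Γ t v ≠ 0 := by
  intro h0
  rw [initB_sum hΓ ht hA] at h0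
  have h1 := initB_pow_sum Γ.N (fun v => if v ≠ t.r then initB_s Γ A (t.pa v) else 0)
    (by
      intro v _
      by_cases hr : v ≠ t.r
      · simp only [if_pos hr]
        exact initB_s_val A _
      · simp only [if_neg hr]
        exact Or.inl trivial) h0
  have h2 : ∀ v < Γ.N, (v ∈ A ↔ par Γ t v ∈ A) := by
    intro v hv
    by_cases hr : v = t.r
    · rw [hr, par_root]
    · have h3 := h1 v hv
      simp only [if_pos (show v ≠ t.r from hr)] at h3
      have h4 := initB_s_zero h3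
      obtain ⟨e1, e2⟩ := initB_ends ht hv hr
      by_cases hL : v < Γ.L
      · obtain ⟨e3, e4⟩ := e1 hL
        rwa [e3, e4] at h4
      · obtain ⟨e3, e4⟩ := e2 hL
        rw [e3, e4] at h4
        exact h4.symm
  have h3 : ∀ k : ℕ, ∀ v < Γ.N, (v ∈ A ↔ up Γ t k v ∈ A) := by
    intro k
    induction k with
    | zero => intro v _; rw [up_zero]
    | succ k ih =>
      intro v hv
      rw [up_succ, h2 v hv]
      exact ih _ (ht.par_lt hΓ hv)
  have h4 : ∀ v < Γ.N, (v ∈ A ↔ t.r ∈ A) := by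
    intro v hv
    have := h3 Γ.N v hv
    rwa [ht.reach v hv] at this
  obtain ⟨w, hw⟩ := hne
  have hrA : t.r ∈ A := (h4 w (Finset.mem_range.1 (hA hw))).1 hw
  apply hn
  apply Finset.Subset.antisymm hA
  intro v hv
  exact (h4 v (Finset.mem_range.1 hv)).2 hrA

private def initB_fst : ℚ ×ₗ ℤ →+ ℚ where
  toFun z := (ofLex z).1
  map_zero' := rfl
  map_add' _ _ := rfl

private def initB_snd : ℚ ×ₗ ℤ →+ ℤ where
  toFun z := (ofLex z).2
  map_zero' := rfl
  map_add' _ _ := rfl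

private theorem initB_ext {z w : ℚ ×ₗ ℤ} (h1 : initB_fst z = initB_fst w)
    (h2 : initB_snd z = initB_snd w) : z = w := by
  have : ofLex z = ofLex w := Prod.ext h1 h2
  exact this

/-- Sums of different powers of `2` with signs are not `0`: `∑_A eta = ∑ ± 2 ^ v` over the nodes
`v` such that exactly one of `v` and its parent is in `A`. -/
theorem generic_pert (hΓ : Γ.Ok) (ht : IsTree Γ t) (b : ℕ → ℚ) :
    Generic Γ (pert b (eta Γ t)) := by
  intro A hA hne hn h0
  have h1 : initB_snd (∑ v ∈ A, pert b (eta Γ t) v) = 0 := by rw [h0]; rfl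
  rw [map_sum] at h1
  exact initB_eta hΓ ht hA hne hn h1

/-- the first flow is positive on the tree -/
theorem flow_pert (hΓ : Γ.Ok) (ht : IsTree Γ t) {b x : ℕ → ℚ} (hx : TFlow Γ b t x)
    (h0 : ∀ a < Γ.M, 0 ≤ x a) :
    ∃ y, TFlow Γ (pert b (eta Γ t)) t y ∧ ∀ a < Γ.M, InT Γ t a → 0 < y a := by
  refine ⟨fun q => toLex (x q, bump Γ t q), ⟨?_, ?_⟩, ?_⟩
  · intro v hv
    apply initB_ext
    · have h1 := div_map (Γ := Γ) initB_fst (fun q => (toLex (x q, bump Γ t q) : ℚ ×ₗ ℤ)) v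
      rw [← h1]
      exact hx.div v hv
    · have h1 := div_map (Γ := Γ) initB_snd (fun q => (toLex (x q, bump Γ t q) : ℚ ×ₗ ℤ)) v
      rw [← h1]
      rfl
  · intro a ha hn
    show (toLex (x a, bump Γ t a) : ℚ ×ₗ ℤ) = 0
    rw [hx.supp a ha hn, initB_bump_zero hn]
    rfl
  · intro a ha hi
    show (0 : ℚ ×ₗ ℤ) < toLex (x a, bump Γ t a)
    have e : (0 : ℚ ×ₗ ℤ) = toLex (0, 0) := rfl
    rw [e, Prod.Lex.toLex_lt_toLex]
    rcases (h0 a ha).lt_or_eq with h | h
    · exact Or.inl h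
    · exact Or.inr ⟨h, initB_bump_pos hi⟩

/-- the first potentials are good -/
theorem feas_pot0 (hΓ : Γ.Ok) (ht : IsTree Γ t) {C : ℕ → ℤ} {K : ℤ}
    (hK : ∀ a < Γ.M, |C a| ≤ K) {h : ℕ} (hh : K * (Γ.N + 2) ≤ 2 ^ h) (h0 : 0 ≤ K) :
    Feas Γ C (pot0 Γ K t) t (2 ^ h) := by
  have hN : 0 ≤ K * (Γ.N : ℤ) := mul_nonneg h0 (Int.natCast_nonneg _)
  have h2K : 2 * K + K * (Γ.N : ℤ) ≤ 2 ^ h := by
    calc 2 * K + K * (Γ.N : ℤ) = K * (Γ.N + 2) := by ring
      _ ≤ 2 ^ h := hh
  have hpot : ∀ v < Γ.N, pot0 Γ K t v = K * height Γ t v := by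
    intro v hv
    unfold pot0
    rw [if_pos hv, initB_depth ht hv]
  have hupc : ∀ v < Γ.N, v ≠ t.r → -(2 * K) ≤ upc Γ C (pot0 Γ K t) t v ∧
      upc Γ C (pot0 Γ K t) t v ≤ 0 := by
    intro v hv hr
    have h1 := hK _ (ht.pa_lt v hv hr)
    rw [abs_le] at h1
    have h2 := ht.height_par hΓ hv hr
    have h3 := hpot v hv
    have h4 := hpot _ (ht.par_lt hΓ hv)
    obtain ⟨e1, e2⟩ := initB_ends ht hv hr
    rw [h2] at h3
    push_cast at h3
    unfold upc red Graph.sg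
    by_cases hL : v < Γ.L
    · obtain ⟨e3, e4⟩ := e1 hL
      rw [if_pos hL, e3, e4, h3, h4]
      constructor <;> nlinarith [h1.1, h1.2]
    · obtain ⟨e3, e4⟩ := e2 hL
      rw [if_neg hL, e3, e4, h3, h4]
      constructor <;> nlinarith [h1.1, h1.2]
  refine ⟨fun v hv hr => (hupc v hv hr).2, fun v hv hr => ?_, ?_⟩
  · have := (hupc v hv hr).1
    linarith
  · intro a ha
    have h1 := hK a ha
    rw [abs_le] at h1
    unfold red
    have h2 := hpot _ (hΓ.tail_ltN ha)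
    have h3 := hpot _ (hΓ.head_lt a ha)
    have h4 : (height Γ t (Γ.tail a) : ℤ) ≤ Γ.N := by
      exact_mod_cast ht.height_le (hΓ.tail_ltN ha)
    have h5 : K * (height Γ t (Γ.tail a) : ℤ) ≤ K * Γ.N := mul_le_mul_of_nonneg_left h4 h0
    have h6 : 0 ≤ K * (height Γ t (Γ.head a) : ℤ) := mul_nonneg h0 (Int.natCast_nonneg _)
    rw [h2, h3]
    linarith [h1.1]


theorem inv_start (hΓ : Γ.Ok) (ht : IsTree Γ t) {b x : ℕ → ℚ} (hx : TFlow Γ b t x)
    (h0 : ∀ a < Γ.M, 0 ≤ x a) {C : ℕ → ℤ} {K : ℤ} (hK : ∀ a < Γ.M, |C a| ≤ K) {h : ℕ}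
    (hh : K * (Γ.N + 2) ≤ 2 ^ h) (hK0 : 0 ≤ K) :
    Inv Γ (pert b (eta Γ t)) C (start K h Γ t) := by
  refine ⟨ht, feas_pot0 hΓ ht hK hh hK0, ⟨?_, ?_⟩, flow_pert hΓ ht hx h0⟩
  · intro v hv hW
    have : decide (v < Γ.N) = false := hW
    rw [decide_eq_false_iff_not] at this
    exact absurd hv this
  · intro a ha hW
    have : decide (Γ.tail a < Γ.N) = false := hW
    rw [decide_eq_false_iff_not] at this
    exact absurd (hΓ.tail_ltN ha) this

end Pool.Agent.Simplex.Net
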