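import Pool.Agent.Lib.MP_4d246d_lc.Net.FlowA

/-!
# How much the potentials can rise
-/

open Finset

namespace Pool.Agent.Simplex.Net

variable {Γ : Graph} {G : Type*} [AddCommGroup G] [LinearOrder G] [IsOrderedAddMonoid G]
  {b : ℕ → G} {C : ℕ → ℤ} {s₀ s : St}

/-- Let `x₀`, `x` be two positive tree flows for the same generic supply. Each proper part `A` of
the nodes is left by an arc with `x₀ > 0` or entered by an arc with `x > 0`. (Otherwise
`∑_A b = outflow of x ≥ 0` and `= - inflow of x₀ ≤ 0`.) -/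
theorem exists_cross (hΓ : Γ.Ok) (hb : Generic Γ b) {x₀ x : ℕ → G}
    (h0 : ∀ v < Γ.N, div Γ x₀ v = b v) (h1 : ∀ v < Γ.N, div Γ x v = b v)
    (p0 : ∀ q < Γ.M, 0 ≤ x₀ q) (p1 : ∀ q < Γ.M, 0 ≤ x q) {A : Finset ℕ} (hA : A ⊆ range Γ.N)
    (hne : A.Nonempty) (hall : A ≠ range Γ.N) :
    (∃ q < Γ.M, 0 < x₀ q ∧ Γ.tail q ∈ A ∧ Γ.head q ∉ A) ∨
      ∃ q < Γ.M, 0 < x q ∧ Γ.tail q ∉ A ∧ Γ.head q ∈ A := by
  by_contra hcon
  rw [not_or] at hcon
  obtain ⟨hc0, hc1⟩ := hcon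
  have e1 : ∑ v ∈ A, b v = ∑ q ∈ range Γ.M,
      ((if Γ.tail q ∈ A ∧ Γ.head q ∉ A then x q else 0) -
        (if Γ.tail q ∉ A ∧ Γ.head q ∈ A then x q else 0)) := by
    rw [← sum_div hΓ x hA]
    exact sum_congr rfl fun v hv => (h1 v (mem_range.1 (hA hv))).symm
  have e0 : ∑ v ∈ A, b v = ∑ q ∈ range Γ.M,
      ((if Γ.tail q ∈ A ∧ Γ.head q ∉ A then x₀ q else 0) -
        (if Γ.tail q ∉ A ∧ Γ.head q ∈ A then x₀ q else 0)) := by
    rw [← sum_div hΓ x₀ hA]
    exact sum_congr rfl fun v hv => (h0 v (mem_range.1 (hA hv))).symm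
  have g1 : 0 ≤ ∑ v ∈ A, b v := by
    rw [e1]
    refine sum_nonneg fun q hq => ?_
    have hqM := mem_range.1 hq
    by_cases hin : Γ.tail q ∉ A ∧ Γ.head q ∈ A
    · have hx0 : ¬ 0 < x q := fun h => hc1 ⟨q, hqM, h, hin.1, hin.2⟩
      have hx : x q = 0 := le_antisymm (not_lt.1 hx0) (p1 q hqM)
      rw [if_pos hin, if_neg (fun h => hin.1 h.1), hx, sub_zero]
    · rw [if_neg hin, sub_zero]
      split_ifs
      · exact p1 q hqM
      · exact le_refl _
  have g0 : ∑ v ∈ A, b v ≤ 0 := by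
    rw [e0]
    refine sum_nonpos fun q hq => ?_
    have hqM := mem_range.1 hq
    by_cases hout : Γ.tail q ∈ A ∧ Γ.head q ∉ A
    · have hx0 : ¬ 0 < x₀ q := fun h => hc0 ⟨q, hqM, h, hout.1, hout.2⟩
      have hx : x₀ q = 0 := le_antisymm (not_lt.1 hx0) (p0 q hqM)
      rw [if_pos hout, if_neg (fun h => h.1 hout.1), hx, sub_zero]
    · rw [if_neg hout, zero_sub]
      rw [neg_nonpos]
      split_ifs
      · exact p0 q hqM
      · exact le_refl _
  exact hb A hA hne hall (le_antisymm g0 g1)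

private theorem rho_red_le {b' : ℕ → G} (h : Inv Γ b' C s) {q : ℕ} (hT : InT Γ s.t q) :
    red Γ C s.π q ≤ 4 * 2 ^ s.h := by
  obtain ⟨v, hv, hr, rfl⟩ := hT
  have a1 := h.feas.up_le v hv hr
  have a2 := h.feas.le_up v hv hr
  have hp : (0 : ℤ) < 2 ^ s.h := by positivity
  unfold upc Graph.sg at a1 a2
  by_cases hL : v < Γ.L
  · rw [if_pos hL, one_mul] at a1
    linarith
  · rw [if_neg hL] at a2
    linarith

private theorem rho_inT {b' : ℕ → G} {t : Tr} {x : ℕ → G} (hx : TFlow Γ b' t x) {q : ℕ}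
    (hq : q < Γ.M) (hpos : 0 < x q) : InT Γ t q := by
  by_contra h
  rw [hx.supp q hq h] at hpos
  exact lt_irrefl _ hpos

/-- Along an arc with `x₀ > 0` forward, or with `x > 0` backward, the rise `ρ = π - π₀` decreases
by at most `8 δ`. (Arcs of the tree have `|red| ≤ 4 δ`, all arcs have `red ≥ -4 δ`.) -/
theorem rho_step_fwd (hΓ : Γ.Ok) (h0 : Inv Γ b C s₀) (h1 : Inv Γ b C s) (hh : s.h = s₀.h)
    {x₀ : ℕ → G} (hx : TFlow Γ b s₀.t x₀) {q : ℕ} (hq : q < Γ.M) (hpos : 0 < x₀ q) :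
    (s.π (Γ.tail q) - s₀.π (Γ.tail q)) - 8 * 2 ^ s.h ≤ s.π (Γ.head q) - s₀.π (Γ.head q) := by
  have _ := hΓ
  have a1 := rho_red_le h0 (rho_inT hx hq hpos)
  have a2 := h1.feas.le_red q hq
  rw [← hh] at a1
  unfold red at a1 a2
  linarith

theorem rho_step_bwd (hΓ : Γ.Ok) (h0 : Inv Γ b C s₀) (h1 : Inv Γ b C s) (hh : s.h = s₀.h)
    {x : ℕ → G} (hx : TFlow Γ b s.t x) {q : ℕ} (hq : q < Γ.M) (hpos : 0 < x q) :
    (s.π (Γ.head q) - s₀.π (Γ.head q)) - 8 * 2 ^ s.h ≤ s.π (Γ.tail q) - s₀.π (Γ.tail q) := by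
  have _ := hΓ
  have a1 := rho_red_le h1 (rho_inT hx hq hpos)
  have a2 := h0.feas.le_red q hq
  rw [← hh] at a2
  unfold red at a1 a2
  linarith

private theorem rho_nonneg {b' : ℕ → G} {t : Tr} {x : ℕ → G} (hx : TFlow Γ b' t x)
    (hp : ∀ a < Γ.M, InT Γ t a → 0 < x a) : ∀ q < Γ.M, 0 ≤ x q := by
  intro q hq
  by_cases h : InT Γ t q
  · exact (hp q hq h).le
  · rw [hx.supp q hq h]

/-- As long as the potential of a node `y` has not changed, no potential has risen by more than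
`8 δ (N - 1)`. (The sets `A_k = {u | ρ u ≥ ρ v - 8 δ k}` increase strictly until they contain all
nodes.) -/
theorem rho_bound (hΓ : Γ.Ok) (hb : Generic Γ b) (h0 : Inv Γ b C s₀) (h1 : Inv Γ b C s)
    (hh : s.h = s₀.h) {y : ℕ} (hy : y < Γ.N) (he : s.π y = s₀.π y) :
    ∀ v < Γ.N, s.π v - s₀.π v ≤ 8 * 2 ^ s.h * ((Γ.N : ℤ) - 1) := by
  intro v hv
  obtain ⟨x₀, hx0, hp0⟩ := h0.flow
  obtain ⟨x, hx, hp⟩ := h1.flow
  have n0 := rho_nonneg hx0 hp0
  have n1 := rho_nonneg hx hp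
  have hp2 : (0 : ℤ) < 2 ^ s.h := by positivity
  have key : ∀ k : ℕ, k + 1 ≤ Γ.N → k + 1 ≤ ((range Γ.N).filter fun u =>
      (s.π v - s₀.π v) - 8 * 2 ^ s.h * (k : ℤ) ≤ s.π u - s₀.π u).card := by
    intro k
    induction k with
    | zero =>
      intro _
      rw [zero_add, Nat.one_le_iff_ne_zero, Ne, card_eq_zero]
      intro h
      have : v ∈ (∅ : Finset ℕ) := by
        rw [← h, mem_filter, mem_range]
        exact ⟨hv, by simp⟩
      exact absurd this (notMem_empty _)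
    | succ k ih =>
      intro hk
      have ihk := ih (by omega)
      have hsub : ((range Γ.N).filter fun u =>
          (s.π v - s₀.π v) - 8 * 2 ^ s.h * (k : ℤ) ≤ s.π u - s₀.π u) ⊆
          ((range Γ.N).filter fun u =>
          (s.π v - s₀.π v) - 8 * 2 ^ s.h * ((k + 1 : ℕ) : ℤ) ≤ s.π u - s₀.π u) := by
        intro u hu
        rw [mem_filter] at hu ⊢
        refine ⟨hu.1, ?_⟩
        have := hu.2
        push_cast
        linarith
      by_cases hall : ((range Γ.N).filter fun u =>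
          (s.π v - s₀.π v) - 8 * 2 ^ s.h * (k : ℤ) ≤ s.π u - s₀.π u) = range Γ.N
      · have h3 := card_le_card hsub
        rw [hall, card_range] at h3
        omega
      · have hne : ((range Γ.N).filter fun u =>
          (s.π v - s₀.π v) - 8 * 2 ^ s.h * (k : ℤ) ≤ s.π u - s₀.π u).Nonempty := by
          rw [← card_pos]
          omega
        have hcross := exists_cross hΓ hb (x₀ := x₀) (x := x) hx0.div hx.div n0 n1
          (filter_subset _ _) hne hall
        have hnew : ∃ u, u ∈ ((range Γ.N).filter fun u =>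
            (s.π v - s₀.π v) - 8 * 2 ^ s.h * ((k + 1 : ℕ) : ℤ) ≤ s.π u - s₀.π u) ∧
            u ∉ ((range Γ.N).filter fun u =>
            (s.π v - s₀.π v) - 8 * 2 ^ s.h * (k : ℤ) ≤ s.π u - s₀.π u) := by
          rcases hcross with ⟨q, hq, hpos, hA, hB⟩ | ⟨q, hq, hpos, hB, hA⟩
          · refine ⟨Γ.head q, ?_, hB⟩
            have h4 := rho_step_fwd hΓ h0 h1 hh hx0 hq hpos
            rw [mem_filter] at hA
            rw [mem_filter, mem_range]
            refine ⟨hΓ.head_lt q hq, ?_⟩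
            have := hA.2
            push_cast
            linarith
          · refine ⟨Γ.tail q, ?_, hB⟩
            have h4 := rho_step_bwd hΓ h0 h1 hh hx hq hpos
            rw [mem_filter] at hA
            rw [mem_filter, mem_range]
            refine ⟨hΓ.tail_ltN hq, ?_⟩
            have := hA.2
            push_cast
            linarith
        obtain ⟨u, hu1, hu2⟩ := hnew
        have hss : ((range Γ.N).filter fun u =>
          (s.π v - s₀.π v) - 8 * 2 ^ s.h * (k : ℤ) ≤ s.π u - s₀.π u) ⊂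
          ((range Γ.N).filter fun u =>
          (s.π v - s₀.π v) - 8 * 2 ^ s.h * ((k + 1 : ℕ) : ℤ) ≤ s.π u - s₀.π u) :=
          (ssubset_iff_of_subset hsub).2 ⟨u, hu1, hu2⟩
        have h5 := card_lt_card hss
        omega
  have hN : Γ.N - 1 + 1 = Γ.N := by omega
  have h6 := key (Γ.N - 1) (le_of_eq hN)
  rw [hN] at h6
  have h7 : ((range Γ.N).filter fun u =>
      (s.π v - s₀.π v) - 8 * 2 ^ s.h * ((Γ.N - 1 : ℕ) : ℤ) ≤ s.π u - s₀.π u) = range Γ.N := by
    refine eq_of_subset_of_card_le (filter_subset _ _) ?_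
    rw [card_range]
    exact h6
  have h8 : y ∈ ((range Γ.N).filter fun u =>
      (s.π v - s₀.π v) - 8 * 2 ^ s.h * ((Γ.N - 1 : ℕ) : ℤ) ≤ s.π u - s₀.π u) := by
    rw [h7]
    exact mem_range.2 hy
  have h9 := (mem_filter.1 h8).2
  have h10 : ((Γ.N - 1 : ℕ) : ℤ) = (Γ.N : ℤ) - 1 := by
    rw [Nat.cast_sub (by omega), Nat.cast_one]
  rw [h10, he] at h9
  linarith

end Pool.Agent.Simplex.Net
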