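import Pool.Agent.Lib.MP_4d246d_lc.Net.StepB
import Pool.Agent.Lib.MP_4d246d_lc.Net.Rho

/-!
# The number of steps

Counters during a phase that begins with `s₀` (`ρ v = π v - π₀ v`, `δ = 2 ^ h`): `n` pivots, `rf`
raises by `δ`, `rp` other raises.

* `n δ + ∑_a (a not in the tree: min δ (max 0 (-red a))) ≤ M δ + ∑_a ρ (tail a)`: at the beginning
  each term on the left is at most `δ`; a raise by `Δ` adds at most `Δ` to the term of `a` if
  `tail a` is in `S` (and then adds `Δ` on the right) and nothing otherwise; at a pivot the term of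
  the entering arc was `δ` and the leaving arc has `red ≥ 0`;
* number of steps `= n + rf + rp`; `rf δ ≤ ∑_v ρ v`; `rp ≤ N n + |S|`;
* nodes that are awake have `ρ = 0`; `ρ v ≤ 8 δ (N - 1)` before a step (`rho_bound`), so
  `ρ v ≤ 8 δ N` after it.
-/

open Finset

namespace Pool.Agent.Simplex.Net

variable {Γ : Graph} {G : Type*} [AddCommGroup G] [LinearOrder G] [IsOrderedAddMonoid G]
  {b : ℕ → G} {C : ℕ → ℤ} {s₀ s : St}

/-- the number of nodes of `S` -/
def sizeS (Γ : Graph) (C : ℕ → ℤ) (s : St) : ℕ :=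
  ((range Γ.N).filter fun v => InS Γ C s.π s.t v).card

/-- the term of an arc -/
def term (Γ : Graph) (C : ℕ → ℤ) (s : St) (a : ℕ) : ℤ :=
  if InT Γ s.t a then 0 else min (2 ^ s.h) (max 0 (- red Γ C s.π a))

/-- the counters -/
structure Cnt (Γ : Graph) (b : ℕ → G) (C : ℕ → ℤ) (s₀ s : St) (k n rf rp : ℕ) : Prop where
  inv : Inv Γ b C s
  h_eq : s.h = s₀.h
  mono : ∀ v < Γ.N, s₀.π v ≤ s.π v
  awake : ∀ v < Γ.N, s.W v = true → s.π v = s₀.π v
  rho : ∀ v < Γ.N, s.π v - s₀.π v ≤ 8 * 2 ^ s.h * (Γ.N : ℤ)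
  piv : (n : ℤ) * 2 ^ s.h + ∑ a ∈ range Γ.M, term Γ C s a ≤
    Γ.M * 2 ^ s.h + ∑ a ∈ range Γ.M, (s.π (Γ.tail a) - s₀.π (Γ.tail a))
  steps : k = n + rf + rp
  full : (rf : ℤ) * 2 ^ s.h ≤ ∑ v ∈ range Γ.N, (s.π v - s₀.π v)
  part : rp ≤ Γ.N * n + sizeS Γ C s

private theorem cn_term_nonneg (Γ : Graph) (C : ℕ → ℤ) (s : St) (a : ℕ) : 0 ≤ term Γ C s a := by
  unfold term
  split_ifs
  · exact le_refl _
  · exact le_min (by positivity) (le_max_left _ _)

private theorem cn_term_le (Γ : Graph) (C : ℕ → ℤ) (s : St) (a : ℕ) :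
    term Γ C s a ≤ 2 ^ s.h := by
  unfold term
  split_ifs
  · positivity
  · exact min_le_left _ _

private theorem cn_size_le (Γ : Graph) (C : ℕ → ℤ) (s : St) : sizeS Γ C s ≤ Γ.N := by
  unfold sizeS
  exact (card_filter_le _ _).trans (card_range _).le

theorem Cnt.start (hs : Inv Γ b C s₀) : Cnt Γ b C s₀ s₀ 0 0 0 0 := by
  refine ⟨hs, rfl, fun _ _ => le_refl _, fun _ _ _ => rfl, ?_, ?_, rfl, ?_, Nat.zero_le _⟩
  · intro v _
    rw [sub_self]
    positivity
  · simp only [sub_self, sum_const_zero, add_zero, Nat.cast_zero, zero_mul, zero_add]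
    have h1 := sum_le_card_nsmul (range Γ.M) (term Γ C s₀) (2 ^ s₀.h)
      (fun a _ => cn_term_le Γ C s₀ a)
    rwa [card_range, nsmul_eq_mul] at h1
  · simp

private theorem cn_pivot {a l : ℕ} {z : ℕ → ℤ} {s' : St} (hE : Exch Γ C s.t s'.t a l z)
    (ha : red Γ C s.π a < -(2 ^ s.h)) (hl : 0 ≤ red Γ C s.π l) (hπ : s'.π = s.π)
    (hh : s'.h = s.h) :
    ∑ q ∈ range Γ.M, term Γ C s' q + 2 ^ s.h ≤ ∑ q ∈ range Γ.M, term Γ C s q := by
  have hp : (0 : ℤ) < 2 ^ s.h := by positivity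
  have h1 : ∀ q ∈ range Γ.M, term Γ C s' q + (if q = a then 2 ^ s.h else 0) ≤ term Γ C s q := by
    intro q hq
    have hqM := mem_range.1 hq
    have hA := hE.arcs q hqM
    by_cases hqa : q = a
    · subst hqa
      rw [if_pos rfl]
      unfold term
      rw [if_pos (hA.2 (Or.inl rfl)), if_neg hE.na, zero_add]
      refine le_min (le_refl _) ((le_max_right _ _).trans' ?_)
      linarith
    · rw [if_neg hqa, add_zero]
      by_cases hql : q = l
      · subst hql
        have hn : ¬ InT Γ s'.t q := by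
          intro h
          rcases hA.1 h with h | h
          · exact hqa h
          · exact h.2 rfl
        unfold term
        rw [if_neg hn, if_pos hE.l_in, hπ, hh]
        refine (min_le_right _ _).trans (max_le (le_refl _) ?_)
        linarith
      · have hiff : InT Γ s'.t q ↔ InT Γ s.t q := by
          rw [hA]
          constructor
          · rintro (h | h)
            · exact absurd h hqa
            · exact h.1
          · intro h
            exact Or.inr ⟨h, hql⟩
        unfold term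
        rw [hπ, hh]
        by_cases hT : InT Γ s.t q
        · rw [if_pos (hiff.2 hT), if_pos hT]
        · rw [if_neg (fun h => hT (hiff.1 h)), if_neg hT]
  have h2 := sum_le_sum h1
  rw [sum_add_distrib, sum_ite_eq' (range Γ.M) a, if_pos (mem_range.2 hE.a_lt)] at h2
  exact h2

private theorem cn_raise {Δ : ℤ} {s' : St} (h0 : 0 < Δ) (ht : s'.t = s.t)
    (hh : s'.h = s.h)
    (hπ : ∀ v, s'.π v = if v < Γ.N ∧ InS Γ C s.π s.t v then s.π v + Δ else s.π v) :
    ∀ a ∈ range Γ.M, term Γ C s' a ≤ term Γ C s a + (s'.π (Γ.tail a) - s.π (Γ.tail a)) := by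
  intro a ha
  have haM := mem_range.1 ha
  have hge : ∀ v, s.π v ≤ s'.π v := by
    intro v
    rw [hπ v]
    split_ifs <;> linarith
  have hle : ∀ v, s'.π v ≤ s.π v + Δ := by
    intro v
    rw [hπ v]
    split_ifs <;> linarith
  unfold term
  rw [ht, hh]
  by_cases hT : InT Γ s.t a
  · rw [if_pos hT, if_pos hT, zero_add]
    have := hge (Γ.tail a)
    linarith
  · rw [if_neg hT, if_neg hT]
    have h1 := hge (Γ.head a)
    have h2 := hge (Γ.tail a)
    have h3 : - red Γ C s'.π a ≤ - red Γ C s.π a + (s'.π (Γ.tail a) - s.π (Γ.tail a)) := by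
      unfold red
      linarith
    have h4 : max 0 (- red Γ C s'.π a) ≤
        max 0 (- red Γ C s.π a) + (s'.π (Γ.tail a) - s.π (Γ.tail a)) := by
      refine max_le ?_ ?_
      · have := le_max_left 0 (- red Γ C s.π a)
        linarith
      · have := le_max_right 0 (- red Γ C s.π a)
        linarith
    rw [← min_add_add_right]
    refine le_min ?_ ?_
    · have := min_le_left (2 ^ s.h : ℤ) (max 0 (- red Γ C s'.π a))
      linarith
    · exact (min_le_right _ _).trans h4

theorem Cnt.next (hΓ : Γ.Ok) (hb : Generic Γ b) (h0 : Inv Γ b C s₀) {k n rf rp : ℕ}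
    (h : Cnt Γ b C s₀ s k n rf rp) (hW : ¬ Sleep Γ s) :
    ∃ n' rf' rp' : ℕ, Cnt Γ b C s₀ (step Γ b C s) (k + 1) n' rf' rp' := by
  have hp : (0 : ℤ) < 2 ^ s.h := by positivity
  obtain ⟨i1, i2, i3⟩ := step_cases hΓ hb h.inv hW
  set s' := step Γ b C s with hs'
  clear_value s'
  rcases i3 with ⟨a, l, z, hE, ha, hl, hπ, hWe⟩ | ⟨ht, Δ, hΔ0, hΔ1, hπ, hWe, hS, hcase⟩
  · have hpv := cn_pivot hE ha hl hπ i2
    refine ⟨n + 1, rf, rp, ⟨i1, i2.trans h.h_eq, ?_, ?_, ?_, ?_, ?_, ?_, ?_⟩⟩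
    · intro v hv
      rw [hπ]
      exact h.mono v hv
    · intro v hv hw
      rw [hWe] at hw
      rw [hπ]
      exact h.awake v hv hw
    · intro v hv
      rw [hπ, i2]
      exact h.rho v hv
    · rw [hπ, i2]
      have := h.piv
      push_cast
      linarith
    · have := h.steps
      omega
    · rw [hπ, i2]
      exact h.full
    · have h1 := h.part
      have h2 := cn_size_le Γ C s
      have h3 : Γ.N * (n + 1) = Γ.N * n + Γ.N := by ring
      omega
  · have hge : ∀ v, s.π v ≤ s'.π v := by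
      intro v
      rw [hπ v]
      split_ifs <;> linarith
    have hle : ∀ v, s'.π v ≤ s.π v + Δ := by
      intro v
      rw [hπ v]
      split_ifs <;> linarith
    have htm := sum_le_sum (cn_raise (C := C) (s' := s') hΔ0 ht i2 hπ)
    rw [sum_add_distrib] at htm
    have hsum : ∑ a ∈ range Γ.M, (s'.π (Γ.tail a) - s.π (Γ.tail a)) =
        ∑ a ∈ range Γ.M, (s'.π (Γ.tail a) - s₀.π (Γ.tail a)) -
          ∑ a ∈ range Γ.M, (s.π (Γ.tail a) - s₀.π (Γ.tail a)) := by
      rw [← sum_sub_distrib]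
      exact sum_congr rfl fun a _ => by ring
    have hsz : (range Γ.N).filter (fun v => InS Γ C s.π s.t v) ⊆
        (range Γ.N).filter (fun v => InS Γ C s'.π s'.t v) := by
      intro v hv
      rw [mem_filter] at hv ⊢
      refine ⟨hv.1, ?_⟩
      rw [ht]
      exact hS v (mem_range.1 hv.1) hv.2
    have hmono : ∀ v < Γ.N, s₀.π v ≤ s'.π v := fun v hv => (h.mono v hv).trans (hge v)
    have hawake : ∀ v < Γ.N, s'.W v = true → s'.π v = s₀.π v := by
      intro v hv hw
      rw [hWe v] at hw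
      by_cases hc : v < Γ.N ∧ InS Γ C s.π s.t v
      · rw [if_pos hc] at hw
        exact absurd hw (by simp)
      · rw [if_neg hc] at hw
        rw [hπ v, if_neg hc]
        exact h.awake v hv hw
    have hrho : ∀ v < Γ.N, s'.π v - s₀.π v ≤ 8 * 2 ^ s'.h * (Γ.N : ℤ) := by
      unfold Sleep at hW
      push Not at hW
      obtain ⟨y, hy, hWy⟩ := hW
      have hWy' : s.W y = true := by
        cases hc : s.W y
        · exact absurd hc hWy
        · rfl
      intro v hv
      have h1 := rho_bound hΓ hb h0 h.inv h.h_eq hy (h.awake y hy hWy') v hv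
      have h2 := hle v
      rw [i2]
      have h3 : 8 * 2 ^ s.h * ((Γ.N : ℤ) - 1) + 2 ^ s.h ≤ 8 * 2 ^ s.h * (Γ.N : ℤ) := by
        nlinarith
      linarith
    have hpiv : (n : ℤ) * 2 ^ s'.h + ∑ a ∈ range Γ.M, term Γ C s' a ≤
        Γ.M * 2 ^ s'.h + ∑ a ∈ range Γ.M, (s'.π (Γ.tail a) - s₀.π (Γ.tail a)) := by
      have := h.piv
      rw [i2]
      linarith
    by_cases hfull : Δ = 2 ^ s.h
    · refine ⟨n, rf + 1, rp, ⟨i1, i2.trans h.h_eq, hmono, hawake, hrho, hpiv, ?_, ?_, ?_⟩⟩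
      · have := h.steps
        omega
      · have h1 := h.full
        rw [i2]
        have hr := h.inv.tree.root
        have hrS : InS Γ C s.π s.t s.t.r := by
          intro j _ hj
          exact absurd (up_root j) hj
        have h2 : ∀ v ∈ range Γ.N, (s.π v - s₀.π v) + (if v = s.t.r then 2 ^ s.h else 0) ≤
            s'.π v - s₀.π v := by
          intro v _
          by_cases hv : v = s.t.r
          · rw [if_pos hv, hv, hπ s.t.r, if_pos ⟨hr, hrS⟩, hfull]
            linarith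
          · rw [if_neg hv]
            have := hge v
            linarith
        have h3 := sum_le_sum h2
        rw [sum_add_distrib, sum_ite_eq' (range Γ.N) s.t.r, if_pos (mem_range.2 hr)] at h3
        push_cast
        linarith
      · have h1 := h.part
        have h2 : sizeS Γ C s ≤ sizeS Γ C s' := card_le_card hsz
        omega
    · refine ⟨n, rf, rp + 1, ⟨i1, i2.trans h.h_eq, hmono, hawake, hrho, hpiv, ?_, ?_, ?_⟩⟩
      · have := h.steps
        omega
      · have h1 := h.full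
        rw [i2]
        have h3 : ∑ v ∈ range Γ.N, (s.π v - s₀.π v) ≤ ∑ v ∈ range Γ.N, (s'.π v - s₀.π v) :=
          sum_le_sum fun v _ => by
            have := hge v
            linarith
        linarith
      · have h1 := h.part
        have h2 : sizeS Γ C s < sizeS Γ C s' := by
          rcases hcase with hc | ⟨v, hv, hn, hy⟩
          · exact absurd hc hfull
          · refine card_lt_card ((ssubset_iff_of_subset hsz).2 ⟨v, ?_, ?_⟩)
            · rw [mem_filter, ht]
              exact ⟨mem_range.2 hv, hy⟩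
            · rw [mem_filter]
              exact fun hc => hn hc.2
        omega

theorem Cnt.le (hΓ : Γ.Ok) {k n rf rp : ℕ} (h : Cnt Γ b C s₀ s k n rf rp) :
    k ≤ phaseBound Γ.N Γ.M := by
  have hp : (0 : ℤ) < 2 ^ s.h := by positivity
  have h1 : n ≤ Γ.M * (8 * Γ.N + 1) := by
    have e1 := h.piv
    have e2 : 0 ≤ ∑ a ∈ range Γ.M, term Γ C s a := sum_nonneg fun a _ => cn_term_nonneg Γ C s a
    have e3 : ∑ a ∈ range Γ.M, (s.π (Γ.tail a) - s₀.π (Γ.tail a)) ≤
        Γ.M * (8 * 2 ^ s.h * (Γ.N : ℤ)) := by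
      have := sum_le_card_nsmul (range Γ.M) (fun a => s.π (Γ.tail a) - s₀.π (Γ.tail a))
        (8 * 2 ^ s.h * (Γ.N : ℤ)) (fun a ha => h.rho _ (hΓ.tail_ltN (mem_range.1 ha)))
      rwa [card_range, nsmul_eq_mul] at this
    have e4 : (n : ℤ) * 2 ^ s.h ≤ (Γ.M * (8 * Γ.N + 1) : ℤ) * 2 ^ s.h := by
      have : (Γ.M * (8 * Γ.N + 1) : ℤ) * 2 ^ s.h =
          Γ.M * 2 ^ s.h + Γ.M * (8 * 2 ^ s.h * (Γ.N : ℤ)) := by ring
      linarith
    have e5 := le_of_mul_le_mul_right e4 hp
    exact_mod_cast e5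
  have h2 : rf ≤ 8 * Γ.N * Γ.N := by
    have e1 := h.full
    have e3 : ∑ v ∈ range Γ.N, (s.π v - s₀.π v) ≤ Γ.N * (8 * 2 ^ s.h * (Γ.N : ℤ)) := by
      have := sum_le_card_nsmul (range Γ.N) (fun v => s.π v - s₀.π v)
        (8 * 2 ^ s.h * (Γ.N : ℤ)) (fun v hv => h.rho _ (mem_range.1 hv))
      rwa [card_range, nsmul_eq_mul] at this
    have e4 : (rf : ℤ) * 2 ^ s.h ≤ (8 * Γ.N * Γ.N : ℤ) * 2 ^ s.h := by
      have : (8 * Γ.N * Γ.N : ℤ) * 2 ^ s.h = Γ.N * (8 * 2 ^ s.h * (Γ.N : ℤ)) := by ring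
      linarith
    have e5 := le_of_mul_le_mul_right e4 hp
    exact_mod_cast e5
  have h3 := h.part
  have h4 := cn_size_le Γ C s
  have h5 := h.steps
  unfold phaseBound
  have h6 : (Γ.N + 1) * (Γ.M * (8 * Γ.N + 1)) =
      Γ.N * (Γ.M * (8 * Γ.N + 1)) + Γ.M * (8 * Γ.N + 1) := by ring
  have h7 : Γ.N * n ≤ Γ.N * (Γ.M * (8 * Γ.N + 1)) := Nat.mul_le_mul_left _ h1
  rw [h6]
  omega

/-- a phase ends after at most `phaseBound` steps -/
theorem phase (hΓ : Γ.Ok) (hb : Generic Γ b) (hs : Inv Γ b C s) :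
    ∃ k ≤ phaseBound Γ.N Γ.M, Sleep Γ ((step Γ b C)^[k] s) ∧ ((step Γ b C)^[k] s).h = s.h := by
  classical
  have key : ∀ k : ℕ, (∀ j < k, ¬ Sleep Γ ((step Γ b C)^[j] s)) →
      ∃ n rf rp : ℕ, Cnt Γ b C s ((step Γ b C)^[k] s) k n rf rp := by
    intro k
    induction k with
    | zero =>
      intro _
      exact ⟨0, 0, 0, Cnt.start hs⟩
    | succ k ih =>
      intro hk
      obtain ⟨n, rf, rp, h⟩ := ih fun j hj => hk j (by omega)
      rw [Function.iterate_succ_apply']
      exact Cnt.next hΓ hb hs h (hk k (by omega))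
  by_cases hex : ∃ k, Sleep Γ ((step Γ b C)^[k] s)
  · obtain ⟨n, rf, rp, h⟩ := key (Nat.find hex) fun j hj => Nat.find_min hex hj
    exact ⟨Nat.find hex, Cnt.le hΓ h, Nat.find_spec hex, h.h_eq⟩
  · exfalso
    push Not at hex
    obtain ⟨n, rf, rp, h⟩ := key (phaseBound Γ.N Γ.M + 1) fun j _ => hex j
    have := Cnt.le hΓ h
    omega

theorem inv_iterate (hΓ : Γ.Ok) (hb : Generic Γ b) (hs : Inv Γ b C s) (k : ℕ) :
    Inv Γ b C ((step Γ b C)^[k] s) := by
  induction k with
  | zero => exact hs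
  | succ k ih =>
    rw [Function.iterate_succ_apply']
    exact inv_step hΓ hb ih

/-- a final state does not change any more -/
theorem step_final (hW : Sleep Γ s) (h : s.h = 0) : step Γ b C s = s := by
  unfold step
  rw [if_pos hW, if_pos h]

/-- the end -/
theorem run_end (hΓ : Γ.Ok) (hb : Generic Γ b) (hs : Inv Γ b C s) {J : ℕ}
    (hJ : (s.h + 1) * (phaseBound Γ.N Γ.M + 1) ≤ J) :
    Sleep Γ ((step Γ b C)^[J] s) ∧ ((step Γ b C)^[J] s).h = 0 := by
  obtain ⟨m, hm⟩ : ∃ m, m = s.h := ⟨_, rfl⟩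
  induction m generalizing s J with
  | zero =>
    obtain ⟨k, hk, h1, h2⟩ := phase hΓ hb hs
    have h3 : ((step Γ b C)^[k] s).h = 0 := by rw [h2, ← hm]
    have hkJ : k ≤ J := by
      rw [← hm] at hJ
      omega
    obtain ⟨d, rfl⟩ := Nat.exists_eq_add_of_le hkJ
    have h4 : (step Γ b C)^[k + d] s = (step Γ b C)^[k] s := by
      rw [add_comm, Function.iterate_add_apply]
      exact Function.iterate_fixed (step_final h1 h3) d
    rw [h4]
    exact ⟨h1, h3⟩
  | succ m ih =>
    obtain ⟨k, hk, h1, h2⟩ := phase hΓ hb hs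
    have hne : ((step Γ b C)^[k] s).h ≠ 0 := by
      rw [h2, ← hm]
      omega
    obtain ⟨h3, h4⟩ := inv_half hΓ (inv_iterate hΓ hb hs k) h1 hne
    rw [← Function.iterate_succ_apply' (step Γ b C)] at h3 h4
    have h5 : m = ((step Γ b C)^[k + 1] s).h := by
      rw [h2, ← hm] at h4
      exact (Nat.succ_injective h4).symm
    have hexp : (s.h + 1) * (phaseBound Γ.N Γ.M + 1) =
        (m + 1) * (phaseBound Γ.N Γ.M + 1) + (phaseBound Γ.N Γ.M + 1) := by
      rw [← hm]
      ring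
    have hkJ : k + 1 ≤ J := by
      have : 0 ≤ (m + 1) * (phaseBound Γ.N Γ.M + 1) := Nat.zero_le _
      omega
    obtain ⟨d, rfl⟩ := Nat.exists_eq_add_of_le hkJ
    have h6 := ih (J := d) h3 (by
      rw [← h5]
      omega) h5
    rw [← Function.iterate_add_apply, add_comm d (k + 1)] at h6
    exact h6

end Pool.Agent.Simplex.Net
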