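import Pool.Agent.Lib.MP_4d246d_lc.Net.TreeB

/-!
# Moving the root
-/

open Finset

namespace Pool.Agent.Simplex.Net

variable {Γ : Graph} {t : Tr}

private theorem mv_height_pos (ht : IsTree Γ t) {v : ℕ} (hv : v < Γ.N) (hr : v ≠ t.r) :
    1 ≤ height Γ t v := by
  by_contra h
  have h0 : height Γ t v = 0 := by omega
  have h1 := ht.up_height hv
  rw [h0, up_zero] at h1
  exact hr h1

private theorem mv_child_eq (ht : IsTree Γ t) {v : ℕ} (hv : v < Γ.N) (hr : v ≠ t.r) :
    child Γ t v = up Γ t (height Γ t v - 1) v := by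
  have hpos := mv_height_pos ht hv hr
  have hle := ht.height_le hv
  unfold child
  cases h : (List.range Γ.N).find? (fun k => decide (up Γ t (k + 1) v = t.r)) with
  | some k =>
    rw [List.find?_range_eq_some] at h
    obtain ⟨h1, h2, h3⟩ := h
    have h4 : up Γ t (k + 1) v = t.r := of_decide_eq_true h1
    have h5 : height Γ t v ≤ k + 1 := by
      by_contra hc
      exact ht.up_ne_root hv (not_le.1 hc) h4
    have h6 : up Γ t k v ≠ t.r := by
      rcases Nat.eq_zero_or_pos k with hk | hk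
      · rw [hk, up_zero]
        exact hr
      · intro hc
        have h7 := h3 (k - 1) (by omega)
        rw [Nat.sub_add_cancel hk] at h7
        simp [hc] at h7
    have h7 : k < height Γ t v := by
      by_contra hc
      exact h6 (ht.up_of_height_le hv (not_lt.1 hc))
    have h8 : height Γ t v - 1 = k := by omega
    rw [h8]
  | none =>
    exfalso
    rw [List.find?_eq_none] at h
    have h1 := h (height Γ t v - 1) (List.mem_range.2 (by omega))
    rw [Nat.sub_add_cancel hpos] at h1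
    exact h1 (decide_eq_true (ht.up_height hv))

private theorem mv_height_up (hΓ : Γ.Ok) (ht : IsTree Γ t) {v : ℕ} (hv : v < Γ.N) (j : ℕ)
    (hj : j ≤ height Γ t v) : height Γ t (up Γ t j v) + j = height Γ t v := by
  induction j with
  | zero => rw [up_zero, add_zero]
  | succ j ih =>
    have h1 := ih (by omega)
    have h2 := ht.height_par hΓ (ht.up_lt hΓ hv j) (ht.up_ne_root hv (k := j) (by omega))
    rw [up_succ']
    omega

theorem child_spec (hΓ : Γ.Ok) (ht : IsTree Γ t) {v : ℕ} (hv : v < Γ.N) (hr : v ≠ t.r) :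
    child Γ t v < Γ.N ∧ child Γ t v ≠ t.r ∧ par Γ t (child Γ t v) = t.r ∧
      Anc Γ t (child Γ t v) v := by
  have hpos := mv_height_pos ht hv hr
  have hle := ht.height_le hv
  rw [mv_child_eq ht hv hr]
  refine ⟨ht.up_lt hΓ hv _, ht.up_ne_root hv (by omega), ?_, ⟨_, by omega, rfl⟩⟩
  rw [← up_succ', Nat.sub_add_cancel hpos]
  exact ht.up_height hv

/-- the arc below the root, seen from the root -/
private theorem mv_arc (hΓ : Γ.Ok) (ht : IsTree Γ t) {v : ℕ} (hv : v < Γ.N) (hr : v ≠ t.r) :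
    t.pa (child Γ t v) < Γ.M ∧ Γ.opp (child Γ t v) (t.pa (child Γ t v)) = t.r ∧
      Γ.own t.r (t.pa (child Γ t v)) = t.r ∧ Γ.opp t.r (t.pa (child Γ t v)) = child Γ t v ∧
      Γ.sg t.r = - Γ.sg (child Γ t v) := by
  obtain ⟨h1, h2, h3, -⟩ := child_spec hΓ ht hv hr
  have h4 := ht.pa_lt _ h1 h2
  rw [par_of_ne h2] at h3
  have h5 := hΓ.own_opp (v := child Γ t v) h4
  have h6 := hΓ.opp_opp h4 (ht.own _ h1 h2)
  have h7 := hΓ.sg_opp (v := child Γ t v) h4
  rw [h3] at h5 h6 h7
  exact ⟨h4, h3, h5, h6, h7⟩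

private theorem mv_eq {v : ℕ} (hr : v ≠ t.r) :
    move Γ v t = exch t (t.pa (child Γ t v)) (child Γ t v) := by
  unfold move
  rw [if_neg fun h => hr h.symm]

private theorem mv_id : move Γ t.r t = t := by
  unfold move
  rw [if_pos rfl]

theorem move_tree (hΓ : Γ.Ok) (ht : IsTree Γ t) {v : ℕ} (hv : v < Γ.N) :
    IsTree Γ (move Γ v t) := by
  by_cases hr : v = t.r
  · rw [hr, mv_id]
    exact ht
  · obtain ⟨h1, h2, h3, h4, -⟩ := mv_arc hΓ ht hv hr
    obtain ⟨-, k2, -, -⟩ := child_spec hΓ ht hv hr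
    rw [mv_eq hr]
    refine ht.exch hΓ h1 h3 k2 ?_
    rw [h4]
    exact anc_refl _

theorem move_inT (hΓ : Γ.Ok) (ht : IsTree Γ t) {v : ℕ} (hv : v < Γ.N) (q : ℕ) :
    InT Γ (move Γ v t) q ↔ InT Γ t q := by
  by_cases hr : v = t.r
  · rw [hr, mv_id]
  · obtain ⟨k1, k2, -, -⟩ := child_spec hΓ ht hv hr
    rw [mv_eq hr, ht.inT_exch hΓ k1 k2]
    constructor
    · rintro (h | h)
      · exact ⟨child Γ t v, k1, k2, h.symm⟩
      · exact h.1
    · intro h
      by_cases hq : q = t.pa (child Γ t v)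
      · exact Or.inl hq
      · exact Or.inr ⟨h, hq⟩

private theorem mv_up (hΓ : Γ.Ok) (ht : IsTree Γ t) {v : ℕ} (hv : v < Γ.N) (hr : v ≠ t.r) (k : ℕ)
    (hk : k + 1 ≤ height Γ t v) : up Γ (move Γ v t) k v = up Γ t k v := by
  rw [mv_eq hr]
  refine up_exch fun j hj => ⟨ht.up_ne_root hv (by omega), fun h => ?_⟩
  have h1 := mv_height_up hΓ ht hv j (by omega)
  have h2 := mv_height_up hΓ ht hv (height Γ t v - 1) (by omega)
  rw [← mv_child_eq ht hv hr, ← h] at h2
  omega

/-- the distance from `v` to the root decreases by one -/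
theorem move_height (hΓ : Γ.Ok) (ht : IsTree Γ t) {v : ℕ} (hv : v < Γ.N) (hr : v ≠ t.r) :
    height Γ (move Γ v t) v + 1 = height Γ t v := by
  have hpos := mv_height_pos ht hv hr
  have ht' := move_tree hΓ ht hv
  have hroot : (move Γ v t).r = child Γ t v := by
    rw [mv_eq hr]
    rfl
  have h1 : up Γ (move Γ v t) (height Γ t v - 1) v = (move Γ v t).r := by
    rw [mv_up hΓ ht hv hr _ (by omega), hroot, mv_child_eq ht hv hr]
  have h2 : height Γ (move Γ v t) v ≤ height Γ t v - 1 := by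
    by_contra hc
    exact ht'.up_ne_root hv (not_le.1 hc) h1
  have h3 : ¬ height Γ (move Γ v t) v < height Γ t v - 1 := by
    intro hc
    have h4 := ht'.up_height hv
    rw [mv_up hΓ ht hv hr _ (by omega), hroot, mv_child_eq ht hv hr] at h4
    have h5 := mv_height_up hΓ ht hv (height Γ (move Γ v t) v) (by omega)
    have h6 := mv_height_up hΓ ht hv (height Γ t v - 1) (by omega)
    rw [← h4] at h6
    omega
  omega

private theorem mv_upc_child (hΓ : Γ.Ok) (ht : IsTree Γ t) {v : ℕ} (hv : v < Γ.N) (hr : v ≠ t.r)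
    {C π : ℕ → ℤ} (hS : InS Γ C π t v) : upc Γ C π t (child Γ t v) = 0 := by
  have hpos := mv_height_pos ht hv hr
  have hle := ht.height_le hv
  rw [mv_child_eq ht hv hr]
  exact hS _ (by omega) (ht.up_ne_root hv (by omega))

private theorem mv_upc {v : ℕ} (hr : v ≠ t.r) {C π : ℕ → ℤ} {w : ℕ} (hw : w ≠ t.r) :
    upc Γ C π (move Γ v t) w = upc Γ C π t w := by
  rw [mv_eq hr]
  unfold upc exch
  simp only
  rw [Function.update_of_ne hw]

private theorem mv_upc_root (hΓ : Γ.Ok) (ht : IsTree Γ t) {v : ℕ} (hv : v < Γ.N) (hr : v ≠ t.r)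
    {C π : ℕ → ℤ} (hS : InS Γ C π t v) : upc Γ C π (move Γ v t) t.r = 0 := by
  have h0 := mv_upc_child hΓ ht hv hr hS
  obtain ⟨-, -, -, -, h5⟩ := mv_arc hΓ ht hv hr
  rw [mv_eq hr]
  unfold upc at h0
  unfold upc exch
  simp only
  rw [Function.update_self, h5, neg_mul, h0, neg_zero]

/-- the arcs of reduced cost `0` on the way stay -/
theorem move_inS (hΓ : Γ.Ok) (ht : IsTree Γ t) {v : ℕ} (hv : v < Γ.N) {C π : ℕ → ℤ}
    (hS : InS Γ C π t v) : InS Γ C π (move Γ v t) v := by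
  by_cases hr : v = t.r
  · have h1 : move Γ v t = t := by
      unfold move
      exact if_pos hr.symm
    rw [h1]
    exact hS
  · have ht' := move_tree hΓ ht hv
    have hh := move_height hΓ ht hv hr
    intro k hk hne
    have h1 : k < height Γ (move Γ v t) v := by
      by_contra hc
      exact hne (ht'.up_of_height_le hv (not_lt.1 hc))
    have h2 := mv_up hΓ ht hv hr k (by omega)
    have h3 := ht.up_ne_root hv (k := k) (by omega)
    rw [h2, mv_upc hr h3]
    exact hS k hk h3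

/-- the arc that changes its direction has reduced cost `0` -/
theorem move_feas (hΓ : Γ.Ok) (ht : IsTree Γ t) {v : ℕ} (hv : v < Γ.N) {C π : ℕ → ℤ} {δ : ℤ}
    (hδ : 0 ≤ δ) (hS : InS Γ C π t v) (h : Feas Γ C π t δ) : Feas Γ C π (move Γ v t) δ := by
  by_cases hr : v = t.r
  · rw [hr, mv_id]
    exact h
  · have hroot := mv_upc_root hΓ ht hv hr hS
    have hr' : (move Γ v t).r = child Γ t v := by
      rw [mv_eq hr]
      rfl
    refine ⟨fun w hw hne => ?_, fun w hw hne => ?_, h.le_red⟩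
    · by_cases hwr : w = t.r
      · rw [hwr, hroot]
      · rw [mv_upc hr hwr]
        exact h.up_le w hw hwr
    · by_cases hwr : w = t.r
      · rw [hwr, hroot]
        linarith
      · rw [mv_upc hr hwr]
        exact h.le_up w hw hwr

theorem move_asleep (hΓ : Γ.Ok) (ht : IsTree Γ t) {v : ℕ} (hv : v < Γ.N) {C π : ℕ → ℤ} {δ : ℤ}
    {W : ℕ → Bool} (hδ : 0 ≤ δ) (hS : InS Γ C π t v) (h : Asleep Γ C π t δ W) :
    Asleep Γ C π (move Γ v t) δ W := by
  by_cases hr : v = t.r
  · rw [hr, mv_id]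
    exact h
  · have hroot := mv_upc_root hΓ ht hv hr hS
    refine ⟨fun w hw hW hne => ?_, h.le_red⟩
    by_cases hwr : w = t.r
    · rw [hwr, hroot]
      linarith
    · rw [mv_upc hr hwr]
      exact h.le_up w hw hW hwr

private theorem mv_height_zero {v : ℕ} (hr : v = t.r) : height Γ t v = 0 := by
  rw [hr]
  exact height_root

private theorem mv_iter (hΓ : Γ.Ok) (ht : IsTree Γ t) {v : ℕ} (hv : v < Γ.N) (n : ℕ) :
    IsTree Γ ((move Γ v)^[n] t) ∧ (∀ q, InT Γ ((move Γ v)^[n] t) q ↔ InT Γ t q) ∧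
      height Γ ((move Γ v)^[n] t) v = height Γ t v - n := by
  induction n with
  | zero => exact ⟨ht, fun q => Iff.rfl, rfl⟩
  | succ n ih =>
    obtain ⟨h1, h2, h3⟩ := ih
    rw [Function.iterate_succ_apply']
    refine ⟨move_tree hΓ h1 hv, fun q => (move_inT hΓ h1 hv q).trans (h2 q), ?_⟩
    by_cases hr : v = ((move Γ v)^[n] t).r
    · have h4 : move Γ v ((move Γ v)^[n] t) = (move Γ v)^[n] t := by
        unfold move
        exact if_pos hr.symm
      have h5 : height Γ ((move Γ v)^[n] t) v = 0 := mv_height_zero hr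
      rw [h4]
      omega
    · have h4 := move_height hΓ h1 hv hr
      omega

private theorem mv_iterS (hΓ : Γ.Ok) (ht : IsTree Γ t) {v : ℕ} (hv : v < Γ.N) {C π : ℕ → ℤ}
    (hS : InS Γ C π t v) (n : ℕ) : InS Γ C π ((move Γ v)^[n] t) v := by
  induction n with
  | zero => exact hS
  | succ n ih =>
    rw [Function.iterate_succ_apply']
    exact move_inS hΓ (mv_iter hΓ ht hv n).1 hv ih

theorem reroot_tree (hΓ : Γ.Ok) (ht : IsTree Γ t) {v : ℕ} (hv : v < Γ.N) :
    IsTree Γ (reroot Γ t v) := by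
  exact (mv_iter hΓ ht hv Γ.N).1

theorem reroot_root (hΓ : Γ.Ok) (ht : IsTree Γ t) {v : ℕ} (hv : v < Γ.N) :
    (reroot Γ t v).r = v := by
  obtain ⟨h1, -, h3⟩ := mv_iter hΓ ht hv Γ.N
  have h4 := ht.height_le hv
  have h5 := h1.up_height hv
  rw [h3, Nat.sub_eq_zero_of_le h4, up_zero] at h5
  exact h5.symm

theorem reroot_inT (hΓ : Γ.Ok) (ht : IsTree Γ t) {v : ℕ} (hv : v < Γ.N) (q : ℕ) :
    InT Γ (reroot Γ t v) q ↔ InT Γ t q := by
  exact (mv_iter hΓ ht hv Γ.N).2.1 q

theorem reroot_feas (hΓ : Γ.Ok) (ht : IsTree Γ t) {v : ℕ} (hv : v < Γ.N) {C π : ℕ → ℤ} {δ : ℤ}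
    (hδ : 0 ≤ δ) (hS : InS Γ C π t v) (h : Feas Γ C π t δ) : Feas Γ C π (reroot Γ t v) δ := by
  have key : ∀ n, Feas Γ C π ((move Γ v)^[n] t) δ := by
    intro n
    induction n with
    | zero => exact h
    | succ n ih =>
      rw [Function.iterate_succ_apply']
      exact move_feas hΓ (mv_iter hΓ ht hv n).1 hv hδ (mv_iterS hΓ ht hv hS n) ih
  exact key Γ.N

theorem reroot_asleep (hΓ : Γ.Ok) (ht : IsTree Γ t) {v : ℕ} (hv : v < Γ.N) {C π : ℕ → ℤ}
    {δ : ℤ} {W : ℕ → Bool} (hδ : 0 ≤ δ) (hS : InS Γ C π t v) (h : Asleep Γ C π t δ W) :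
    Asleep Γ C π (reroot Γ t v) δ W := by
  have key : ∀ n, Asleep Γ C π ((move Γ v)^[n] t) δ W := by
    intro n
    induction n with
    | zero => exact h
    | succ n ih =>
      rw [Function.iterate_succ_apply']
      exact move_asleep hΓ (mv_iter hΓ ht hv n).1 hv hδ (mv_iterS hΓ ht hv hS n) ih
  exact key Γ.N

end Pool.Agent.Simplex.Net
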