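import Pool.Agent.Lib.MP_4d246d_lc.Net.FlowB
import Pool.Agent.Lib.MP_4d246d_lc.Net.Move
import Pool.Agent.Lib.MP_4d246d_lc.Net.InitDefs

/-!
# A tree that contains the support of a vertex
-/

open Finset

namespace Pool.Agent.Simplex.Net

variable {Γ : Graph} {t : Tr}

/-- the arcs with `x ≠ 0` that are not in the tree -/
def initA_bad (Γ : Graph) (x : ℕ → ℚ) (t : Tr) : Finset ℕ :=
  (range Γ.M).filter fun q => x q ≠ 0 ∧ ¬ InT Γ t q

theorem initA_own (hΓ : Γ.Ok) {a : ℕ} (ha : a < Γ.M) : Γ.own (Γ.tail a) a = Γ.tail a := by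
  unfold Graph.own
  rw [if_pos (hΓ.tail_lt a ha)]

theorem initA_opp (hΓ : Γ.Ok) {a : ℕ} (ha : a < Γ.M) : Γ.opp (Γ.tail a) a = Γ.head a := by
  unfold Graph.opp
  rw [if_pos (hΓ.tail_lt a ha)]

/-- the leaving node -/
theorem initA_first0 (hΓ : Γ.Ok) (ht : IsTree Γ t) {x : ℕ → ℚ}
    (hx : ∀ z : ℕ → ℤ, (∀ v < Γ.N, div Γ z v = 0) → (∀ a < Γ.M, x a = 0 → z a = 0) →
      ∀ a < Γ.M, z a = 0) {a : ℕ} (ha : a < Γ.M) (hr : Γ.tail a = t.r) (hxa : x a ≠ 0)
    (hn : ¬ InT Γ t a) :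
    first0 Γ x t (Γ.head a) ≠ t.r ∧ Anc Γ t (first0 Γ x t (Γ.head a)) (Γ.head a) ∧
      x (t.pa (first0 Γ x t (Γ.head a))) = 0 := by
  unfold first0
  cases hf : (List.range (Γ.N + 1)).find? (fun k => decide (up Γ t k (Γ.head a) ≠ t.r) &&
    decide (x (t.pa (up Γ t k (Γ.head a))) = 0)) with
  | some k =>
    have h1 := List.find?_some hf
    have h2 := List.mem_of_find?_eq_some hf
    rw [Bool.and_eq_true, decide_eq_true_eq, decide_eq_true_eq] at h1
    rw [List.mem_range] at h2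
    exact ⟨h1.1, ⟨k, h2, rfl⟩, h1.2⟩
  | none =>
    exfalso
    rw [List.find?_eq_none] at hf
    have h0 : ∀ w, w ≠ t.r → Anc Γ t w (Γ.head a) → x (t.pa w) ≠ 0 := by
      rintro w hw ⟨k, hk, rfl⟩ h
      refine hf k (List.mem_range.2 hk) ?_
      rw [Bool.and_eq_true, decide_eq_true_eq, decide_eq_true_eq]
      exact ⟨hw, h⟩
    have h1 := hx (cyc Γ t a) (fun v hv => div_cyc hΓ ht ha hr v hv) ?_ a ha
    · rw [cyc_self hn] at h1
      exact one_ne_zero h1
    · intro q _ hq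
      by_cases hqa : q = a
      · rw [hqa] at hq
        exact absurd hq hxa
      by_cases hqt : InT Γ t q
      · obtain ⟨v, hv, hvr, rfl⟩ := hqt
        rw [cyc_pa hΓ ht hv hvr hn]
        by_cases h : Anc Γ t v (Γ.head a)
        · exact absurd hq (h0 v hvr h)
        · rw [if_neg h]
      · exact cyc_other hqa hqt

/-- one step -/
theorem initA_grow1 (hΓ : Γ.Ok) (ht : IsTree Γ t) {x : ℕ → ℚ}
    (hx : ∀ z : ℕ → ℤ, (∀ v < Γ.N, div Γ z v = 0) → (∀ a < Γ.M, x a = 0 → z a = 0) →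
      ∀ a < Γ.M, z a = 0) :
    IsTree Γ (grow1 Γ x t) ∧ (initA_bad Γ x (grow1 Γ x t)).card ≤ (initA_bad Γ x t).card - 1 := by
  unfold grow1
  cases hf : (List.range Γ.M).find? (fun a => decide (x a ≠ 0) && !decide (InT Γ t a)) with
  | none =>
    rw [List.find?_eq_none] at hf
    refine ⟨ht, ?_⟩
    have h1 : initA_bad Γ x t = ∅ := by
      unfold initA_bad
      rw [Finset.filter_eq_empty_iff]
      rintro q hq ⟨h2, h3⟩
      refine hf q (List.mem_range.2 (Finset.mem_range.1 hq)) ?_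
      rw [Bool.and_eq_true, decide_eq_true_eq, Bool.not_eq_true', decide_eq_false_iff_not]
      exact ⟨h2, h3⟩
    dsimp only
    rw [h1]
    exact Nat.zero_le _
  | some a =>
    have h1 := List.find?_some hf
    have h2 := List.mem_of_find?_eq_some hf
    rw [Bool.and_eq_true, decide_eq_true_eq, Bool.not_eq_true', decide_eq_false_iff_not] at h1
    rw [List.mem_range] at h2
    obtain ⟨hxa, hna⟩ := h1
    dsimp only
    have htl : Γ.tail a < Γ.N := hΓ.tail_ltN h2
    have ht' : IsTree Γ (reroot Γ t (Γ.tail a)) := reroot_tree hΓ ht htl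
    have hr : (reroot Γ t (Γ.tail a)).r = Γ.tail a := reroot_root hΓ ht htl
    have hin : ∀ q, InT Γ (reroot Γ t (Γ.tail a)) q ↔ InT Γ t q := reroot_inT hΓ ht htl
    have hn' : ¬ InT Γ (reroot Γ t (Γ.tail a)) a := fun h => hna ((hin a).1 h)
    obtain ⟨hp1, hp2, hp3⟩ := initA_first0 hΓ ht' hx h2 hr.symm hxa hn'
    generalize reroot Γ t (Γ.tail a) = t' at *
    generalize first0 Γ x t' (Γ.head a) = p at *
    have hpN : p < Γ.N := ht'.anc_lt hΓ (hΓ.head_lt a h2) hp2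
    refine ⟨ht'.exch hΓ h2 ?_ hp1 ?_, ?_⟩
    · rw [hr]
      exact initA_own hΓ h2
    · rw [hr, initA_opp hΓ h2]
      exact hp2
    · have hmem : a ∈ initA_bad Γ x t := by
        unfold initA_bad
        rw [Finset.mem_filter, Finset.mem_range]
        exact ⟨h2, hxa, hna⟩
      rw [← Finset.card_erase_of_mem hmem]
      refine Finset.card_le_card fun q hq => ?_
      unfold initA_bad at hq ⊢
      rw [Finset.mem_filter, Finset.mem_range] at hq
      obtain ⟨hq1, hq2, hq3⟩ := hq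
      rw [ht'.inT_exch hΓ hpN hp1 q, not_or, not_and_or, not_not] at hq3
      rw [Finset.mem_erase, Finset.mem_filter, Finset.mem_range]
      refine ⟨hq3.1, hq1, hq2, fun h => ?_⟩
      rcases hq3.2 with h3 | h3
      · exact h3 ((hin q).2 h)
      · rw [h3] at hq2
        exact hq2 hp3

/-- If the arcs with `x ≠ 0` carry no circulation, the node exists: otherwise `cyc` is a
circulation on them. The number of arcs with `x ≠ 0` that are not in the tree decreases. -/
theorem grow_spec (hΓ : Γ.Ok) (ht : IsTree Γ t) {x : ℕ → ℚ}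
    (hx : ∀ z : ℕ → ℤ, (∀ v < Γ.N, div Γ z v = 0) → (∀ a < Γ.M, x a = 0 → z a = 0) →
      ∀ a < Γ.M, z a = 0) :
    IsTree Γ (grow Γ x t) ∧ ∀ a < Γ.M, x a ≠ 0 → InT Γ (grow Γ x t) a := by
  have key : ∀ k, IsTree Γ ((grow1 Γ x)^[k] t) ∧
      (initA_bad Γ x ((grow1 Γ x)^[k] t)).card ≤ Γ.M - k := by
    intro k
    induction k with
    | zero =>
      refine ⟨ht, ?_⟩
      have h1 : (initA_bad Γ x t).card ≤ (range Γ.M).card := Finset.card_filter_le _ _
      rw [Finset.card_range] at h1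
      exact h1
    | succ k ih =>
      rw [Function.iterate_succ_apply']
      obtain ⟨h1, h2⟩ := initA_grow1 hΓ ih.1 hx
      exact ⟨h1, by omega⟩
  obtain ⟨h1, h2⟩ := key Γ.M
  refine ⟨h1, fun a ha hxa => ?_⟩
  by_contra hc
  have h3 : a ∈ initA_bad Γ x ((grow1 Γ x)^[Γ.M] t) := by
    unfold initA_bad
    rw [Finset.mem_filter, Finset.mem_range]
    exact ⟨ha, hxa, hc⟩
  have h4 := Finset.card_pos.2 ⟨a, h3⟩
  omega

end Pool.Agent.Simplex.Net
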