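import Pool.Agent.Lib.MP_4d246d_lc.Net.ListDefs
import Pool.Agent.Lib.MP_4d246d_lc.Net.InitA
import Pool.Agent.Lib.MP_4d246d_lc.Net.Count

/-!
# The method on lists
-/

open Finset

namespace Pool.Agent.Simplex.Net

variable {Γ : Graph}

theorem lexch_tr {t : LT} {a p : ℕ} (h : t.1 < t.2.length) :
    (lexch t a p).tr = exch t.tr a p := by
  unfold lexch exch LT.tr
  rw [Tr.mk.injEq]
  refine ⟨rfl, ?_⟩
  funext v
  show (t.2.set t.1 a).getD v 0 = Function.update (fun v => t.2.getD v 0) t.1 a v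
  by_cases hv : v = t.1
  · rw [hv, Function.update_self, List.getD_eq_getElem?_getD, List.getElem?_set_self h]
    rfl
  · rw [Function.update_of_ne hv, List.getD_eq_getElem?_getD, List.getD_eq_getElem?_getD,
      List.getElem?_set_ne (Ne.symm hv)]

theorem lexch_length (t : LT) (a p : ℕ) : (lexch t a p).2.length = t.2.length := by
  unfold lexch
  exact List.length_set

theorem lists_root {t : LT} (ht : IsTree Γ t.tr) (hl : t.2.length = Γ.N) : t.1 < t.2.length := by
  rw [hl]
  exact ht.root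

theorem lists_move {t : LT} (ht : IsTree Γ t.tr) (hl : t.2.length = Γ.N) (v : ℕ) :
    (lmove Γ v t).tr = move Γ v t.tr ∧ (lmove Γ v t).2.length = Γ.N := by
  have hr := lists_root ht hl
  unfold lmove move
  by_cases h : t.1 = v
  · have h' : t.tr.r = v := h
    rw [if_pos h, if_pos h']
    exact ⟨rfl, hl⟩
  · have h' : ¬ t.tr.r = v := h
    rw [if_neg h, if_neg h', lexch_length, lexch_tr hr]
    exact ⟨rfl, hl⟩

theorem lreroot_tr (hΓ : Γ.Ok) {t : LT} (ht : IsTree Γ t.tr) (hl : t.2.length = Γ.N) {v : ℕ}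
    (hv : v < Γ.N) :
    (lreroot Γ t v).tr = reroot Γ t.tr v ∧ (lreroot Γ t v).2.length = Γ.N := by
  have key : ∀ n, ((lmove Γ v)^[n] t).tr = (move Γ v)^[n] t.tr ∧
      ((lmove Γ v)^[n] t).2.length = Γ.N ∧ IsTree Γ ((lmove Γ v)^[n] t).tr := by
    intro n
    induction n with
    | zero => exact ⟨rfl, hl, ht⟩
    | succ n ih =>
      obtain ⟨h1, h2, h3⟩ := ih
      obtain ⟨k1, k2⟩ := lists_move h3 h2 v
      rw [Function.iterate_succ_apply', Function.iterate_succ_apply', k1]
      refine ⟨by rw [h1], k2, move_tree hΓ h3 hv⟩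
  exact ⟨(key Γ.N).1, (key Γ.N).2.1⟩

theorem lists_getD {α : Type*} (f : ℕ → α) (n v : ℕ) (d : α) :
    ((List.range n).map f).getD v d = if v < n then f v else d := by
  by_cases h : v < n
  · rw [if_pos h, List.getD_eq_getElem?_getD, List.getElem?_map, List.getElem?_range h]
    rfl
  · rw [if_neg h, List.getD_eq_default]
    rw [List.length_map, List.length_range]
    omega

theorem lists_getD_repl {α : Type*} (a : α) (n v : ℕ) (d : α) :
    (List.replicate n a).getD v d = if v < n then a else d := by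
  by_cases h : v < n
  · rw [if_pos h, List.getD_eq_getElem?_getD, List.getElem?_replicate, if_pos h]
    rfl
  · rw [if_neg h, List.getD_eq_default]
    rw [List.length_replicate]
    omega

theorem lists_W (n : ℕ) : (fun v => (List.replicate n true).getD v false) =
    fun v => decide (v < n) := by
  funext v
  rw [lists_getD_repl]
  by_cases h : v < n
  · rw [if_pos h, decide_eq_true h]
  · rw [if_neg h, decide_eq_false h]

theorem lists_ent {C : ℕ → ℤ} {s : St} {a : ℕ} (h : ent Γ C s = some a) : a < Γ.M := by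
  unfold ent at h
  exact List.mem_range.1 (List.mem_of_find?_eq_some h)

theorem lists_pivot (hΓ : Γ.Ok) (e : LC) {t : LT} (ht : IsTree Γ t.tr) (hl : t.2.length = Γ.N)
    {a : ℕ} (ha : a < Γ.M) :
    (lpivot Γ e t a).tr = pivot Γ e.b t.tr a ∧ (lpivot Γ e t a).2.length = Γ.N := by
  have hv : Γ.tail a < Γ.N := hΓ.tail_ltN ha
  obtain ⟨h1, h2⟩ := lreroot_tr hΓ ht hl hv
  have h3 : IsTree Γ (lreroot Γ t (Γ.tail a)).tr := by
    rw [h1]
    exact reroot_tree hΓ ht hv
  have h4 := lists_root h3 h2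
  unfold lpivot pivot
  rw [lexch_length, lexch_tr h4, h1]
  exact ⟨rfl, h2⟩

/-- the method on lists is the method on functions -/
theorem lstep_st (hΓ : Γ.Ok) (e : LC) {s : LS} (ht : IsTree Γ s.1.tr) (hs : LOk Γ s) :
    (lstep Γ e s).st = step Γ e.b e.C s.st ∧ LOk Γ (lstep Γ e s) := by
  unfold lstep step
  by_cases hW : Sleep Γ s.st
  · rw [if_pos hW, if_pos hW]
    by_cases h0 : s.2.2.2 = 0
    · have h0' : s.st.h = 0 := h0
      rw [if_pos h0, if_pos h0']
      exact ⟨rfl, hs⟩
    · have h0' : ¬ s.st.h = 0 := h0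
      rw [if_neg h0, if_neg h0']
      refine ⟨?_, ⟨hs.pa, hs.π, List.length_replicate⟩⟩
      unfold LS.st
      rw [St.mk.injEq]
      exact ⟨rfl, rfl, lists_W Γ.N, rfl⟩
  · rw [if_neg hW, if_neg hW]
    cases he : ent Γ e.C s.st with
    | some a =>
      obtain ⟨h1, h2⟩ := lists_pivot hΓ e ht hs.pa (lists_ent he)
      refine ⟨?_, ⟨h2, hs.π, hs.W⟩⟩
      show LS.st (lpivot Γ e s.1 a, s.2) = (⟨pivot Γ e.b s.st.t a, s.st.π, s.st.W, s.st.h⟩ : St)
      unfold LS.st
      rw [St.mk.injEq]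
      exact ⟨h1, rfl, rfl, rfl⟩
    | none =>
      refine ⟨?_, ⟨hs.pa, ?_, ?_⟩⟩
      · show LS.st (s.1, (List.range Γ.N).map (fun v => if InS Γ e.C s.st.π s.st.t v
            then s.st.π v + amount Γ e.C s.st else s.st.π v),
          (List.range Γ.N).map (fun v => if InS Γ e.C s.st.π s.st.t v then false else s.st.W v),
          s.2.2.2) =
          (⟨s.st.t, fun v => if v < Γ.N ∧ InS Γ e.C s.st.π s.st.t v then
              s.st.π v + amount Γ e.C s.st else s.st.π v,
            fun v => if v < Γ.N ∧ InS Γ e.C s.st.π s.st.t v then false else s.st.W v,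
            s.st.h⟩ : St)
        have hπ : ∀ v, ¬ v < Γ.N → s.st.π v = 0 := by
          intro v hv
          show s.2.1.getD v 0 = 0
          rw [List.getD_eq_default]
          rw [hs.π]
          omega
        have hWn : ∀ v, ¬ v < Γ.N → s.st.W v = false := by
          intro v hv
          show s.2.2.1.getD v false = false
          rw [List.getD_eq_default]
          rw [hs.W]
          omega
        have e1 : (fun v => ((List.range Γ.N).map (fun v => if InS Γ e.C s.st.π s.st.t v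
            then s.st.π v + amount Γ e.C s.st else s.st.π v)).getD v 0) =
            fun v => if v < Γ.N ∧ InS Γ e.C s.st.π s.st.t v then
              s.st.π v + amount Γ e.C s.st else s.st.π v := by
          funext v
          rw [lists_getD]
          by_cases hv : v < Γ.N
          · rw [if_pos hv]
            by_cases hS : InS Γ e.C s.st.π s.st.t v
            · rw [if_pos hS, if_pos ⟨hv, hS⟩]
            · rw [if_neg hS, if_neg (fun h => hS h.2)]
          · rw [if_neg hv, if_neg (fun h => hv h.1), hπ v hv]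
        have e2 : (fun v => ((List.range Γ.N).map (fun v => if InS Γ e.C s.st.π s.st.t v
            then false else s.st.W v)).getD v false) =
            fun v => if v < Γ.N ∧ InS Γ e.C s.st.π s.st.t v then false else s.st.W v := by
          funext v
          rw [lists_getD]
          by_cases hv : v < Γ.N
          · rw [if_pos hv]
            by_cases hS : InS Γ e.C s.st.π s.st.t v
            · rw [if_pos hS, if_pos ⟨hv, hS⟩]
            · rw [if_neg hS, if_neg (fun h => hS h.2)]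
          · rw [if_neg hv, if_neg (fun h => hv h.1), hWn v hv]
        rw [← e1, ← e2]
        rfl
      · show ((List.range Γ.N).map _).length = Γ.N
        rw [List.length_map, List.length_range]
      · show ((List.range Γ.N).map _).length = Γ.N
        rw [List.length_map, List.length_range]

theorem lrun_st (hΓ : Γ.Ok) (e : LC) {s : LS} (hb : Generic Γ e.b) (hi : Inv Γ e.b e.C s.st)
    (hs : LOk Γ s) (k : ℕ) : ((lstep Γ e)^[k] s).st = (step Γ e.b e.C)^[k] s.st ∧
      LOk Γ ((lstep Γ e)^[k] s) := by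
  induction k with
  | zero => exact ⟨rfl, hs⟩
  | succ k ih =>
    obtain ⟨h1, h2⟩ := ih
    have h3 : Inv Γ e.b e.C ((lstep Γ e)^[k] s).st := by
      rw [h1]
      exact inv_iterate hΓ hb hi k
    obtain ⟨k1, k2⟩ := lstep_st hΓ e (s := (lstep Γ e)^[k] s) h3.tree h2
    rw [Function.iterate_succ_apply', Function.iterate_succ_apply', k1, h1]
    exact ⟨rfl, k2⟩

theorem lists_grow1 (hΓ : Γ.Ok) (x : List ℚ) {t : LT} (ht : IsTree Γ t.tr)
    (hl : t.2.length = Γ.N) :
    (lgrow1 Γ x t).tr = grow1 Γ (fun q => x.getD q 0) t.tr ∧ (lgrow1 Γ x t).2.length = Γ.N := by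
  unfold lgrow1 grow1
  cases hf : (List.range Γ.M).find? (fun a => decide (x.getD a 0 ≠ 0) && !decide (InT Γ t.tr a)) with
  | none => exact ⟨rfl, hl⟩
  | some a =>
    have ha : a < Γ.M := List.mem_range.1 (List.mem_of_find?_eq_some hf)
    have hv : Γ.tail a < Γ.N := hΓ.tail_ltN ha
    obtain ⟨h1, h2⟩ := lreroot_tr hΓ ht hl hv
    have h3 : IsTree Γ (lreroot Γ t (Γ.tail a)).tr := by
      rw [h1]
      exact reroot_tree hΓ ht hv
    have h4 := lists_root h3 h2
    show (lexch (lreroot Γ t (Γ.tail a)) a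
      (first0 Γ (fun q => x.getD q 0) (lreroot Γ t (Γ.tail a)).tr (Γ.head a))).tr =
      exch (reroot Γ t.tr (Γ.tail a)) a
        (first0 Γ (fun q => x.getD q 0) (reroot Γ t.tr (Γ.tail a)) (Γ.head a)) ∧
      (lexch (lreroot Γ t (Γ.tail a)) a
      (first0 Γ (fun q => x.getD q 0) (lreroot Γ t (Γ.tail a)).tr (Γ.head a))).2.length = Γ.N
    rw [lexch_length, lexch_tr h4, h1]
    exact ⟨rfl, h2⟩

theorem lgrow_tr (hΓ : Γ.Ok) (x : List ℚ) {t : LT} (ht : IsTree Γ t.tr)
    (hl : t.2.length = Γ.N)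
    (hx : ∀ z : ℕ → ℤ, (∀ v < Γ.N, div Γ z v = 0) → (∀ a < Γ.M, x.getD a 0 = 0 → z a = 0) →
      ∀ a < Γ.M, z a = 0) :
    (lgrow Γ x t).tr = grow Γ (fun q => x.getD q 0) t.tr ∧ (lgrow Γ x t).2.length = Γ.N := by
  have key : ∀ n, ((lgrow1 Γ x)^[n] t).tr = (grow1 Γ (fun q => x.getD q 0))^[n] t.tr ∧
      ((lgrow1 Γ x)^[n] t).2.length = Γ.N ∧ IsTree Γ ((lgrow1 Γ x)^[n] t).tr := by
    intro n
    induction n with
    | zero => exact ⟨rfl, hl, ht⟩
    | succ n ih =>
      obtain ⟨h1, h2, h3⟩ := ih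
      obtain ⟨k1, k2⟩ := lists_grow1 hΓ x h3 h2
      rw [Function.iterate_succ_apply', Function.iterate_succ_apply', k1]
      refine ⟨by rw [h1], k2, (initA_grow1 hΓ h3 hx).1⟩
  exact ⟨(key Γ.M).1, (key Γ.M).2.1⟩

theorem lstart_st (K : ℤ) (h : ℕ) {t : LT} (hl : t.2.length = Γ.N) :
    (lstart Γ K h t).st = start K h Γ t.tr ∧ LOk Γ (lstart Γ K h t) := by
  refine ⟨?_, ⟨hl, ?_, List.length_replicate⟩⟩
  · unfold lstart start LS.st
    rw [St.mk.injEq]
    refine ⟨rfl, ?_, lists_W Γ.N, rfl⟩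
    funext v
    show ((List.range Γ.N).map (pot0 Γ K t.tr)).getD v 0 = pot0 Γ K t.tr v
    rw [lists_getD]
    by_cases hv : v < Γ.N
    · rw [if_pos hv]
    · rw [if_neg hv]
      unfold pot0
      rw [if_neg hv]
  · show ((List.range Γ.N).map _).length = Γ.N
    rw [List.length_map, List.length_range]

theorem lists_up (hΓ : Γ.Ok) {t t' : Tr} (ht : IsTree Γ t) (hr : t'.r = t.r)
    (hp : ∀ v < Γ.N, t'.pa v = t.pa v) (k : ℕ) {v : ℕ} (hv : v < Γ.N) :
    up Γ t' k v = up Γ t k v := by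
  induction k with
  | zero => rw [up_zero, up_zero]
  | succ k ih =>
    rw [up_succ', up_succ', ih]
    unfold par
    rw [hr, hp _ (ht.up_lt hΓ hv k)]

theorem lists_tree (hΓ : Γ.Ok) {t t' : Tr} (ht : IsTree Γ t) (hr : t'.r = t.r)
    (hp : ∀ v < Γ.N, t'.pa v = t.pa v) : IsTree Γ t' := by
  refine ⟨?_, ?_, ?_, ?_⟩
  · rw [hr]
    exact ht.root
  · intro v hv h
    rw [hr] at h
    rw [hp v hv]
    exact ht.pa_lt v hv h
  · intro v hv h
    rw [hr] at h
    rw [hp v hv]
    exact ht.own v hv h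
  · intro v hv
    rw [hr, lists_up hΓ ht hr hp _ hv]
    exact ht.reach v hv

theorem tree0_tr (r c : ℕ) (hr : 0 < r) (hc : 0 < c) :
    IsTree (tnet r c) (LT.tr (r * c, (List.range (tnet r c).N).map (tree0 r c).pa)) := by
  refine lists_tree (tnet_ok r c) (tree0_tree hr hc) rfl ?_
  intro v hv
  show ((List.range (tnet r c).N).map (tree0 r c).pa).getD v 0 = (tree0 r c).pa v
  rw [lists_getD, if_pos hv]

/-- the flow on a tree by the formula -/
theorem flowOf_eq (hΓ : Γ.Ok) {b x : ℕ → ℚ} {t : Tr} (ht : IsTree Γ t) (hx : TFlow Γ b t x) :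
    ∀ q < Γ.M, x q = flowOf Γ b t q := by
  intro q hq
  unfold flowOf
  by_cases hT : InT Γ t q
  · obtain ⟨v, hv, hr, hvq⟩ := hT
    rw [Finset.sum_eq_single_of_mem v (Finset.mem_range.2 hv), if_pos ⟨hr, hvq⟩, ← hvq]
    · exact hx.eq_val hΓ ht hv hr
    · intro w hw hwv
      rw [if_neg]
      rintro ⟨h1, h2⟩
      exact hwv (ht.pa_inj hΓ (Finset.mem_range.1 hw) hv h1 hr (h2.trans hvq.symm))
  · rw [hx.supp q hq hT]
    refine (Finset.sum_eq_zero fun w hw => ?_).symm
    rw [if_neg]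
    rintro ⟨h1, h2⟩
    exact hT ⟨w, Finset.mem_range.1 hw, h1, h2⟩

end Pool.Agent.Simplex.Net
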