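import Pool.Agent.Lib.MP_4d246d_lc.Net.ListDefs

/-!
# Sequences without repetitions, integral costs
-/

open Finset

namespace Pool.Agent.Simplex.Net

section

variable {α : Type*} [DecidableEq α] {f : ℕ → α} {J : ℕ}

private theorem seqOf_zero_aux : seqOf f 0 = [f 0] := by
  unfold seqOf
  simp

private theorem seqOf_succ_aux :
    seqOf f (J + 1) = if f (J + 1) = f J then seqOf f J else seqOf f J ++ [f (J + 1)] := by
  unfold seqOf
  rw [List.range_succ (n := J + 1), List.filter_append, List.map_append]
  by_cases h : f (J + 1) = f J
  · rw [if_pos h]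
    have : List.filter (fun k => decide (k = 0 ∨ f k ≠ f (k - 1))) [J + 1] = [] := by
      rw [List.filter_eq_nil_iff]
      intro a ha
      rw [List.mem_singleton] at ha
      subst ha
      simp [h]
    rw [this]
    simp
  · rw [if_neg h]
    have : List.filter (fun k => decide (k = 0 ∨ f k ≠ f (k - 1))) [J + 1] = [J + 1] := by
      rw [List.filter_eq_self]
      intro a ha
      rw [List.mem_singleton] at ha
      subst ha
      simp [h]
    rw [this]
    simp

theorem seqOf_ne_nil : seqOf f J ≠ [] := by
  induction J with
  | zero => rw [seqOf_zero_aux]; simp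
  | succ J ih =>
    rw [seqOf_succ_aux]
    split_ifs
    · exact ih
    · simp

theorem seqOf_head : (seqOf f J)[0]? = some (f 0) := by
  induction J with
  | zero => rw [seqOf_zero_aux]; simp
  | succ J ih =>
    rw [seqOf_succ_aux]
    split_ifs
    · exact ih
    · rw [List.getElem?_append_left (List.length_pos_iff.2 seqOf_ne_nil), ih]

theorem seqOf_last (d : α) : (seqOf f J).getD ((seqOf f J).length - 1) d = f J := by
  induction J with
  | zero => rw [seqOf_zero_aux]; simp
  | succ J ih =>
    rw [seqOf_succ_aux]
    split_ifs with h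
    · rw [ih, h]
    · rw [List.length_append, List.length_singleton, Nat.add_sub_cancel, List.getD_eq_getElem?_getD,
        List.getElem?_append_right le_rfl]
      simp

theorem mem_seqOf {a : α} (h : a ∈ seqOf f J) : ∃ k ≤ J, a = f k := by
  unfold seqOf at h
  rw [List.mem_map] at h
  obtain ⟨k, hk, rfl⟩ := h
  have := (List.mem_filter.1 hk).1
  rw [List.mem_range] at this
  exact ⟨k, by omega, rfl⟩

theorem seqOf_chain {R : α → α → Prop} (h : ∀ k < J, f (k + 1) = f k ∨ R (f k) (f (k + 1)))
    (d : α) (t : ℕ) (ht : t + 1 < (seqOf f J).length) :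
    R ((seqOf f J).getD t d) ((seqOf f J).getD (t + 1) d) := by
  induction J with
  | zero => rw [seqOf_zero_aux] at ht; simp at ht
  | succ J ih =>
    have ih' := ih (fun k hk => h k (by omega))
    rw [seqOf_succ_aux] at ht ⊢
    split_ifs at ht ⊢ with hf
    · exact ih' ht
    · rw [List.length_append, List.length_singleton] at ht
      by_cases ht2 : t + 1 < (seqOf f J).length
      · have := ih' ht2
        rw [List.getD_eq_getElem?_getD, List.getD_eq_getElem?_getD] at this ⊢
        rw [List.getElem?_append_left (by omega), List.getElem?_append_left ht2]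
        exact this
      · have ht3 : t + 1 = (seqOf f J).length := by omega
        have h1 : (seqOf f J).getD t d = f J := by
          rw [← seqOf_last (f := f) (J := J) d, ← ht3, Nat.add_sub_cancel]
        have h2 : (seqOf f J ++ [f (J + 1)]).getD t d = f J := by
          rw [← h1, List.getD_eq_getElem?_getD, List.getD_eq_getElem?_getD,
            List.getElem?_append_left (by omega)]
        have h3 : (seqOf f J ++ [f (J + 1)]).getD (t + 1) d = f (J + 1) := by
          rw [List.getD_eq_getElem?_getD, List.getElem?_append_right (by omega), ht3]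
          simp
        rw [h2, h3]
        rcases h J (by omega) with h4 | h4
        · exact absurd h4 hf
        · exact h4

end

theorem dens_pos (l : List ℚ) : 0 < dens l := by
  unfold dens
  refine List.prod_pos ?_
  intro a ha
  rw [List.mem_map] at ha
  obtain ⟨q, _, rfl⟩ := ha
  exact q.den_pos

private theorem icost_den_dvd {l : List ℚ} {q : ℚ} (h : q ∈ l) : q.den ∣ dens l := by
  unfold dens
  exact List.dvd_prod (List.mem_map_of_mem h)

/-- the integral costs are the negative objective, multiplied by `(2 N + 3) * dens l` -/
theorem icost_getD (N : ℕ) (l : List ℚ) (q : ℕ) :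
    ((icost N l).getD q 0 : ℚ) = - ((2 * N + 3) * dens l) * l.getD q 0 := by
  unfold icost
  rw [List.getD_eq_getElem?_getD, List.getD_eq_getElem?_getD, List.getElem?_map]
  by_cases h : q < l.length
  · rw [List.getElem?_eq_getElem h]
    simp only [Option.map_some, Option.getD_some]
    have hm : l[q] ∈ l := List.getElem_mem h
    generalize l[q] = x at hm
    obtain ⟨k, hk⟩ := icost_den_dvd hm
    have h0 : (x.den : ℚ) ≠ 0 := by
      have := x.den_pos
      positivity
    rw [hk, Nat.mul_div_cancel_left _ x.den_pos]
    push_cast
    have h1 : (x.num : ℚ) = x * x.den := by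
      rw [Rat.mul_den_eq_num]
    rw [h1]
    ring
  · rw [List.getElem?_eq_none (by omega)]
    simp

theorem icost_dvd (N : ℕ) (l : List ℚ) (q : ℕ) :
    (2 * (N : ℤ) + 3) ∣ (icost N l).getD q 0 := by
  unfold icost
  rw [List.getD_eq_getElem?_getD, List.getElem?_map]
  by_cases h : q < l.length
  · rw [List.getElem?_eq_getElem h]
    simp only [Option.map_some, Option.getD_some]
    rw [dvd_neg]
    exact dvd_mul_right _ _
  · rw [List.getElem?_eq_none (by omega)]
    simp

theorem kbound_nonneg (C : List ℤ) : 0 ≤ kbound C := by
  unfold kbound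
  refine List.sum_nonneg ?_
  intro a ha
  rw [List.mem_map] at ha
  obtain ⟨q, _, rfl⟩ := ha
  exact abs_nonneg q

theorem le_kbound (C : List ℤ) (a : ℕ) : |C.getD a 0| ≤ kbound C := by
  by_cases h : a < C.length
  · rw [List.getD_eq_getElem?_getD, List.getElem?_eq_getElem h, Option.getD_some]
    unfold kbound
    refine List.single_le_sum ?_ _ (List.mem_map_of_mem (List.getElem_mem h))
    intro b hb
    rw [List.mem_map] at hb
    obtain ⟨q, _, rfl⟩ := hb
    exact abs_nonneg q
  · rw [List.getD_eq_getElem?_getD, List.getElem?_eq_none (by omega), Option.getD_none, abs_zero]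
    exact kbound_nonneg C

theorem kbound_hbound (N : ℕ) (C : List ℤ) : kbound C * (N + 2) ≤ 2 ^ hbound N C := by
  unfold hbound
  have h1 : kbound C * (N + 2) ≤ ((kbound C * (N + 2)).natAbs : ℤ) := Int.le_natAbs
  have h2 := (Nat.lt_size_self (kbound C * (N + 2)).natAbs).le
  refine h1.trans ?_
  exact_mod_cast h2

end Pool.Agent.Simplex.Net
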