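import Pool.Agent.Lib.MP_4d246d_lc.Net.LPb
import Pool.Agent.Lib.MP_4d246d_lc.Net.InitB
import Pool.Agent.Lib.MP_4d246d_lc.Net.Lists
import Pool.Agent.Lib.MP_4d246d_lc.Net.Seq

/-!
# The first state of the method for a table
-/

open Finset

namespace Pool.Agent.Simplex.Net

open Pool.Agent.Simplex.EB

/-- invariants only see the supply of the nodes -/
theorem Inv.congr {Γ : Graph} {b b' : ℕ → ℚ ×ₗ ℤ} {C : ℕ → ℤ} {s : St}
    (h : ∀ v < Γ.N, b v = b' v) (hs : Inv Γ b C s) : Inv Γ b' C s := by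
  obtain ⟨x, hx, h0⟩ := hs.flow
  exact ⟨hs.tree, hs.feas, hs.asleep, x, ⟨fun v hv => (hx.div v hv).trans (h v hv), hx.supp⟩, h0⟩

theorem Generic.congr {Γ : Graph} {b b' : ℕ → ℚ ×ₗ ℤ} (h : ∀ v < Γ.N, b v = b' v)
    (hs : Generic Γ b) : Generic Γ b' := by
  intro A hA hne hn h0
  refine hs A hA hne hn ?_
  rw [← h0]
  exact Finset.sum_congr rfl fun v hv => h v (Finset.mem_range.1 (hA hv))

private theorem algA_getD {G : Type*} [Zero G] {n : ℕ} (y : Fin n → G) (q : ℕ) :
    (List.ofFn y).getD q 0 = ext y q := by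
  unfold ext
  rw [List.getD_eq_getElem?_getD, List.getElem?_ofFn]
  by_cases h : q < n
  · rw [dif_pos h, dif_pos h]; rfl
  · rw [dif_neg h, dif_neg h]; rfl

private theorem algA_map_getD {G : Type*} (f : ℕ → G) (n : ℕ) (d : G) {v : ℕ} (hv : v < n) :
    ((List.range n).map f).getD v d = f v := by
  rw [List.getD_eq_getElem?_getD, List.getElem?_map, List.getElem?_range hv]
  rfl

variable {r c : ℕ} {s : Fin (lines2 r c) → ℚ} {cost : Fin (2 * (r * c)) → ℚ}
  {v : Fin (2 * (r * c)) → ℚ}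

/-- the data of a table program -/
def tdOf (s : Fin (lines2 r c) → ℚ) (cost v : Fin (2 * (r * c)) → ℚ) : TD :=
  ((r, c), List.ofFn s, List.ofFn cost, List.ofFn v)

theorem t0_spec (hr : 0 < r) (hc : 0 < c) (hv : (transportQ2 r c s cost).Vertex (toReal v)) :
    IsTree (tnet r c) (tdOf s cost v).t0.tr ∧ (tdOf s cost v).t0.2.length = (tnet r c).N ∧
      TFlow (tnet r c) (supp2 r c (ext s)) (tdOf s cost v).t0.tr (ext v) := by
  have hΓ := tnet_ok r c
  have ht : IsTree (tnet r c) (LT.tr (r * c, (List.range (tnet r c).N).map (tree0 r c).pa)) :=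
    tree0_tr r c hr hc
  have hl : ((r * c, (List.range (tnet r c).N).map (tree0 r c).pa) : LT).2.length =
      (tnet r c).N := by
    show ((List.range (tnet r c).N).map (tree0 r c).pa).length = (tnet r c).N
    rw [List.length_map, List.length_range]
  have hx : ∀ z : ℕ → ℤ, (∀ u < (tnet r c).N, div (tnet r c) z u = 0) →
      (∀ a < (tnet r c).M, (List.ofFn v).getD a 0 = 0 → z a = 0) →
      ∀ a < (tnet r c).M, z a = 0 := by
    intro z h1 h2
    exact indep_of_vertex hv z h1 (fun a ha h => h2 a ha (by rw [algA_getD]; exact h))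
  obtain ⟨h1, h2⟩ := lgrow_tr hΓ (List.ofFn v) ht hl hx
  obtain ⟨h3, h4⟩ := grow_spec hΓ ht (x := fun q => (List.ofFn v).getD q 0) hx
  have e : (tdOf s cost v).t0 = lgrow (tnet r c) (List.ofFn v)
      (r * c, (List.range (tnet r c).N).map (tree0 r c).pa) := rfl
  rw [e]
  refine ⟨by rw [h1]; exact h3, h2, ?_, ?_⟩
  · intro u hu
    exact div_of_feasible hv.1 hu
  · intro a ha hn
    by_contra hne
    apply hn
    rw [h1]
    exact h4 a ha (by show (List.ofFn v).getD a 0 ≠ 0; rw [algA_getD]; exact hne)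

theorem inv0 (hr : 0 < r) (hc : 0 < c) (hv : (transportQ2 r c s cost).Vertex (toReal v)) :
    Generic (tnet r c) (tdOf s cost v).e.b ∧
      Inv (tnet r c) (tdOf s cost v).e.b (tdOf s cost v).e.C (tdOf s cost v).s0.st ∧
      LOk (tnet r c) (tdOf s cost v).s0 := by
  obtain ⟨h1, h2, h3⟩ := t0_spec hr hc hv
  have hΓ := tnet_ok r c
  have hs : (fun p => (List.ofFn s).getD p 0) = ext s := funext fun p => algA_getD s p
  have hb : ∀ u < (tnet r c).N, pert (supp2 r c (ext s))
      (eta (tnet r c) (tdOf s cost v).t0.tr) u = (tdOf s cost v).e.b u := by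
    intro u hu
    show toLex (supp2 r c (ext s) u, eta (tnet r c) (tdOf s cost v).t0.tr u) =
      toLex (((List.range (tnet r c).N).map
          (supp2 r c fun p => (List.ofFn s).getD p 0)).getD u 0,
        ((List.range (tnet r c).N).map (eta (tnet r c) (tdOf s cost v).t0.tr)).getD u 0)
    rw [algA_map_getD _ _ _ hu, algA_map_getD _ _ _ hu, hs]
  have h0 : ∀ a < (tnet r c).M, 0 ≤ ext v a := by
    intro a ha
    have ha' : a < 2 * (r * c) := ha
    have h := hv.1.2 ⟨a, ha'⟩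
    have h' : (0 : ℝ) ≤ (v ⟨a, ha'⟩ : ℝ) := h
    unfold ext
    rw [dif_pos ha']
    exact_mod_cast h'
  have hi := inv_start hΓ h1 h3 h0 (C := (tdOf s cost v).e.C)
    (K := kbound (tdOf s cost v).e.2.2) (fun a _ => le_kbound _ a)
    (h := hbound (tnet r c).N (tdOf s cost v).e.2.2) (kbound_hbound _ _) (kbound_nonneg _)
  obtain ⟨h4, h5⟩ := lstart_st (Γ := tnet r c) (kbound (tdOf s cost v).e.2.2)
    (hbound (tnet r c).N (tdOf s cost v).e.2.2) h2
  refine ⟨Generic.congr hb (generic_pert hΓ h1 _), ?_, h5⟩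
  refine Inv.congr hb ?_
  show Inv (tnet r c) _ _ (lstart (tnet r c) (kbound (tdOf s cost v).e.2.2)
    (hbound (tnet r c).N (tdOf s cost v).e.2.2) (tdOf s cost v).t0).st
  rw [h4]
  exact hi

end Pool.Agent.Simplex.Net
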