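import Pool.Agent.Lib.MP_4d246d_lc.Net.LPb

/-!
# Exchanges are pivots
-/

open Finset

namespace Pool.Agent.Simplex.Net

open Pool.Agent.Simplex.EB

variable {r c : ℕ} {s : Fin (lines2 r c) → ℚ} {cost : Fin (2 * (r * c)) → ℚ}

private theorem lpc_ext {G : Type*} [Zero G] {n : ℕ} (y : Fin n → G) {q : ℕ} (hq : q < n) :
    ext y q = y ⟨q, hq⟩ := ext_val y ⟨q, hq⟩

private theorem lpc_convex : Convex ℝ (transportQ2 r c s cost).feasible := by
  intro y1 h1 y2 h2 α β hα hβ hαβ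
  refine ⟨fun i => ?_, fun j => ?_⟩
  · have e : ∑ j, (((transportQ2 r c s cost).A i j : ℚ) : ℝ) * (α • y1 + β • y2) j =
        α * ∑ j, (((transportQ2 r c s cost).A i j : ℚ) : ℝ) * y1 j +
          β * ∑ j, (((transportQ2 r c s cost).A i j : ℚ) : ℝ) * y2 j := by
      rw [mul_sum, mul_sum, ← sum_add_distrib]
      refine sum_congr rfl fun j _ => ?_
      simp only [Pi.add_apply, Pi.smul_apply, smul_eq_mul]
      ring
    rw [e]
    have h3 := mul_le_mul_of_nonneg_left (h1.1 i) hα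
    have h4 := mul_le_mul_of_nonneg_left (h2.1 i) hβ
    have h5 : α * (((transportQ2 r c s cost).b i : ℚ) : ℝ) +
        β * (((transportQ2 r c s cost).b i : ℚ) : ℝ) = (((transportQ2 r c s cost).b i : ℚ) : ℝ) := by
      rw [← add_mul, hαβ, one_mul]
    linarith
  · simp only [Pi.add_apply, Pi.smul_apply, smul_eq_mul]
    exact add_nonneg (mul_nonneg hα (h1.2 j)) (mul_nonneg hβ (h2.2 j))

/-- the extreme set -/
private theorem lpc_extreme {t t' : Tr} (ht : IsTree (tnet r c) t)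
    {C : ℕ → ℤ} {a l : ℕ} {z : ℕ → ℤ} (h : Exch (tnet r c) C t t' a l z)
    {X X' : Fin (2 * (r * c)) → ℝ} (hX : X ∈ (transportQ2 r c s cost).feasible)
    (hX' : X' ∈ (transportQ2 r c s cost).feasible) {m : ℝ} (hm : 0 < m)
    (hsupp : ∀ q : Fin (2 * (r * c)), ¬ InT (tnet r c) t q → X q = 0)
    (hl : X ⟨l, h.l_lt⟩ = m) (he : ∀ q : Fin (2 * (r * c)), X' q = X q + (z q : ℝ) * m) :
    IsExtreme ℝ (transportQ2 r c s cost).feasible (segment ℝ X X') := by
  refine ⟨lpc_convex.segment_subset hX hX', fun y1 hy1 y2 hy2 y hy hyy => ?_⟩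
  have hn1 : ∀ q, 0 ≤ y1 q := (mem_feasible_iff.1 hy1).1
  have hn2 : ∀ q, 0 ≤ y2 q := (mem_feasible_iff.1 hy2).1
  have ha : a < 2 * (r * c) := h.a_lt
  have hl' : l < 2 * (r * c) := h.l_lt
  have hXa : X ⟨a, ha⟩ = 0 := hsupp ⟨a, ha⟩ h.na
  -- off the tree and `a` everything vanishes
  have hoff : ∀ q : Fin (2 * (r * c)), (q : ℕ) ≠ a → ¬ InT (tnet r c) t q → y1 q = 0 := by
    intro q hqa hqT
    have hz0 : z q = 0 := by
      by_contra h1
      rcases h.supp q q.2 h1 with h2 | h2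
      · exact hqa h2
      · exact hqT h2
    have h1 : X q = 0 := hsupp q hqT
    have h2 : X' q = 0 := by rw [he q, h1, hz0]; simp
    obtain ⟨α, β, hα, hβ, -, hab⟩ := hy
    obtain ⟨α', β', hα', hβ', -, hab'⟩ := hyy
    have h3 : y q = 0 := by
      rw [← hab]
      simp only [Pi.add_apply, Pi.smul_apply, smul_eq_mul, h1, h2, mul_zero, add_zero]
    have h4 : α' * y1 q + β' * y2 q = 0 := by
      rw [← h3, ← hab']
      simp only [Pi.add_apply, Pi.smul_apply, smul_eq_mul]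
    have h5 : 0 ≤ α' * y1 q := mul_nonneg hα'.le (hn1 q)
    have h6 : 0 ≤ β' * y2 q := mul_nonneg hβ'.le (hn2 q)
    have h7 : α' * y1 q = 0 := by linarith
    rcases mul_eq_zero.1 h7 with h8 | h8
    · exact absurd h8 hα'.ne'
    · exact h8
  have hk := Exch.kernel (tnet_ok r c) ht h (y := fun q => ext y1 q - ext X q)
    (fun u hu => by
      rw [div_sub, ((feasible_iff_div hX).1 hy1).2 u hu, sub_self])
    (fun q hq hne => by
      by_contra hcon
      push Not at hcon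
      apply hne
      have hq' : q < 2 * (r * c) := hq
      show ext y1 q - ext X q = 0
      rw [lpc_ext _ hq', lpc_ext _ hq', hoff ⟨q, hq'⟩ hcon.1 hcon.2, hsupp ⟨q, hq'⟩ hcon.2, sub_zero])
  have hk' : ∀ q : Fin (2 * (r * c)), y1 q = X q + (z q : ℝ) * y1 ⟨a, ha⟩ := by
    intro q
    have h1 := hk q q.2
    rw [lpc_ext _ q.2, lpc_ext _ q.2, lpc_ext _ ha, lpc_ext _ ha, hXa, sub_zero, zsmul_eq_mul] at h1
    linarith
  have h1 : 0 ≤ y1 ⟨a, ha⟩ := hn1 _
  have h2 : y1 ⟨a, ha⟩ ≤ m := by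
    have h3 := hk' ⟨l, hl'⟩
    have h4 := hn1 ⟨l, hl'⟩
    have h5 : X ⟨l, hl'⟩ = m := hl
    have h6 : ((z l : ℤ) : ℝ) = -1 := by rw [h.zl]; simp
    have h7 : ((z ((⟨l, hl'⟩ : Fin (2 * (r * c))) : ℕ) : ℤ) : ℝ) = -1 := h6
    rw [h5, h7] at h3
    linarith
  refine ⟨1 - y1 ⟨a, ha⟩ / m, y1 ⟨a, ha⟩ / m, ?_, by positivity, by ring, ?_⟩
  · rw [sub_nonneg, div_le_one hm]
    exact h2
  · funext q
    simp only [Pi.add_apply, Pi.smul_apply, smul_eq_mul]
    rw [hk' q, he q]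
    field_simp
    ring

/-- An exchange is a pivot, or nothing (if the flow on the leaving arc is `0`). The new flow is
`x' = x + x_l z`; the face `x_q = 0` off the tree and `a` is the segment from `x` to `x'`
(`Exch.kernel`), and `z` has negative cost. -/
theorem improving_of_exch {t t' : Tr} (ht : IsTree (tnet r c) t) (ht' : IsTree (tnet r c) t')
    {C : ℕ → ℤ} {κ : ℚ} (hκ : 0 < κ) (hC : ∀ q : Fin (2 * (r * c)), (C q : ℚ) = - κ * cost q)
    {a l : ℕ} {z : ℕ → ℤ} (h : Exch (tnet r c) C t t' a l z) {x x' : ℕ → ℚ}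
    (hx : TFlow (tnet r c) (supp2 r c (ext s)) t x) (h0 : ∀ a < (tnet r c).M, 0 ≤ x a)
    (hx' : TFlow (tnet r c) (supp2 r c (ext s)) t' x') (h0' : ∀ a < (tnet r c).M, 0 ≤ x' a)
    {v : Fin (2 * (r * c)) → ℚ} (hv : toReal v ∈ (transportQ2 r c s cost).feasible) :
    tab r c x' = tab r c x ∨
      (transportQ2 r c s cost).Improving (toReal (tab r c x)) (toReal (tab r c x')) := by
  have hxx : ∀ q < (tnet r c).M, x' q = x q + z q • x l :=
    TFlow.unique (tnet_ok r c) ht' hx' (h.flow hx)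
  rcases (h0 l h.l_lt).eq_or_lt with hl0 | hl0
  · left
    funext q
    have h1 := hxx q q.2
    rw [← hl0, smul_zero, add_zero] at h1
    exact h1
  right
  have hV := vertex_of_tflow ht hx h0 hv
  have hV' := vertex_of_tflow ht' hx' h0' hv
  have ha : a < 2 * (r * c) := h.a_lt
  have hm : (0 : ℝ) < (x l : ℝ) := by exact_mod_cast hl0
  have he : ∀ q : Fin (2 * (r * c)), toReal (tab r c x') q =
      toReal (tab r c x) q + (z q : ℝ) * (x l : ℝ) := by
    intro q
    show ((x' q : ℚ) : ℝ) = ((x q : ℚ) : ℝ) + (z q : ℝ) * (x l : ℝ)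
    rw [hxx q q.2, zsmul_eq_mul]
    push_cast
    ring
  refine ⟨⟨hV, hV', ?_, ?_⟩, ?_⟩
  · intro heq
    have h1 := congrFun heq ⟨a, ha⟩
    rw [he ⟨a, ha⟩] at h1
    have h2 : ((z ((⟨a, ha⟩ : Fin (2 * (r * c))) : ℕ) : ℤ) : ℝ) = 1 := by
      have : ((z a : ℤ) : ℝ) = 1 := by rw [h.za]; simp
      exact this
    rw [h2] at h1
    linarith
  · refine lpc_extreme ht h hV.1 hV'.1 hm (fun q hq => ?_) rfl he
    show ((x q : ℚ) : ℝ) = 0
    rw [hx.supp q q.2 hq, Rat.cast_zero]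
  · unfold QLP.obj
    rw [← sub_pos, ← sum_sub_distrib]
    have h1 : ∀ q : Fin (2 * (r * c)), (((transportQ2 r c s cost).c q : ℚ) : ℝ) *
        toReal (tab r c x') q - (((transportQ2 r c s cost).c q : ℚ) : ℝ) * toReal (tab r c x) q =
        ((cost q : ℚ) : ℝ) * (z q : ℝ) * (x l : ℝ) := by
      intro q
      rw [he q]
      show ((cost q : ℚ) : ℝ) * _ - ((cost q : ℚ) : ℝ) * _ = _
      ring
    rw [sum_congr rfl fun q _ => h1 q, ← sum_mul]
    refine mul_pos ?_ hm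
    have h2 : ∑ q : Fin (2 * (r * c)), C q * z q < 0 := by
      have h3 := h.cost
      rwa [show (tnet r c).M = 2 * (r * c) from rfl,
        ← Fin.sum_univ_eq_sum_range (fun q => C q * z q) (2 * (r * c))] at h3
    have h3 : ((∑ q : Fin (2 * (r * c)), C q * z q : ℤ) : ℚ) =
        - κ * ∑ q : Fin (2 * (r * c)), cost q * (z q : ℚ) := by
      push_cast
      rw [mul_sum]
      refine sum_congr rfl fun q _ => ?_
      rw [hC q]
      ring
    have h4 : ((∑ q : Fin (2 * (r * c)), C q * z q : ℤ) : ℚ) < 0 := by exact_mod_cast h2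
    rw [h3] at h4
    have h5 : 0 < ∑ q : Fin (2 * (r * c)), cost q * (z q : ℚ) := by
      by_contra hcon
      push Not at hcon
      nlinarith
    have h6 : ((∑ q : Fin (2 * (r * c)), cost q * (z q : ℚ) : ℚ) : ℝ) =
        ∑ q : Fin (2 * (r * c)), ((cost q : ℚ) : ℝ) * (z q : ℝ) := by
      push_cast
      rfl
    rw [← h6]
    exact_mod_cast h5

end Pool.Agent.Simplex.Net
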