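import Pool.Agent.Lib.MP_4d246d_lc.Net.AlgA
import Pool.Agent.Lib.MP_4d246d_lc.Net.LPc

/-!
# The vertices of the method for a table
-/

open Finset

namespace Pool.Agent.Simplex.Net

open Pool.Agent.Simplex.EB

variable {r c : ℕ} {s : Fin (lines2 r c) → ℚ} {cost : Fin (2 * (r * c)) → ℚ}
  {v : Fin (2 * (r * c)) → ℚ}

/-! ### Auxiliary statements -/

private def ab_fst : ℚ ×ₗ ℤ →+ ℚ where
  toFun z := (ofLex z).1
  map_zero' := rfl
  map_add' _ _ := rfl

private theorem ab_fst_nonneg {z : ℚ ×ₗ ℤ} (h : 0 < z) : 0 ≤ ab_fst z := by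
  have h1 := (Prod.Lex.lt_iff (α := ℚ) (β := ℤ)).1 h
  rcases h1 with h2 | h2
  · exact le_of_lt h2
  · exact le_of_eq h2.1

private theorem ab_getD {n : ℕ} (y : Fin n → ℚ) (q : ℕ) : (List.ofFn y).getD q 0 = ext y q := by
  unfold ext
  rw [List.getD_eq_getElem?_getD]
  by_cases h : q < n
  · rw [List.getElem?_ofFn, dif_pos h, dif_pos h]
    rfl
  · rw [List.getElem?_ofFn, dif_neg h, dif_neg h]
    rfl

private theorem ab_map_getD {α : Type*} {n : ℕ} (f : ℕ → α) {q : ℕ} (h : q < n) (d : α) :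
    ((List.range n).map f).getD q d = f q := by
  rw [List.getD_eq_getElem?_getD, List.getElem?_map, List.getElem?_range h]
  rfl

/-- the supply of the lists -/
private theorem ab_b {u : ℕ} (hu : u < (tnet r c).N) :
    (tdOf s cost v).e.1.getD u 0 = supp2 r c (ext s) u := by
  have h1 : (tdOf s cost v).e.1 = (List.range (tnet r c).N).map
      (supp2 r c fun p => (List.ofFn s).getD p 0) := rfl
  rw [h1, ab_map_getD _ hu]
  have h2 : (fun p => (List.ofFn s).getD p 0) = ext s := by
    funext p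
    exact ab_getD s p
  rw [h2]

private theorem ab_congr {Γ : Graph} {b b' : ℕ → ℚ} {t : Tr} {x : ℕ → ℚ}
    (h : ∀ u < Γ.N, b u = b' u) (hx : TFlow Γ b t x) : TFlow Γ b' t x :=
  ⟨fun u hu => (hx.div u hu).trans (h u hu), hx.supp⟩

private theorem ab_state (k : ℕ) :
    (tdOf s cost v).state k = (lstep (tnet r c) (tdOf s cost v).e)^[k] (tdOf s cost v).s0 := rfl

/-- the state after `k` steps -/
private theorem ab_st (hr : 0 < r) (hc : 0 < c)
    (hv : (transportQ2 r c s cost).Vertex (toReal v)) (k : ℕ) :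
    ((tdOf s cost v).state k).st =
      (step (tnet r c) (tdOf s cost v).e.b (tdOf s cost v).e.C)^[k] (tdOf s cost v).s0.st := by
  obtain ⟨h1, h2, h3⟩ := inv0 hr hc hv
  rw [ab_state]
  exact (lrun_st (tnet_ok r c) _ h1 h2 h3 k).1

private theorem ab_inv (hr : 0 < r) (hc : 0 < c)
    (hv : (transportQ2 r c s cost).Vertex (toReal v)) (k : ℕ) :
    Inv (tnet r c) (tdOf s cost v).e.b (tdOf s cost v).e.C ((tdOf s cost v).state k).st := by
  obtain ⟨h1, h2, h3⟩ := inv0 hr hc hv
  rw [ab_st hr hc hv]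
  exact inv_iterate (tnet_ok r c) h1 h2 k

private theorem ab_vert (k : ℕ) : (tdOf s cost v).vert k =
    (List.range (tnet r c).M).map (flowOf (tnet r c) (fun u => (tdOf s cost v).e.1.getD u 0)
      ((tdOf s cost v).state k).1.tr) := rfl

private theorem ab_vert_eq (k : ℕ) {x : ℕ → ℚ}
    (ht : IsTree (tnet r c) ((tdOf s cost v).state k).1.tr)
    (hx : TFlow (tnet r c) (supp2 r c (ext s)) ((tdOf s cost v).state k).1.tr x) :
    (tdOf s cost v).vert k = (List.range (tnet r c).M).map x := by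
  rw [ab_vert]
  apply List.map_congr_left
  intro q hq
  rw [List.mem_range] at hq
  have h1 : TFlow (tnet r c) (fun u => (tdOf s cost v).e.1.getD u 0)
      ((tdOf s cost v).state k).1.tr x :=
    ab_congr (fun u hu => (ab_b hu).symm) hx
  exact (flowOf_eq (tnet_ok r c) ht h1 q hq).symm

private theorem ab_C (N : ℕ) (cost : Fin (2 * (r * c)) → ℚ) (q : Fin (2 * (r * c))) :
    (((icost N (List.ofFn cost)).getD q 0 : ℤ) : ℚ) =
      - ((2 * N + 3) * dens (List.ofFn cost)) * cost q := by
  rw [icost_getD, ab_getD, ext_val]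

/-- the first part of the flow of a state -/
theorem state_flow (hr : 0 < r) (hc : 0 < c)
    (hv : (transportQ2 r c s cost).Vertex (toReal v)) (k : ℕ) :
    ∃ x : ℕ → ℚ, TFlow (tnet r c) (supp2 r c (ext s)) ((tdOf s cost v).state k).1.tr x ∧
      (∀ a < (tnet r c).M, 0 ≤ x a) ∧
      (tdOf s cost v).vert k = (List.range (tnet r c).M).map x := by
  have hi := ab_inv hr hc hv k
  obtain ⟨y, hy, hpos⟩ := hi.flow
  have hx : TFlow (tnet r c) (supp2 r c (ext s)) ((tdOf s cost v).state k).1.tr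
      (fun q => ab_fst (y q)) := by
    refine ab_congr ?_ (hy.map ab_fst)
    intro u hu
    exact ab_b hu
  refine ⟨fun q => ab_fst (y q), hx, ?_, ab_vert_eq k hi.tree hx⟩
  intro a ha
  by_cases h : InT (tnet r c) ((tdOf s cost v).state k).st.t a
  · exact ab_fst_nonneg (hpos a ha h)
  · have : y a = 0 := hy.supp a ha h
    simp only [this, map_zero, le_refl]

theorem vert_zero (hr : 0 < r) (hc : 0 < c)
    (hv : (transportQ2 r c s cost).Vertex (toReal v)) :
    (tdOf s cost v).vert 0 = List.ofFn v := by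
  obtain ⟨h1, -, h3⟩ := t0_spec hr hc hv
  have h4 : (tdOf s cost v).vert 0 = (List.range (tnet r c).M).map (ext v) :=
    ab_vert_eq 0 h1 h3
  rw [h4]
  apply List.ext_getElem
  · rw [List.length_map, List.length_range, List.length_ofFn]
    rfl
  · intro i hi1 hi2
    rw [List.getElem_map, List.getElem_range, List.getElem_ofFn]
    exact ext_val v ⟨i, _⟩

/-- the table of a list -/
def ofL (r c : ℕ) (l : List ℚ) : Fin (2 * (r * c)) → ℚ := fun q => l.getD q 0

private theorem ab_ofL (x : ℕ → ℚ) : ofL r c ((List.range (tnet r c).M).map x) = tab r c x := by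
  funext q
  unfold ofL tab
  exact ab_map_getD x (show (q : ℕ) < (tnet r c).M from q.2) 0

theorem vert_next (hr : 0 < r) (hc : 0 < c)
    (hv : (transportQ2 r c s cost).Vertex (toReal v)) (k : ℕ) :
    (tdOf s cost v).vert (k + 1) = (tdOf s cost v).vert k ∨
      (transportQ2 r c s cost).Improving (toReal (ofL r c ((tdOf s cost v).vert k)))
        (toReal (ofL r c ((tdOf s cost v).vert (k + 1)))) := by
  obtain ⟨h1, -, -⟩ := inv0 hr hc hv
  have hi := ab_inv hr hc hv k
  have hi' := ab_inv hr hc hv (k + 1)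
  have hst : ((tdOf s cost v).state (k + 1)).st =
      step (tnet r c) (tdOf s cost v).e.b (tdOf s cost v).e.C ((tdOf s cost v).state k).st := by
    rw [ab_st hr hc hv, ab_st hr hc hv, Function.iterate_succ_apply']
  have harc := step_arcs (tnet_ok r c) h1 hi
  rw [← hst] at harc
  rcases harc with h | ⟨a, l, z, h⟩
  · left
    have h' : ((tdOf s cost v).state (k + 1)).1.tr = ((tdOf s cost v).state k).1.tr := h
    rw [ab_vert, ab_vert, h']
  · obtain ⟨x, hx, hx0, hxv⟩ := state_flow hr hc hv k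
    obtain ⟨x', hx', hx0', hxv'⟩ := state_flow hr hc hv (k + 1)
    have hκ : (0 : ℚ) < (2 * ((tnet r c).N : ℚ) + 3) * dens (List.ofFn cost) := by
      have := dens_pos (List.ofFn cost)
      positivity
    have key := improving_of_exch (s := s) (cost := cost) hi.tree hi'.tree hκ
      (fun q => ab_C (tnet r c).N cost q) h hx hx0 hx' hx0' hv.1
    rcases key with h2 | h2
    · left
      rw [hxv, hxv']
      apply List.map_congr_left
      intro q hq
      rw [List.mem_range] at hq
      exact congrFun h2 ⟨q, hq⟩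
    · right
      rw [hxv, hxv', ab_ofL, ab_ofL]
      exact h2

theorem vert_last (hr : 0 < r) (hc : 0 < c)
    (hv : (transportQ2 r c s cost).Vertex (toReal v)) {J : ℕ}
    (hJ : J = jbound (tnet r c).N (tnet r c).M (tdOf s cost v).e.2.2) :
    (transportQ2 r c s cost).Vertex (toReal (ofL r c ((tdOf s cost v).vert J))) ∧
      (transportQ2 r c s cost).Optimal (toReal (ofL r c ((tdOf s cost v).vert J))) := by
  obtain ⟨h1, h2, -⟩ := inv0 hr hc hv
  have hi := ab_inv hr hc hv J
  obtain ⟨hS, hh⟩ := run_end (tnet_ok r c) h1 h2 (J := J) (le_of_eq (by rw [hJ]; rfl))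
  rw [← ab_st hr hc hv] at hS hh
  obtain ⟨ϖ, e1, e2⟩ := exact_of_inv (tnet_ok r c)
    (fun a _ => icost_dvd (tnet r c).N (List.ofFn cost) a) hi hS hh
  obtain ⟨x, hx, hx0, hxv⟩ := state_flow hr hc hv J
  have hκ : (0 : ℚ) < (2 * ((tnet r c).N : ℚ) + 3) * dens (List.ofFn cost) := by
    have := dens_pos (List.ofFn cost)
    positivity
  rw [hxv, ab_ofL]
  exact ⟨vertex_of_tflow hi.tree hx hx0 hv.1,
    optimal_of_exact hκ (fun q => ab_C (tnet r c).N cost q) e1 e2 hx hx0 hv.1⟩

end Pool.Agent.Simplex.Net
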