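import Pool.Agent.Lib.MP_4d246d_lc.Net.AlgB

/-!
# The method solves transportation programs
-/

open Finset

namespace Pool.Agent.Simplex.Net

open Pool.Agent.Simplex.EB

variable {r c : ℕ} {s : Fin (lines2 r c) → ℚ} {cost : Fin (2 * (r * c)) → ℚ}
  {v : Fin (2 * (r * c)) → ℚ}

/-- the length of the vertices -/
theorem length_verts (hv : (transportQ2 r c s cost).Vertex (toReal v)) :
    ∀ l ∈ (tdOf s cost v).verts, l.length = 2 * (r * c) := by
  intro l hl
  unfold TD.verts at hl
  split_ifs at hl with h
  · rw [List.mem_singleton] at hl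
    rw [hl]
    exact List.length_ofFn
  · obtain ⟨k, -, rfl⟩ := mem_seqOf hl
    unfold TD.vert
    rw [List.length_map, List.length_range]
    rfl

private theorem algC_ofL (v : Fin (2 * (r * c)) → ℚ) : ofL r c (List.ofFn v) = v := by
  funext q
  unfold ofL
  rw [List.getD_eq_getElem _ _ (by rw [List.length_ofFn]; exact q.2), List.getElem_ofFn]

/-- **The run.** (For `r = 0` or `c = 0` there is only one point.) -/
theorem alg_run (hv : (transportQ2 r c s cost).Vertex (toReal v)) :
    SimplexRun ⟨_, _, transportQ2 r c s cost, v, hv⟩ ((tdOf s cost v).verts.length - 1)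
      (fun t => ofL r c ((tdOf s cost v).verts.getD t [])) .optimal := by
  by_cases h : (tdOf s cost v).Γ.M = 0
  · have e : (tdOf s cost v).verts = [List.ofFn v] := by
      unfold TD.verts
      rw [if_pos h]
      rfl
    have h0 : 2 * (r * c) = 0 := h
    have hsub : ∀ x y : Fin (2 * (r * c)) → ℝ, x = y := fun x y =>
      funext fun q => absurd q.2 (by omega)
    rw [e]
    refine ⟨algC_ofL v, fun t ht => absurd ht (by simp), Or.inl ⟨rfl, ?_, ?_⟩⟩
    · rw [hsub (toReal _) (toReal v)]
      exact hv
    · refine ⟨?_, fun y _ => le_of_eq (by rw [hsub y])⟩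
      rw [hsub (toReal _) (toReal v)]
      exact hv.1
  · have hr : 0 < r := Nat.pos_of_ne_zero fun h0 => h (by
      show 2 * (r * c) = 0
      rw [h0, zero_mul, mul_zero])
    have hc : 0 < c := Nat.pos_of_ne_zero fun h0 => h (by
      show 2 * (r * c) = 0
      rw [h0, mul_zero, mul_zero])
    have e : (tdOf s cost v).verts = seqOf (tdOf s cost v).vert
        (jbound (tnet r c).N (tnet r c).M (tdOf s cost v).e.2.2) := by
      unfold TD.verts
      rw [if_neg h]
      rfl
    have hlast := vert_last (J := jbound (tnet r c).N (tnet r c).M (tdOf s cost v).e.2.2)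
      hr hc hv rfl
    rw [e]
    refine ⟨?_, fun t ht => ?_, Or.inl ⟨rfl, ?_, ?_⟩⟩
    · show ofL r c ((seqOf _ _).getD 0 []) = v
      rw [List.getD_eq_getElem?_getD, seqOf_head, Option.getD_some, vert_zero hr hc hv]
      exact algC_ofL v
    · exact seqOf_chain (R := fun a b => (transportQ2 r c s cost).Improving
        (toReal (ofL r c a)) (toReal (ofL r c b))) (fun k _ => vert_next hr hc hv k) [] t
        (by omega)
    · show (transportQ2 r c s cost).Vertex (toReal (ofL r c ((seqOf _ _).getD _ [])))
      rw [seqOf_last]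
      exact hlast.1
    · show (transportQ2 r c s cost).Optimal (toReal (ofL r c ((seqOf _ _).getD _ [])))
      rw [seqOf_last]
      exact hlast.2

end Pool.Agent.Simplex.Net
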