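import Mathlib

/-!
# A primal network simplex method with polynomially many pivots (definitions)

A bipartite network: the nodes are the numbers below `N`, those below `L` are on the left; the arcs
are the numbers below `M`, each of them goes from a left node to a right node. A rooted spanning
tree is given by its root and by the arc from each other node to its parent.

The method (premultipliers, cost scaling): `π` are potentials with `red a ≥ -4δ` for all arcs `a`
and `-4δ ≤ upc v ≤ 0` for the arcs of the tree, traversed towards the root. `S` is the set of the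
nodes that are connected to the root by arcs of reduced cost `0`. An arc `a` with tail in `S` and
`red a < -δ` enters the tree (after the root has been moved to its tail); the right node `p` with
the smallest flow on the path from the head of `a` to the root becomes the new root, its parent arc
leaves. If there is no such arc `a`, the potentials on `S` are raised. A node is awake as long as
its potential has not been raised; when all nodes are asleep, `δ` is halved and all are awake again.
-/

open Finset

namespace Pool.Agent.Simplex.Net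

/-- A bipartite network. -/
structure Graph where
  /-- number of nodes -/
  N : ℕ
  /-- number of nodes on the left -/
  L : ℕ
  /-- number of arcs -/
  M : ℕ
  /-- the tail (on the left) -/
  tail : ℕ → ℕ
  /-- the head (on the right) -/
  head : ℕ → ℕ

variable (Γ : Graph)

/-- arcs go from the left to the right -/
structure Graph.Ok : Prop where
  tail_lt : ∀ a < Γ.M, Γ.tail a < Γ.L
  le_head : ∀ a < Γ.M, Γ.L ≤ Γ.head a
  head_lt : ∀ a < Γ.M, Γ.head a < Γ.N
  le : Γ.L ≤ Γ.N

/-- the end of the arc `a` on the side of `v` -/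
def Graph.own (v a : ℕ) : ℕ := if v < Γ.L then Γ.tail a else Γ.head a

/-- the other end of the arc `a` at `v` -/
def Graph.opp (v a : ℕ) : ℕ := if v < Γ.L then Γ.head a else Γ.tail a

/-- arcs are traversed forward from left nodes and backward from right nodes -/
def Graph.sg (v : ℕ) : ℤ := if v < Γ.L then 1 else -1

/-- A root and the arcs from the other nodes to their parents. -/
structure Tr where
  /-- the root -/
  r : ℕ
  /-- the arc to the parent -/
  pa : ℕ → ℕ

/-- the parent of `v`; the root is its own parent -/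
def par (t : Tr) (v : ℕ) : ℕ := if v = t.r then t.r else Γ.opp v (t.pa v)

/-- `k` steps up from `v` -/
def up (t : Tr) (k v : ℕ) : ℕ := (par Γ t)^[k] v

/-- a rooted spanning tree -/
structure IsTree (t : Tr) : Prop where
  root : t.r < Γ.N
  pa_lt : ∀ v < Γ.N, v ≠ t.r → t.pa v < Γ.M
  own : ∀ v < Γ.N, v ≠ t.r → Γ.own v (t.pa v) = v
  reach : ∀ v < Γ.N, up Γ t Γ.N v = t.r

/-- `u` is `v` or an ancestor of `v` -/
def Anc (t : Tr) (u v : ℕ) : Prop := ∃ k < Γ.N + 1, up Γ t k v = u

instance (t : Tr) (u v : ℕ) : Decidable (Anc Γ t u v) :=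
  inferInstanceAs (Decidable (∃ k < Γ.N + 1, up Γ t k v = u))

/-- `a` is an arc of the tree -/
def InT (t : Tr) (a : ℕ) : Prop := ∃ v < Γ.N, v ≠ t.r ∧ t.pa v = a

instance (t : Tr) (a : ℕ) : Decidable (InT Γ t a) :=
  inferInstanceAs (Decidable (∃ v < Γ.N, v ≠ t.r ∧ t.pa v = a))

/-- the new tree when the arc `a` enters at the root and the node `p` becomes the root -/
def exch (t : Tr) (a p : ℕ) : Tr := ⟨p, Function.update t.pa t.r a⟩

/-! ### Flows -/

section

variable {G : Type*} [AddCommGroup G]

/-- outflow minus inflow -/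
def div (x : ℕ → G) (v : ℕ) : G :=
  ∑ a ∈ range Γ.M, ((if Γ.tail a = v then x a else 0) - (if Γ.head a = v then x a else 0))

/-- `x` is the flow with supply `b` on the tree -/
structure TFlow (b : ℕ → G) (t : Tr) (x : ℕ → G) : Prop where
  div : ∀ v < Γ.N, div Γ x v = b v
  supp : ∀ a < Γ.M, ¬ InT Γ t a → x a = 0

/-- the supply of the subtree of `v` -/
def sub (b : ℕ → G) (t : Tr) (v : ℕ) : G := ∑ u ∈ range Γ.N, if Anc Γ t v u then b u else 0

/-- the flow on the arc from `v` to its parent -/
def val (b : ℕ → G) (t : Tr) (v : ℕ) : G := Γ.sg v • sub Γ b t v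

/-- no proper part of the nodes has supply `0` -/
def Generic (b : ℕ → G) : Prop :=
  ∀ A ⊆ range Γ.N, A.Nonempty → A ≠ range Γ.N → ∑ v ∈ A, b v ≠ 0

end

/-- The tree `t'` arises from `t` when `a` enters and `l` leaves, along the cycle `z` of negative
cost. -/
structure Exch (C : ℕ → ℤ) (t t' : Tr) (a l : ℕ) (z : ℕ → ℤ) : Prop where
  a_lt : a < Γ.M
  l_lt : l < Γ.M
  na : ¬ InT Γ t a
  l_in : InT Γ t l
  div : ∀ v < Γ.N, div Γ z v = 0
  za : z a = 1
  zl : z l = -1
  supp : ∀ q < Γ.M, z q ≠ 0 → q = a ∨ InT Γ t q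
  arcs : ∀ q < Γ.M, InT Γ t' q ↔ q = a ∨ InT Γ t q ∧ q ≠ l
  cost : ∑ q ∈ range Γ.M, C q * z q < 0

/-! ### Potentials -/

/-- reduced cost of an arc -/
def red (C π : ℕ → ℤ) (a : ℕ) : ℤ := C a - π (Γ.tail a) + π (Γ.head a)

/-- reduced cost of the step from `v` to its parent -/
def upc (C π : ℕ → ℤ) (t : Tr) (v : ℕ) : ℤ := Γ.sg v * red Γ C π (t.pa v)

/-- the potentials are good up to `4 δ` -/
structure Feas (C π : ℕ → ℤ) (t : Tr) (δ : ℤ) : Prop where
  up_le : ∀ v < Γ.N, v ≠ t.r → upc Γ C π t v ≤ 0
  le_up : ∀ v < Γ.N, v ≠ t.r → -(4 * δ) ≤ upc Γ C π t v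
  le_red : ∀ a < Γ.M, -(4 * δ) ≤ red Γ C π a

/-- at the nodes that are asleep the potentials are good up to `2 δ` -/
structure Asleep (C π : ℕ → ℤ) (t : Tr) (δ : ℤ) (W : ℕ → Bool) : Prop where
  le_up : ∀ v < Γ.N, W v = false → v ≠ t.r → -(2 * δ) ≤ upc Γ C π t v
  le_red : ∀ a < Γ.M, W (Γ.tail a) = false → -(2 * δ) ≤ red Γ C π a

/-- `v` is connected to the root by arcs of reduced cost `0` -/
def InS (C π : ℕ → ℤ) (t : Tr) (v : ℕ) : Prop :=
  ∀ k < Γ.N, up Γ t k v ≠ t.r → upc Γ C π t (up Γ t k v) = 0

instance (C π : ℕ → ℤ) (t : Tr) (v : ℕ) : Decidable (InS Γ C π t v) :=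
  inferInstanceAs (Decidable (∀ k < Γ.N, up Γ t k v ≠ t.r → upc Γ C π t (up Γ t k v) = 0))

/-! ### The method -/

/-- A state: tree, potentials, the nodes that are awake, and `h` with `δ = 2 ^ h`. -/
structure St where
  /-- the tree -/
  t : Tr
  /-- the potentials -/
  π : ℕ → ℤ
  /-- the nodes that are awake -/
  W : ℕ → Bool
  /-- `δ = 2 ^ h` -/
  h : ℕ

/-- the entering arc -/
def ent (C : ℕ → ℤ) (s : St) : Option ℕ :=
  (List.range Γ.M).find? fun a =>
    decide (InS Γ C s.π s.t (Γ.tail a)) && decide (red Γ C s.π a < -(2 ^ s.h))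

/-- the child of the root on the path from `v ≠ r` to the root -/
def child (t : Tr) (v : ℕ) : ℕ :=
  match (List.range Γ.N).find? (fun k => decide (up Γ t (k + 1) v = t.r)) with
  | some k => up Γ t k v
  | none => v

/-- the root moves one step towards `v` -/
def move (v : ℕ) (t : Tr) : Tr :=
  if t.r = v then t else exch t (t.pa (child Γ t v)) (child Γ t v)

/-- the same tree with the root `v` -/
def reroot (t : Tr) (v : ℕ) : Tr := (move Γ v)^[Γ.N] t

/-- the right node with the smallest value of `f` on the path from `w` to the root -/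
def leave {G : Type*} [LinearOrder G] (f : ℕ → G) (t : Tr) (w : ℕ) : ℕ :=
  match (List.range (Γ.N + 1)).find? (fun k => decide (Γ.L ≤ up Γ t k w) &&
    (List.range (Γ.N + 1)).all (fun j => decide (Γ.L ≤ up Γ t j w → f (up Γ t k w) ≤
      f (up Γ t j w)))) with
  | some k => up Γ t k w
  | none => w

/-- the smallest element of a list -/
def minOf (l : List ℤ) (d : ℤ) : ℤ :=
  (l.find? fun x => l.all fun y => decide (x ≤ y)).getD d

/-- by how much the potentials on `S` are raised -/
def amount (C : ℕ → ℤ) (s : St) : ℤ :=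
  minOf (2 ^ s.h :: ((List.range Γ.N).filter (fun v => decide (v ≠ s.t.r) &&
    (!decide (InS Γ C s.π s.t v)) && decide (InS Γ C s.π s.t (par Γ s.t v)))).map
      (fun v => - upc Γ C s.π s.t v)) 0

/-- all nodes are asleep -/
def Sleep (s : St) : Prop := ∀ v < Γ.N, s.W v = false

instance (s : St) : Decidable (Sleep Γ s) :=
  inferInstanceAs (Decidable (∀ v < Γ.N, s.W v = false))

/-- the tree after the arc `a` has entered -/
def pivot {G : Type*} [AddCommGroup G] [LinearOrder G] (b : ℕ → G) (t : Tr) (a : ℕ) : Tr :=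
  exch (reroot Γ t (Γ.tail a)) a
    (leave Γ (val Γ b (reroot Γ t (Γ.tail a))) (reroot Γ t (Γ.tail a)) (Γ.head a))

/-- one step of the method -/
def step {G : Type*} [AddCommGroup G] [LinearOrder G] (b : ℕ → G) (C : ℕ → ℤ) (s : St) : St :=
  if Sleep Γ s then
    if s.h = 0 then s else ⟨s.t, s.π, fun v => decide (v < Γ.N), s.h - 1⟩
  else match ent Γ C s with
  | some a => ⟨pivot Γ b s.t a, s.π, s.W, s.h⟩
  | none => ⟨s.t, fun v => if v < Γ.N ∧ InS Γ C s.π s.t v then s.π v + amount Γ C s else s.π v,
      fun v => if v < Γ.N ∧ InS Γ C s.π s.t v then false else s.W v, s.h⟩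

/-- what is true all the time -/
structure Inv {G : Type*} [AddCommGroup G] [LinearOrder G] (b : ℕ → G) (C : ℕ → ℤ) (s : St) :
    Prop where
  tree : IsTree Γ s.t
  feas : Feas Γ C s.π s.t (2 ^ s.h)
  asleep : Asleep Γ C s.π s.t (2 ^ s.h) s.W
  flow : ∃ x, TFlow Γ b s.t x ∧ ∀ a < Γ.M, InT Γ s.t a → 0 < x a

/-- bound for the number of steps of a phase -/
def phaseBound (N M : ℕ) : ℕ := (N + 1) * (M * (8 * N + 1)) + 8 * N * N + N

end Pool.Agent.Simplex.Net
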