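import Pool.Agent.Lib.MP_4d246d_lc.Net.TreeB

/-!
# Flows on trees
-/

open Finset

namespace Pool.Agent.Simplex.Net

variable {Γ : Graph} {t t' : Tr}

private theorem flowA_sg (v : ℕ) : Γ.sg v * Γ.sg v = 1 := by
  unfold Graph.sg
  split_ifs <;> norm_num

private theorem flowA_ends (ht : IsTree Γ t) {v : ℕ} (hv : v < Γ.N) (hr : v ≠ t.r) :
    (v < Γ.L ∧ Γ.tail (t.pa v) = v ∧ Γ.head (t.pa v) = par Γ t v) ∨
      (¬ v < Γ.L ∧ Γ.head (t.pa v) = v ∧ Γ.tail (t.pa v) = par Γ t v) := by
  have h1 := ht.own v hv hr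
  rw [par_of_ne hr]
  unfold Graph.own at h1
  unfold Graph.opp
  by_cases h : v < Γ.L
  · rw [if_pos h] at h1
    rw [if_pos h]
    exact Or.inl ⟨h, h1, rfl⟩
  · rw [if_neg h] at h1
    rw [if_neg h]
    exact Or.inr ⟨h, h1, rfl⟩

section

variable {G : Type*} [AddCommGroup G]

theorem div_add (x y : ℕ → G) (v : ℕ) : div Γ (fun q => x q + y q) v = div Γ x v + div Γ y v := by
  unfold div
  rw [← sum_add_distrib]
  refine sum_congr rfl fun a _ => ?_
  have e : ∀ (P : Prop) [Decidable P], (if P then x a + y a else 0) =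
      (if P then x a else 0) + (if P then y a else 0) := by
    intro P _
    by_cases h : P
    · rw [if_pos h, if_pos h, if_pos h]
    · rw [if_neg h, if_neg h, if_neg h, add_zero]
  show (if Γ.tail a = v then x a + y a else 0) - (if Γ.head a = v then x a + y a else 0) = _
  rw [e, e]
  exact add_sub_add_comm _ _ _ _

theorem div_sub (x y : ℕ → G) (v : ℕ) : div Γ (fun q => x q - y q) v = div Γ x v - div Γ y v := by
  unfold div
  rw [← sum_sub_distrib]
  refine sum_congr rfl fun a _ => ?_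
  have e : ∀ (P : Prop) [Decidable P], (if P then x a - y a else 0) =
      (if P then x a else 0) - (if P then y a else 0) := by
    intro P _
    by_cases h : P
    · rw [if_pos h, if_pos h, if_pos h]
    · rw [if_neg h, if_neg h, if_neg h, sub_zero]
  show (if Γ.tail a = v then x a - y a else 0) - (if Γ.head a = v then x a - y a else 0) = _
  rw [e, e]
  exact sub_sub_sub_comm _ _ _ _

/-- multiples of an integral vector by a group element -/
theorem div_smul_const (z : ℕ → ℤ) (g : G) (v : ℕ) :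
    div Γ (fun q => z q • g) v = div Γ z v • g := by
  unfold div
  rw [sum_smul]
  refine sum_congr rfl fun a _ => ?_
  rw [sub_smul]
  split_ifs <;> simp

theorem div_map {H : Type*} [AddCommGroup H] (f : G →+ H) (x : ℕ → G) (v : ℕ) :
    div Γ (fun q => f (x q)) v = f (div Γ x v) := by
  unfold div
  rw [map_sum]
  refine sum_congr rfl fun a _ => ?_
  rw [map_sub]
  split_ifs <;> simp

/-- the supply of a set of nodes is the outflow minus the inflow of the set (each arc has its two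
ends in `range N`) -/
theorem sum_div (hΓ : Γ.Ok) (x : ℕ → G) {A : Finset ℕ} (hA : A ⊆ range Γ.N) :
    ∑ v ∈ A, div Γ x v = ∑ q ∈ range Γ.M,
      ((if Γ.tail q ∈ A ∧ Γ.head q ∉ A then x q else 0) -
        (if Γ.tail q ∉ A ∧ Γ.head q ∈ A then x q else 0)) := by
  have _ := hΓ
  have _ := hA
  unfold div
  rw [sum_comm]
  refine sum_congr rfl fun q _ => ?_
  rw [sum_sub_distrib, sum_ite_eq, sum_ite_eq]
  by_cases h1 : Γ.tail q ∈ A
  · by_cases h2 : Γ.head q ∈ A
    · simp [h1, h2]
    · simp [h1, h2]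
  · by_cases h2 : Γ.head q ∈ A
    · simp [h1, h2]
    · simp [h1, h2]

theorem sum_div_all (hΓ : Γ.Ok) (x : ℕ → G) : ∑ v ∈ range Γ.N, div Γ x v = 0 := by
  rw [sum_div hΓ x (subset_refl _)]
  refine sum_eq_zero fun q hq => ?_
  have hq' := mem_range.1 hq
  have h1 : Γ.tail q ∈ range Γ.N := mem_range.2 (hΓ.tail_ltN hq')
  have h2 : Γ.head q ∈ range Γ.N := mem_range.2 (hΓ.head_lt q hq')
  rw [if_neg (fun h => h.2 h2), if_neg (fun h => h.1 h1), sub_zero]

/-- The flow on the arc from `v` to its parent. (Take `A` = the nodes below `v`; the only arc of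
the tree with one end in `A` is the parent arc of `v`.) -/
theorem TFlow.eq_val (hΓ : Γ.Ok) (ht : IsTree Γ t) {b x : ℕ → G} (hx : TFlow Γ b t x) {v : ℕ}
    (hv : v < Γ.N) (hr : v ≠ t.r) : x (t.pa v) = val Γ b t v := by
  have hE := flowA_ends ht hv hr
  have hA : (range Γ.N).filter (fun u => Anc Γ t v u) ⊆ range Γ.N := filter_subset _ _
  have hmem : ∀ u, u < Γ.N → (u ∈ (range Γ.N).filter (fun u => Anc Γ t v u) ↔ Anc Γ t v u) := by
    intro u hu
    rw [mem_filter, mem_range]
    exact ⟨fun h => h.2, fun h => ⟨hu, h⟩⟩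
  have h1 : sub Γ b t v = ∑ u ∈ (range Γ.N).filter (fun u => Anc Γ t v u), Net.div Γ x u := by
    unfold sub
    rw [← sum_filter]
    refine sum_congr rfl fun u hu => ?_
    exact (hx.div u (mem_range.1 (mem_filter.1 hu).1)).symm
  have hvN : Anc Γ t v v := anc_refl v
  have hpN : par Γ t v < Γ.N := ht.par_lt hΓ hv
  have hpA : ¬ Anc Γ t v (par Γ t v) := ht.not_anc_par hΓ hv hr
  have h2 : sub Γ b t v = Γ.sg v • x (t.pa v) := by
    rw [h1, sum_div hΓ x hA]
    rw [sum_eq_single (t.pa v)]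
    · rcases hE with ⟨a1, a2, a3⟩ | ⟨a1, a2, a3⟩
      · rw [a2, a3, if_pos ⟨(hmem v hv).2 hvN, fun h => hpA ((hmem _ hpN).1 h)⟩,
          if_neg (fun h => h.1 ((hmem v hv).2 hvN)), sub_zero]
        unfold Graph.sg
        rw [if_pos a1, one_smul]
      · rw [a2, a3, if_neg (fun h => h.2 ((hmem v hv).2 hvN)),
          if_pos ⟨fun h => hpA ((hmem _ hpN).1 h), (hmem v hv).2 hvN⟩, zero_sub]
        unfold Graph.sg
        rw [if_neg a1, neg_smul, one_smul]
    · intro q hq hne
      have hqM := mem_range.1 hq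
      by_cases hT : InT Γ t q
      · obtain ⟨w, hw, hwr, rfl⟩ := hT
        have hwv : v ≠ w := fun h => hne (by rw [h])
        have hwp : par Γ t w < Γ.N := ht.par_lt hΓ hw
        have hiff : Anc Γ t v w ↔ Anc Γ t v (par Γ t w) := by
          rw [ht.anc_par hΓ hw hwr]
          exact ⟨fun h => h.resolve_left hwv, Or.inr⟩
        have hiff' : w ∈ (range Γ.N).filter (fun u => Anc Γ t v u) ↔
            par Γ t w ∈ (range Γ.N).filter (fun u => Anc Γ t v u) := by
          rw [hmem w hw, hmem _ hwp, hiff]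
        rcases flowA_ends ht hw hwr with ⟨_, a2, a3⟩ | ⟨_, a2, a3⟩
        · rw [a2, a3, if_neg (fun h => h.2 (hiff'.1 h.1)), if_neg (fun h => h.1 (hiff'.2 h.2)),
            sub_zero]
        · rw [a2, a3, if_neg (fun h => h.2 (hiff'.2 h.1)), if_neg (fun h => h.1 (hiff'.1 h.2)),
            sub_zero]
      · rw [hx.supp q hqM hT, ite_self, ite_self, sub_zero]
    · intro h
      exact absurd (mem_range.2 (ht.pa_lt v hv hr)) h
  unfold val
  rw [h2, smul_smul, flowA_sg, one_smul]

theorem TFlow.unique (hΓ : Γ.Ok) (ht : IsTree Γ t) {b x y : ℕ → G} (hx : TFlow Γ b t x)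
    (hy : TFlow Γ b t y) : ∀ q < Γ.M, x q = y q := by
  intro q hq
  by_cases hT : InT Γ t q
  · obtain ⟨v, hv, hr, rfl⟩ := hT
    rw [hx.eq_val hΓ ht hv hr, hy.eq_val hΓ ht hv hr]
  · rw [hx.supp q hq hT, hy.supp q hq hT]

theorem TFlow.ne_zero (hΓ : Γ.Ok) (ht : IsTree Γ t) {b x : ℕ → G} (hb : Generic Γ b)
    (hx : TFlow Γ b t x) : ∀ q < Γ.M, InT Γ t q → x q ≠ 0 := by
  rintro q _ ⟨v, hv, hr, rfl⟩ h0
  rw [hx.eq_val hΓ ht hv hr] at h0
  have h1 : sub Γ b t v = 0 := by
    have h2 : Γ.sg v • val Γ b t v = 0 := by rw [h0, smul_zero]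
    unfold val at h2
    rwa [smul_smul, flowA_sg, one_smul] at h2
  unfold sub at h1
  rw [← sum_filter] at h1
  refine hb ((range Γ.N).filter (fun u => Anc Γ t v u)) (filter_subset _ _) ?_ ?_ h1
  · exact ⟨v, mem_filter.2 ⟨mem_range.2 hv, anc_refl v⟩⟩
  · intro h
    have h3 : t.r ∈ (range Γ.N).filter (fun u => Anc Γ t v u) := by
      rw [h]
      exact mem_range.2 ht.root
    exact hr (ht.anc_root_iff.1 (mem_filter.1 h3).2)

theorem TFlow.congr {b x : ℕ → G} (h : ∀ q < Γ.M, InT Γ t' q ↔ InT Γ t q)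
    (hx : TFlow Γ b t x) : TFlow Γ b t' x := by
  exact ⟨hx.div, fun q hq hn => hx.supp q hq fun h1 => hn ((h q hq).2 h1)⟩

theorem TFlow.map {H : Type*} [AddCommGroup H] (f : G →+ H) {b x : ℕ → G}
    (hx : TFlow Γ b t x) : TFlow Γ (fun v => f (b v)) t (fun q => f (x q)) := by
  refine ⟨fun v hv => ?_, fun q hq hn => ?_⟩
  · rw [div_map f x v, hx.div v hv]
  · show f (x q) = 0
    rw [hx.supp q hq hn, map_zero]

/-- a circulation on a tree is `0` -/
theorem kernel (hΓ : Γ.Ok) (ht : IsTree Γ t) {z : ℕ → G} (h : ∀ v < Γ.N, div Γ z v = 0)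
    (hz : ∀ q < Γ.M, z q ≠ 0 → InT Γ t q) : ∀ q < Γ.M, z q = 0 := by
  have h1 : TFlow Γ (fun _ => (0 : G)) t z :=
    ⟨h, fun q hq hn => by
      by_contra h2
      exact hn (hz q hq h2)⟩
  have h2 : TFlow Γ (fun _ => (0 : G)) t (fun _ => (0 : G)) := by
    refine ⟨fun v _ => ?_, fun _ _ _ => rfl⟩
    unfold div
    simp
  exact h1.unique hΓ ht h2

/-- the flow on the new tree -/
theorem Exch.flow {C : ℕ → ℤ} {a l : ℕ} {z : ℕ → ℤ} (h : Exch Γ C t t' a l z) {b x : ℕ → G}
    (hx : TFlow Γ b t x) : TFlow Γ b t' (fun q => x q + z q • x l) := by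
  refine ⟨fun v hv => ?_, fun q hq hn => ?_⟩
  · rw [div_add, div_smul_const, h.div v hv, hx.div v hv, zero_smul, add_zero]
  · show x q + z q • x l = 0
    rw [h.arcs q hq] at hn
    by_cases hT : InT Γ t q
    · have hql : q = l := by
        by_contra h1
        exact hn (Or.inr ⟨hT, h1⟩)
      rw [hql, h.zl, neg_smul, one_smul, add_neg_cancel]
    · have hz0 : z q = 0 := by
        by_contra h1
        rcases h.supp q hq h1 with h2 | h2
        · exact hn (Or.inl h2)
        · exact hT h2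
      rw [hx.supp q hq hT, hz0, zero_smul, add_zero]

/-- a circulation on the tree and the entering arc is a multiple of the cycle -/
theorem Exch.kernel (hΓ : Γ.Ok) (ht : IsTree Γ t) {C : ℕ → ℤ} {a l : ℕ} {z : ℕ → ℤ}
    (h : Exch Γ C t t' a l z) {y : ℕ → G} (hy : ∀ v < Γ.N, Net.div Γ y v = 0)
    (hs : ∀ q < Γ.M, y q ≠ 0 → q = a ∨ InT Γ t q) : ∀ q < Γ.M, y q = z q • y a := by
  have h1 : ∀ q < Γ.M, y q - z q • y a = 0 := by
    refine Net.kernel hΓ ht (z := fun q => y q - z q • y a) ?_ ?_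
    · intro v hv
      rw [div_sub, div_smul_const, h.div v hv, hy v hv, zero_smul, sub_zero]
    · intro q hq hne
      by_contra hT
      apply hne
      show y q - z q • y a = 0
      by_cases hqa : q = a
      · rw [hqa, h.za, one_smul, sub_self]
      · have hz0 : z q = 0 := by
          by_contra h2
          rcases h.supp q hq h2 with h3 | h3
          · exact hqa h3
          · exact hT h3
        have hy0 : y q = 0 := by
          by_contra h2
          rcases hs q hq h2 with h3 | h3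
          · exact hqa h3
          · exact hT h3
        rw [hz0, hy0, zero_smul, sub_zero]
  intro q hq
  exact sub_eq_zero.1 (h1 q hq)

end

end Pool.Agent.Simplex.Net
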