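import Pool.Agent.Lib.MP_4d246d_lc.Net.FlowA

/-!
# The cycle of an entering arc
-/

open Finset

namespace Pool.Agent.Simplex.Net

variable {Γ : Graph} {t : Tr}

/-! ### The cycle of an arc at the root -/

/-- the cycle: the arc `a` from the root to `head a`, and the way up from `head a` to the root -/
def cyc (Γ : Graph) (t : Tr) (a q : ℕ) : ℤ :=
  (if q = a then 1 else 0) +
    ∑ v ∈ range Γ.N, if v ≠ t.r ∧ Anc Γ t v (Γ.head a) ∧ t.pa v = q then Γ.sg v else 0

/-- the summand of the cycle at a node -/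
theorem flowB_pair (hΓ : Γ.Ok) (ht : IsTree Γ t) {a : ℕ} (ha : a < Γ.M) (f : ℕ → ℤ) :
    ∑ q ∈ range Γ.M, f q * cyc Γ t a q = f a +
      ∑ w ∈ range Γ.N, if w ≠ t.r ∧ Anc Γ t w (Γ.head a) then f (t.pa w) * Γ.sg w else 0 := by
  have h1 : ∀ q ∈ range Γ.M, f q * cyc Γ t a q = (if q = a then f q else 0) +
      ∑ w ∈ range Γ.N,
        f q * (if w ≠ t.r ∧ Anc Γ t w (Γ.head a) ∧ t.pa w = q then Γ.sg w else 0) := by
    intro q _
    unfold cyc
    rw [mul_add, Finset.mul_sum]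
    congr 1
    split_ifs <;> simp
  rw [Finset.sum_congr rfl h1, Finset.sum_add_distrib, Finset.sum_ite_eq' (range Γ.M) a f,
    if_pos (Finset.mem_range.2 ha), Finset.sum_comm]
  congr 1
  refine Finset.sum_congr rfl fun w hw => ?_
  by_cases h : w ≠ t.r ∧ Anc Γ t w (Γ.head a)
  · rw [if_pos h]
    have hq : t.pa w ∈ range Γ.M :=
      Finset.mem_range.2 (ht.pa_lt w (Finset.mem_range.1 hw) h.1)
    rw [Finset.sum_eq_single_of_mem _ hq]
    · rw [if_pos ⟨h.1, h.2, rfl⟩]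
    · intro q _ hne
      rw [if_neg (fun hh => hne hh.2.2.symm), mul_zero]
  · rw [if_neg h]
    refine Finset.sum_eq_zero fun q _ => ?_
    rw [if_neg (fun hh => h ⟨hh.1, hh.2.1⟩), mul_zero]

/-- the way up from `u` to the root telescopes -/
theorem flowB_tele (hΓ : Γ.Ok) (ht : IsTree Γ t) (v : ℕ) : ∀ n u : ℕ, height Γ t u = n → u < Γ.N →
    (∑ w ∈ range Γ.N, if w ≠ t.r ∧ Anc Γ t w u then
      ((if w = v then (1 : ℤ) else 0) - (if par Γ t w = v then 1 else 0)) else 0) =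
      (if u = v then 1 else 0) - (if t.r = v then 1 else 0) := by
  intro n
  induction n with
  | zero =>
    intro u hn hu
    have hur : u = t.r := by
      have := ht.up_height hu
      rw [hn, up_zero] at this
      exact this
    subst hur
    rw [Finset.sum_eq_zero, sub_self]
    intro w _
    rw [if_neg]
    rintro ⟨h1, h2⟩
    exact h1 (ht.anc_root_iff.1 h2)
  | succ n ih =>
    intro u hn hu
    have hur : u ≠ t.r := by
      intro h
      rw [h, height_root] at hn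
      omega
    have hp : height Γ t (par Γ t u) = n := by
      have := ht.height_par hΓ hu hur
      omega
    have ih' := ih (par Γ t u) hp (ht.par_lt hΓ hu)
    have hnot := ht.not_anc_par hΓ hu hur
    have h1 : ∀ w ∈ range Γ.N, (if w ≠ t.r ∧ Anc Γ t w u then
        ((if w = v then (1 : ℤ) else 0) - (if par Γ t w = v then 1 else 0)) else 0) =
        (if w = u then ((if w = v then (1 : ℤ) else 0) - (if par Γ t w = v then 1 else 0)) else 0)
        + (if w ≠ t.r ∧ Anc Γ t w (par Γ t u) then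
          ((if w = v then (1 : ℤ) else 0) - (if par Γ t w = v then 1 else 0)) else 0) := by
      intro w _
      by_cases hwu : w = u
      · subst hwu
        have hx : ¬ (w ≠ t.r ∧ Anc Γ t w (par Γ t w)) := fun hh => hnot hh.2
        have hy : w ≠ t.r ∧ Anc Γ t w w := ⟨hur, (ht.anc_par hΓ hu hur).2 (Or.inl rfl)⟩
        rw [if_neg hx, if_pos hy, add_zero]
        simp
      · rw [if_neg hwu, zero_add]
        congr 1
        rw [ht.anc_par hΓ hu hur]
        simp [hwu]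
    rw [Finset.sum_congr rfl h1, Finset.sum_add_distrib, ih',
      Finset.sum_ite_eq' (range Γ.N) u, if_pos (Finset.mem_range.2 hu)]
    ring

theorem flowB_sg (hΓ : Γ.Ok) (ht : IsTree Γ t) {w : ℕ} (hw : w < Γ.N) (hr : w ≠ t.r) (v : ℕ) :
    ((if Γ.tail (t.pa w) = v then (1 : ℤ) else 0) - (if Γ.head (t.pa w) = v then 1 else 0)) *
      Γ.sg w = (if w = v then 1 else 0) - (if par Γ t w = v then 1 else 0) := by
  have ho := ht.own w hw hr
  rw [par_of_ne hr]
  unfold Graph.own at ho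
  unfold Graph.opp Graph.sg
  by_cases h : w < Γ.L
  · rw [if_pos h] at ho
    rw [if_pos h, if_pos h, ho, mul_one]
  · rw [if_neg h] at ho
    rw [if_neg h, if_neg h, ho]
    ring

theorem cyc_pa (hΓ : Γ.Ok) (ht : IsTree Γ t) {a v : ℕ} (hv : v < Γ.N) (hr : v ≠ t.r)
    (ha : ¬ InT Γ t a) : cyc Γ t a (t.pa v) = if Anc Γ t v (Γ.head a) then Γ.sg v else 0 := by
  unfold cyc
  have h1 : t.pa v ≠ a := fun h => ha ⟨v, hv, hr, h⟩
  rw [if_neg h1, zero_add, Finset.sum_eq_single_of_mem v (Finset.mem_range.2 hv)]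
  · by_cases h : Anc Γ t v (Γ.head a)
    · rw [if_pos ⟨hr, h, rfl⟩, if_pos h]
    · rw [if_neg (fun hh => h hh.2.1), if_neg h]
  · intro w hw hne
    rw [if_neg]
    rintro ⟨h2, _, h3⟩
    exact hne (ht.pa_inj hΓ (Finset.mem_range.1 hw) hv h2 hr h3)

theorem cyc_self {a : ℕ} (ha : ¬ InT Γ t a) : cyc Γ t a a = 1 := by
  unfold cyc
  rw [if_pos rfl, Finset.sum_eq_zero, add_zero]
  intro w hw
  rw [if_neg]
  rintro ⟨h2, _, h3⟩
  exact ha ⟨w, Finset.mem_range.1 hw, h2, h3⟩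

theorem cyc_other {a q : ℕ} (h1 : q ≠ a) (h2 : ¬ InT Γ t q) : cyc Γ t a q = 0 := by
  unfold cyc
  rw [if_neg h1, Finset.sum_eq_zero, add_zero]
  intro w hw
  rw [if_neg]
  rintro ⟨h3, _, h4⟩
  exact h2 ⟨w, Finset.mem_range.1 hw, h3, h4⟩

/-- Induction on the height of `w` for: the way up from `w` has outflow `1` at `w` and inflow `1`
at the root. -/
theorem div_cyc (hΓ : Γ.Ok) (ht : IsTree Γ t) {a : ℕ} (ha : a < Γ.M) (hr : Γ.tail a = t.r)
    (v : ℕ) (hv : v < Γ.N) : div Γ (cyc Γ t a) v = 0 := by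
  have h1 : div Γ (cyc Γ t a) v = ∑ q ∈ range Γ.M,
      ((if Γ.tail q = v then (1 : ℤ) else 0) - (if Γ.head q = v then 1 else 0)) *
        cyc Γ t a q := by
    unfold div
    refine Finset.sum_congr rfl fun q _ => ?_
    split_ifs <;> ring
  rw [h1, flowB_pair hΓ ht ha]
  have h2 : ∀ w ∈ range Γ.N, (if w ≠ t.r ∧ Anc Γ t w (Γ.head a) then
      ((if Γ.tail (t.pa w) = v then (1 : ℤ) else 0) - (if Γ.head (t.pa w) = v then 1 else 0)) *
        Γ.sg w else 0) = (if w ≠ t.r ∧ Anc Γ t w (Γ.head a) then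
      ((if w = v then (1 : ℤ) else 0) - (if par Γ t w = v then 1 else 0)) else 0) := by
    intro w hw
    by_cases h : w ≠ t.r ∧ Anc Γ t w (Γ.head a)
    · rw [if_pos h, if_pos h, flowB_sg hΓ ht (Finset.mem_range.1 hw) h.1 v]
    · rw [if_neg h, if_neg h]
  rw [Finset.sum_congr rfl h2, flowB_tele hΓ ht v _ _ rfl (hΓ.head_lt a ha), hr]
  ring

/-- for a circulation costs may be replaced by reduced costs -/
theorem sum_red (hΓ : Γ.Ok) {z : ℕ → ℤ} (hz : ∀ v < Γ.N, div Γ z v = 0) (C π : ℕ → ℤ) :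
    ∑ q ∈ range Γ.M, red Γ C π q * z q = ∑ q ∈ range Γ.M, C q * z q := by
  have h0 : ∑ v ∈ range Γ.N, π v * div Γ z v = 0 :=
    Finset.sum_eq_zero fun v hv => by rw [hz v (Finset.mem_range.1 hv), mul_zero]
  have h1 : ∑ v ∈ range Γ.N, π v * div Γ z v =
      ∑ q ∈ range Γ.M, (π (Γ.tail q) * z q - π (Γ.head q) * z q) := by
    unfold div
    simp only [Finset.mul_sum]
    rw [Finset.sum_comm]
    refine Finset.sum_congr rfl fun q hq => ?_
    have hq' := Finset.mem_range.1 hq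
    have ht1 : Γ.tail q ∈ range Γ.N := Finset.mem_range.2 (hΓ.tail_ltN hq')
    have ht2 : Γ.head q ∈ range Γ.N := Finset.mem_range.2 (hΓ.head_lt q hq')
    simp only [mul_sub, Finset.sum_sub_distrib, mul_ite, mul_zero]
    rw [Finset.sum_ite_eq (range Γ.N) (Γ.tail q) (fun v => π v * z q), if_pos ht1,
      Finset.sum_ite_eq (range Γ.N) (Γ.head q) (fun v => π v * z q), if_pos ht2]
  rw [h1] at h0
  have h2 : ∑ q ∈ range Γ.M, red Γ C π q * z q = ∑ q ∈ range Γ.M, C q * z q -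
      ∑ q ∈ range Γ.M, (π (Γ.tail q) * z q - π (Γ.head q) * z q) := by
    rw [← Finset.sum_sub_distrib]
    refine Finset.sum_congr rfl fun q _ => ?_
    unfold red
    ring
  rw [h2, h0, sub_zero]

/-- the cycle costs at most the reduced cost of the entering arc -/
theorem cost_cyc (hΓ : Γ.Ok) (ht : IsTree Γ t) {a : ℕ} (ha : a < Γ.M) (hr : Γ.tail a = t.r)
    (hn : ¬ InT Γ t a) {C π : ℕ → ℤ} (hu : ∀ v < Γ.N, v ≠ t.r → upc Γ C π t v ≤ 0) :
    ∑ q ∈ range Γ.M, C q * cyc Γ t a q ≤ red Γ C π a := by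
  have _ := hn
  rw [← sum_red hΓ (div_cyc hΓ ht ha hr) C π, flowB_pair hΓ ht ha]
  have h1 : ∑ w ∈ range Γ.N, (if w ≠ t.r ∧ Anc Γ t w (Γ.head a) then
      red Γ C π (t.pa w) * Γ.sg w else 0) ≤ 0 := by
    refine Finset.sum_nonpos fun w hw => ?_
    by_cases h : w ≠ t.r ∧ Anc Γ t w (Γ.head a)
    · rw [if_pos h, mul_comm]
      exact hu w (Finset.mem_range.1 hw) h.1
    · rw [if_neg h]
  linarith

/-- the exchange at the root: `a` enters, the parent arc of the right node `p` leaves -/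
theorem exch_cyc (hΓ : Γ.Ok) (ht : IsTree Γ t) {a p : ℕ} (ha : a < Γ.M) (hr : Γ.tail a = t.r)
    (hn : ¬ InT Γ t a) {C π : ℕ → ℤ} (hu : ∀ v < Γ.N, v ≠ t.r → upc Γ C π t v ≤ 0)
    (hc : red Γ C π a < 0) (hp : Anc Γ t p (Γ.head a)) (hpL : Γ.L ≤ p) (hpr : p ≠ t.r) :
    Exch Γ C t (exch t a p) a (t.pa p) (cyc Γ t a) := by
  have hpN : p < Γ.N := ht.anc_lt hΓ (hΓ.head_lt a ha) hp
  refine ⟨ha, ht.pa_lt p hpN hpr, hn, ⟨p, hpN, hpr, rfl⟩, div_cyc hΓ ht ha hr, cyc_self hn, ?_,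
    ?_, fun q _ => ht.inT_exch hΓ hpN hpr q,
    lt_of_le_of_lt (cost_cyc hΓ ht ha hr hn hu) hc⟩
  · rw [cyc_pa hΓ ht hpN hpr hn, if_pos hp]
    unfold Graph.sg
    rw [if_neg (Nat.not_lt.2 hpL)]
  · intro q _ hq
    by_contra hcon
    rw [not_or] at hcon
    exact hq (cyc_other hcon.1 hcon.2)

end Pool.Agent.Simplex.Net
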