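import Pool.Agent.Lib.MP_4d246d_lc.Net.FlowA

/-!
# The last tree is optimal
-/

open Finset

namespace Pool.Agent.Simplex.Net

variable {Γ : Graph}

private theorem opt_upc (hΓ : Γ.Ok) {t : Tr} (ht : IsTree Γ t) {C π : ℕ → ℤ} {v : ℕ}
    (hv : v < Γ.N) (h : v ≠ t.r) :
    upc Γ C π t v = Γ.sg v * C (t.pa v) - π v + π (par Γ t v) := by
  have h1 := ht.own v hv h
  rw [par_of_ne h]
  unfold upc red Graph.sg Graph.opp
  unfold Graph.own at h1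
  split_ifs at h1 ⊢ with h2
  · rw [h1]
    ring
  · rw [h1]
    ring

private theorem opt_tele (hΓ : Γ.Ok) {t : Tr} (ht : IsTree Γ t) {F : ℕ → ℤ} (hF : F t.r = 0)
    {v : ℕ} (hv : v < Γ.N) :
    ∑ k ∈ range Γ.N, F (up Γ t k v) = F v + ∑ k ∈ range Γ.N, F (up Γ t k (par Γ t v)) := by
  have h1 : ∑ k ∈ range (Γ.N + 1), F (up Γ t k v) = ∑ k ∈ range Γ.N, F (up Γ t k v) := by
    rw [sum_range_succ, ht.reach v hv, hF, add_zero]
  rw [← h1, sum_range_succ', up_zero, add_comm]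
  congr 1

/-- Exact potentials: `ϖ r = 0` and `ϖ v = ϖ (par v) + cost of the step from v to its parent`;
they are multiples of `2 N + 3`. As `ϖ v = π v - π r + ∑ upc` over the way from `v` to the root
(at most `N` nodes, each `upc` between `-2` and `0`), `red ϖ a ≥ -2 - 2 N` for all arcs, and
`red ϖ a` is a multiple of `2 N + 3`. -/
theorem exact_potentials (hΓ : Γ.Ok) {t : Tr} (ht : IsTree Γ t) {C π : ℕ → ℤ}
    (hC : ∀ a < Γ.M, (2 * (Γ.N : ℤ) + 3) ∣ C a)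
    (h1 : ∀ v < Γ.N, v ≠ t.r → upc Γ C π t v ≤ 0)
    (h2 : ∀ v < Γ.N, v ≠ t.r → -2 ≤ upc Γ C π t v) (h3 : ∀ a < Γ.M, -2 ≤ red Γ C π a) :
    ∃ ϖ : ℕ → ℤ, (∀ a < Γ.M, 0 ≤ red Γ C ϖ a) ∧ ∀ a < Γ.M, InT Γ t a → red Γ C ϖ a = 0 := by
  obtain ⟨F, hF⟩ : ∃ F : ℕ → ℤ, F = fun u => if u = t.r then 0 else Γ.sg u * C (t.pa u) :=
    ⟨_, rfl⟩
  obtain ⟨H, hH⟩ : ∃ H : ℕ → ℤ, H = fun u => if u = t.r then 0 else upc Γ C π t u := ⟨_, rfl⟩
  have hFr : F t.r = 0 := by rw [hF]; simp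
  have hFv : ∀ v, v ≠ t.r → F v = Γ.sg v * C (t.pa v) := fun v hv => by
    rw [hF]
    exact if_neg hv
  have hH0 : ∀ v < Γ.N, H v ≤ 0 ∧ -2 ≤ H v := by
    intro v hv
    rw [hH]
    by_cases h : v = t.r
    · simp [h]
    · simp only [if_neg h]
      exact ⟨h1 v hv h, h2 v hv h⟩
  have hFH : ∀ v < Γ.N, F v = H v + (π v - π (par Γ t v)) := by
    intro v hv
    by_cases h : v = t.r
    · rw [h, hFr, hH, par_root]
      simp
    · rw [hFv v h, hH]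
      simp only [if_neg h]
      rw [opt_upc hΓ ht hv h]
      ring
  obtain ⟨ϖ, hϖ⟩ : ∃ ϖ : ℕ → ℤ, ϖ = fun v => ∑ k ∈ range Γ.N, F (up Γ t k v) := ⟨_, rfl⟩
  have hup : ∀ v < Γ.N, ∀ k, up Γ t k v < Γ.N := fun v hv k => ht.up_lt hΓ hv k
  have hbd : ∀ v < Γ.N, ϖ v - π v + π t.r ≤ 0 ∧ -(2 * (Γ.N : ℤ)) ≤ ϖ v - π v + π t.r := by
    intro v hv
    have h4 : ϖ v = ∑ k ∈ range Γ.N, H (up Γ t k v) + (π v - π t.r) := by
      rw [hϖ]
      simp only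
      have h5 : ∀ k ∈ range Γ.N, F (up Γ t k v) =
          H (up Γ t k v) + (π (up Γ t k v) - π (up Γ t (k + 1) v)) := by
        intro k _
        rw [hFH _ (hup v hv k), up_succ']
      rw [sum_congr rfl h5, sum_add_distrib, sum_range_sub' (fun k => π (up Γ t k v)), up_zero,
        ht.reach v hv]
    have h6 : ∑ k ∈ range Γ.N, H (up Γ t k v) ≤ 0 :=
      sum_nonpos fun k _ => (hH0 _ (hup v hv k)).1
    have h7 : ∑ k ∈ range Γ.N, (-2 : ℤ) ≤ ∑ k ∈ range Γ.N, H (up Γ t k v) :=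
      sum_le_sum fun k _ => (hH0 _ (hup v hv k)).2
    rw [sum_const, card_range, nsmul_eq_mul] at h7
    constructor <;> linarith
  have hdv : ∀ v < Γ.N, (2 * (Γ.N : ℤ) + 3) ∣ ϖ v := by
    intro v hv
    rw [hϖ]
    refine dvd_sum fun k _ => ?_
    by_cases h : up Γ t k v = t.r
    · rw [h, hFr]
      exact dvd_zero _
    · rw [hFv _ h]
      exact Dvd.dvd.mul_left (hC _ (ht.pa_lt _ (hup v hv k) h)) _
  refine ⟨ϖ, ?_, ?_⟩
  · intro a ha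
    have hta : Γ.tail a < Γ.N := hΓ.tail_ltN ha
    have hha : Γ.head a < Γ.N := hΓ.head_lt a ha
    have h4 : (2 * (Γ.N : ℤ) + 3) ∣ red Γ C ϖ a := by
      unfold red
      exact dvd_add (dvd_sub (hC a ha) (hdv _ hta)) (hdv _ hha)
    have h5 : -(2 * (Γ.N : ℤ) + 3) < red Γ C ϖ a := by
      have h6 := h3 a ha
      have h7 := hbd _ hta
      have h8 := hbd _ hha
      unfold red at h6 ⊢
      linarith [h7.1, h8.2]
    obtain ⟨k, hk⟩ := h4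
    rw [hk] at h5 ⊢
    have hN : (0 : ℤ) ≤ Γ.N := Nat.cast_nonneg _
    have hk0 : 0 ≤ k := by
      by_contra hc
      have : k ≤ -1 := by omega
      nlinarith
    positivity
  · rintro a ha ⟨v, hv, hvr, rfl⟩
    have h4 : ϖ v = F v + ϖ (par Γ t v) := by
      rw [hϖ]
      exact opt_tele hΓ ht hFr hv
    have h5 := opt_upc (C := C) (π := ϖ) hΓ ht hv hvr
    rw [← hFv v hvr] at h5
    have h6 : upc Γ C ϖ t v = 0 := by linarith
    unfold upc Graph.sg at h6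
    split_ifs at h6 <;> linarith

theorem exact_of_inv (hΓ : Γ.Ok) {G : Type*} [AddCommGroup G] [LinearOrder G]
    [IsOrderedAddMonoid G] {b : ℕ → G} {C : ℕ → ℤ} {s : St}
    (hC : ∀ a < Γ.M, (2 * (Γ.N : ℤ) + 3) ∣ C a) (hs : Inv Γ b C s) (hW : Sleep Γ s)
    (hh : s.h = 0) :
    ∃ ϖ : ℕ → ℤ, (∀ a < Γ.M, 0 ≤ red Γ C ϖ a) ∧ ∀ a < Γ.M, InT Γ s.t a → red Γ C ϖ a = 0 := by
  have ha := hs.asleep
  rw [hh] at ha
  refine exact_potentials hΓ hs.tree hC hs.feas.up_le ?_ ?_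
  · intro v hv hvr
    have := ha.le_up v hv (hW v hv) hvr
    linarith
  · intro a haM
    have := ha.le_red a haM (hW _ (hΓ.tail_ltN haM))
    linarith

private theorem opt_div (hΓ : Γ.Ok) (w x : ℕ → ℝ) :
    ∑ v ∈ range Γ.N, w v * div Γ x v =
      ∑ a ∈ range Γ.M, (w (Γ.tail a) - w (Γ.head a)) * x a := by
  have h1 : ∀ v, w v * div Γ x v = ∑ a ∈ range Γ.M,
      ((if Γ.tail a = v then w v * x a else 0) - (if Γ.head a = v then w v * x a else 0)) := by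
    intro v
    unfold div
    rw [mul_sum]
    refine sum_congr rfl fun a _ => ?_
    rw [mul_sub, mul_ite, mul_ite, mul_zero]
  rw [sum_congr rfl fun v _ => h1 v, sum_comm]
  refine sum_congr rfl fun a ha => ?_
  rw [mem_range] at ha
  rw [sum_sub_distrib, sum_ite_eq, sum_ite_eq, if_pos (mem_range.2 (hΓ.tail_ltN ha)),
    if_pos (mem_range.2 (hΓ.head_lt a ha))]
  ring

private theorem opt_cost (hΓ : Γ.Ok) {C ϖ : ℕ → ℤ} {b x : ℕ → ℝ}
    (hx : ∀ v < Γ.N, div Γ x v = b v) :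
    ∑ a ∈ range Γ.M, (C a : ℝ) * x a =
      ∑ a ∈ range Γ.M, (red Γ C ϖ a : ℝ) * x a + ∑ v ∈ range Γ.N, (ϖ v : ℝ) * b v := by
  have h1 : ∑ v ∈ range Γ.N, (ϖ v : ℝ) * b v = ∑ v ∈ range Γ.N, (ϖ v : ℝ) * div Γ x v :=
    sum_congr rfl fun v hv => by rw [hx v (mem_range.1 hv)]
  rw [h1, opt_div hΓ (fun v => (ϖ v : ℝ)) x, ← sum_add_distrib]
  refine sum_congr rfl fun a _ => ?_
  unfold red
  push_cast
  ring

/-- a tree flow with exact potentials has minimal cost (real numbers) -/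
theorem cost_le_of_exact (hΓ : Γ.Ok) {t : Tr} {C ϖ : ℕ → ℤ}
    (h1 : ∀ a < Γ.M, 0 ≤ red Γ C ϖ a) (h2 : ∀ a < Γ.M, InT Γ t a → red Γ C ϖ a = 0)
    {b x y : ℕ → ℝ} (hx : TFlow Γ b t x) (hy : ∀ v < Γ.N, div Γ y v = b v)
    (hy0 : ∀ a < Γ.M, 0 ≤ y a) :
    ∑ a ∈ range Γ.M, (C a : ℝ) * x a ≤ ∑ a ∈ range Γ.M, (C a : ℝ) * y a := by
  rw [opt_cost (ϖ := ϖ) hΓ hx.div, opt_cost (ϖ := ϖ) hΓ hy]
  have h3 : ∑ a ∈ range Γ.M, (red Γ C ϖ a : ℝ) * x a = 0 := by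
    refine sum_eq_zero fun a ha => ?_
    rw [mem_range] at ha
    by_cases h : InT Γ t a
    · rw [h2 a ha h]
      simp
    · rw [hx.supp a ha h, mul_zero]
  have h4 : 0 ≤ ∑ a ∈ range Γ.M, (red Γ C ϖ a : ℝ) * y a := by
    refine sum_nonneg fun a ha => ?_
    rw [mem_range] at ha
    exact mul_nonneg (by exact_mod_cast h1 a ha) (hy0 a ha)
  linarith

end Pool.Agent.Simplex.Net
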