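import Pool.Agent.Lib.MP_4d246d_lc.Net.LPa
import Pool.Agent.Lib.MP_4d246d_lc.Net.Opt

/-!
# Vertices, edges and optima of transportation programs
-/

open Finset

namespace Pool.Agent.Simplex.Net

open Pool.Agent.Simplex.EB

variable {r c : ℕ} {s : Fin (lines2 r c) → ℚ} {cost : Fin (2 * (r * c)) → ℚ}

/-- the table of a flow -/
def tab (r c : ℕ) (x : ℕ → ℚ) : Fin (2 * (r * c)) → ℚ := fun q => x q

private theorem lpb_div_congr {G : Type*} [AddCommGroup G] {Γ : Graph} {x y : ℕ → G}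
    (h : ∀ q < Γ.M, x q = y q) (u : ℕ) : div Γ x u = div Γ y u := by
  unfold div
  refine sum_congr rfl fun a ha => ?_
  rw [h a (mem_range.1 ha)]

private theorem lpb_ext_of_lt {G : Type*} [Zero G] {n : ℕ} (y : Fin n → G) {q : ℕ} (hq : q < n) :
    ext y q = y ⟨q, hq⟩ := ext_val y ⟨q, hq⟩

/-- the arcs with `v ≠ 0` at a vertex `v` carry no circulation (otherwise `v ± ε z` are feasible) -/
theorem indep_of_vertex {v : Fin (2 * (r * c)) → ℚ}
    (hv : (transportQ2 r c s cost).Vertex (toReal v)) (z : ℕ → ℤ)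
    (h1 : ∀ u < (tnet r c).N, div (tnet r c) z u = 0)
    (h2 : ∀ a < (tnet r c).M, ext v a = 0 → z a = 0) : ∀ a < (tnet r c).M, z a = 0 := by
  intro a ha
  have ha' : a < 2 * (r * c) := ha
  have hfeas : toReal v ∈ (transportQ2 r c s cost).feasible := hv.1
  have hnn : ∀ q, 0 ≤ toReal v q := (mem_feasible_iff.1 hfeas).1
  have : Nonempty (Fin (2 * (r * c))) := ⟨⟨a, ha'⟩⟩
  -- a positive bound for each coordinate
  have hq : ∀ q : Fin (2 * (r * c)), ∃ ε : ℝ, 0 < ε ∧ ε * |(z q : ℝ)| ≤ toReal v q := by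
    intro q
    rcases (hnn q).eq_or_lt with h | h
    · refine ⟨1, one_pos, ?_⟩
      have h3 : v q = 0 := by
        have : ((v q : ℚ) : ℝ) = 0 := h.symm
        exact_mod_cast this
      have h4 : z q = 0 := h2 q q.2 (by rw [ext_val]; exact h3)
      rw [h4, ← h]
      simp
    · refine ⟨toReal v q / (|(z q : ℝ)| + 1), by positivity, ?_⟩
      rw [div_mul_eq_mul_div, div_le_iff₀ (by positivity)]
      nlinarith [abs_nonneg (z q : ℝ)]
  choose e he0 he using hq
  obtain ⟨q0, hq0⟩ := Finite.exists_min e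
  set ε : ℝ := e q0 with hε
  have hε0 : 0 < ε := he0 q0
  have hb : ∀ q : Fin (2 * (r * c)), ε * |(z q : ℝ)| ≤ toReal v q := fun q =>
    (mul_le_mul_of_nonneg_right (hq0 q) (abs_nonneg _)).trans (he q)
  have hmem : ∀ σ : ℝ, |σ| ≤ ε →
      (fun q : Fin (2 * (r * c)) => toReal v q + (z q : ℝ) * σ) ∈
        (transportQ2 r c s cost).feasible := by
    intro σ hσ
    rw [feasible_iff_div hfeas]
    refine ⟨fun q => ?_, fun u hu => ?_⟩
    · have h3 : |(z q : ℝ) * σ| ≤ ε * |(z q : ℝ)| := by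
        rw [abs_mul, mul_comm]
        exact mul_le_mul_of_nonneg_right hσ (abs_nonneg _)
      have h4 := neg_abs_le ((z q : ℝ) * σ)
      have h5 := hb q
      linarith
    · have h3 : div (tnet r c) (ext fun q : Fin (2 * (r * c)) => toReal v q + (z q : ℝ) * σ) u =
          div (tnet r c) (fun q => ext (toReal v) q + z q • σ) u := by
        refine lpb_div_congr (fun q hq => ?_) u
        have hq' : q < 2 * (r * c) := hq
        rw [lpb_ext_of_lt _ hq', lpb_ext_of_lt _ hq', zsmul_eq_mul]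
      rw [h3, div_add, div_smul_const, h1 u hu, zero_smul, add_zero]
  have hp := hmem ε (by rw [abs_of_pos hε0])
  have hm := hmem (-ε) (by rw [abs_neg, abs_of_pos hε0])
  have hseg : toReal v ∈ openSegment ℝ
      (fun q : Fin (2 * (r * c)) => toReal v q + (z q : ℝ) * ε)
      (fun q : Fin (2 * (r * c)) => toReal v q + (z q : ℝ) * (-ε)) := by
    refine ⟨1 / 2, 1 / 2, by norm_num, by norm_num, by norm_num, ?_⟩
    funext q
    simp only [Pi.add_apply, Pi.smul_apply, smul_eq_mul]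
    ring
  have hex := (mem_extremePoints.1 hv).2 _ hp _ hm hseg
  have h3 := congrFun hex.1 ⟨a, ha'⟩
  simp only at h3
  have h4 : (z a : ℝ) * ε = 0 := by linarith
  rcases mul_eq_zero.1 h4 with h5 | h5
  · exact_mod_cast h5
  · exact absurd h5 hε0.ne'

private theorem lpb_map {t : Tr} {b x : ℕ → ℚ} (hx : TFlow (tnet r c) b t x) :
    TFlow (tnet r c) (fun v => ((b v : ℚ) : ℝ)) t (fun q => ((x q : ℚ) : ℝ)) :=
  hx.map (Rat.castHom ℝ : ℚ →+* ℝ).toAddMonoidHom

private theorem lpb_div_feasible {v : Fin (2 * (r * c)) → ℚ}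
    (hv : toReal v ∈ (transportQ2 r c s cost).feasible) {u : ℕ} (hu : u < (tnet r c).N) :
    div (tnet r c) (ext (toReal v)) u = ((supp2 r c (ext s) u : ℚ) : ℝ) := by
  rw [← div_of_feasible hv hu]
  rw [show ((div (tnet r c) (ext v) u : ℚ) : ℝ) =
    (Rat.castHom ℝ : ℚ →+* ℝ).toAddMonoidHom (div (tnet r c) (ext v) u) from rfl, ← div_map]
  refine lpb_div_congr (fun q hq => ?_) u
  have hq' : q < 2 * (r * c) := hq
  rw [lpb_ext_of_lt _ hq', lpb_ext_of_lt _ hq']
  rfl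

private theorem lpb_div_tab {t : Tr} {x : ℕ → ℚ}
    (hx : TFlow (tnet r c) (supp2 r c (ext s)) t x) {u : ℕ} (hu : u < (tnet r c).N) :
    div (tnet r c) (ext (toReal (tab r c x))) u = ((supp2 r c (ext s) u : ℚ) : ℝ) := by
  rw [← (lpb_map hx).div u hu]
  refine lpb_div_congr (fun q hq => ?_) u
  have hq' : q < 2 * (r * c) := hq
  rw [lpb_ext_of_lt _ hq']
  rfl

private theorem lpb_tab_feasible {t : Tr} {x : ℕ → ℚ}
    (hx : TFlow (tnet r c) (supp2 r c (ext s)) t x) (h0 : ∀ a < (tnet r c).M, 0 ≤ x a)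
    {v : Fin (2 * (r * c)) → ℚ} (hv : toReal v ∈ (transportQ2 r c s cost).feasible) :
    toReal (tab r c x) ∈ (transportQ2 r c s cost).feasible := by
  rw [feasible_iff_div hv]
  refine ⟨fun q => ?_, fun u hu => ?_⟩
  · have h3 : 0 ≤ x q := h0 q q.2
    show (0 : ℝ) ≤ ((x q : ℚ) : ℝ)
    exact_mod_cast h3
  · rw [lpb_div_tab hx hu, lpb_div_feasible hv hu]

/-- a nonnegative tree flow is a vertex (the face `x_q = 0` off the tree is one point) -/
theorem vertex_of_tflow {t : Tr} (ht : IsTree (tnet r c) t) {x : ℕ → ℚ}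
    (hx : TFlow (tnet r c) (supp2 r c (ext s)) t x) (h0 : ∀ a < (tnet r c).M, 0 ≤ x a)
    {v : Fin (2 * (r * c)) → ℚ} (hv : toReal v ∈ (transportQ2 r c s cost).feasible) :
    (transportQ2 r c s cost).Vertex (toReal (tab r c x)) := by
  have hfeas := lpb_tab_feasible hx h0 hv
  have key : ∀ y1 ∈ (transportQ2 r c s cost).feasible,
      ∀ y2 ∈ (transportQ2 r c s cost).feasible,
      toReal (tab r c x) ∈ openSegment ℝ y1 y2 → y1 = toReal (tab r c x) := by
    intro y1 hy1 y2 hy2 hseg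
    obtain ⟨α, β, hα, hβ, -, hyy⟩ := hseg
    have hn1 : ∀ q, 0 ≤ y1 q := (mem_feasible_iff.1 hy1).1
    have hn2 : ∀ q, 0 ≤ y2 q := (mem_feasible_iff.1 hy2).1
    have hd : ∀ u < (tnet r c).N, div (tnet r c)
        (fun q => ext y1 q - ext (toReal (tab r c x)) q) u = 0 := by
      intro u hu
      rw [div_sub, ((feasible_iff_div hfeas).1 hy1).2 u hu, sub_self]
    have hz : ∀ q < (tnet r c).M, ext y1 q - ext (toReal (tab r c x)) q ≠ 0 →
        InT (tnet r c) t q := by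
      intro q hq hne
      by_contra hT
      apply hne
      have hq' : q < 2 * (r * c) := hq
      rw [lpb_ext_of_lt _ hq', lpb_ext_of_lt _ hq']
      have h3 : toReal (tab r c x) ⟨q, hq'⟩ = 0 := by
        show ((x q : ℚ) : ℝ) = 0
        rw [hx.supp q hq hT, Rat.cast_zero]
      have h4 := congrFun hyy ⟨q, hq'⟩
      rw [h3] at h4
      simp only [Pi.add_apply, Pi.smul_apply, smul_eq_mul] at h4
      have h5 := hn1 ⟨q, hq'⟩
      have h6 := hn2 ⟨q, hq'⟩
      have h7 : 0 ≤ α * y1 ⟨q, hq'⟩ := by positivity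
      have h8 : 0 ≤ β * y2 ⟨q, hq'⟩ := by positivity
      have h9 : α * y1 ⟨q, hq'⟩ = 0 := by linarith
      rcases mul_eq_zero.1 h9 with h | h
      · exact absurd h hα.ne'
      · rw [h, h3, sub_zero]
    have hk := kernel (tnet_ok r c) ht hd hz
    funext q
    have h3 := hk q q.2
    rw [ext_val, ext_val] at h3
    linarith
  refine mem_extremePoints.2 ⟨hfeas, fun y1 hy1 y2 hy2 hseg => ⟨key y1 hy1 y2 hy2 hseg, ?_⟩⟩
  refine key y2 hy2 y1 hy1 ?_
  rwa [openSegment_symm]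

private theorem lpb_obj (C : ℕ → ℤ) {κ : ℚ} (hC : ∀ q : Fin (2 * (r * c)), (C q : ℚ) = - κ * cost q)
    (y : Fin (2 * (r * c)) → ℝ) (g : ℕ → ℝ) (hg : ∀ q : Fin (2 * (r * c)), g q = y q) :
    ∑ a ∈ range (tnet r c).M, (C a : ℝ) * g a = - (κ : ℝ) * (transportQ2 r c s cost).obj y := by
  have h1 : ∑ a ∈ range (tnet r c).M, (C a : ℝ) * g a =
      ∑ q : Fin (2 * (r * c)), (C q : ℝ) * g q :=
    (Fin.sum_univ_eq_sum_range (fun a => (C a : ℝ) * g a) (2 * (r * c))).symm
  rw [h1]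
  unfold QLP.obj
  rw [mul_sum]
  refine sum_congr rfl fun q _ => ?_
  rw [hg q]
  have h2 : ((C q : ℤ) : ℝ) = - (κ : ℝ) * (cost q : ℝ) := by
    have h3 := hC q
    have h4 : (((C q : ℤ) : ℚ) : ℝ) = ((- κ * cost q : ℚ) : ℝ) := by rw [h3]
    push_cast at h4
    exact h4
  rw [h2]
  show - (κ : ℝ) * (cost q : ℝ) * y q = - (κ : ℝ) * ((cost q : ℝ) * y q)
  ring

/-- exact potentials: the flow is optimal -/
theorem optimal_of_exact {t : Tr} {C ϖ : ℕ → ℤ} {κ : ℚ} (hκ : 0 < κ)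
    (hC : ∀ q : Fin (2 * (r * c)), (C q : ℚ) = - κ * cost q)
    (h1 : ∀ a < (tnet r c).M, 0 ≤ red (tnet r c) C ϖ a)
    (h2 : ∀ a < (tnet r c).M, InT (tnet r c) t a → red (tnet r c) C ϖ a = 0) {x : ℕ → ℚ}
    (hx : TFlow (tnet r c) (supp2 r c (ext s)) t x) (h0 : ∀ a < (tnet r c).M, 0 ≤ x a)
    {v : Fin (2 * (r * c)) → ℚ} (hv : toReal v ∈ (transportQ2 r c s cost).feasible) :
    (transportQ2 r c s cost).Optimal (toReal (tab r c x)) := by
  refine ⟨lpb_tab_feasible hx h0 hv, fun y hy => ?_⟩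
  have hyf := (feasible_iff_div hv).1 hy
  have h3 := cost_le_of_exact (tnet_ok r c) (y := ext y) h1 h2 (lpb_map hx)
    (fun u hu => by rw [hyf.2 u hu, lpb_div_feasible hv hu])
    (fun a ha => by
      have ha' : a < 2 * (r * c) := ha
      rw [lpb_ext_of_lt _ ha']
      exact hyf.1 _)
  rw [lpb_obj (s := s) C hC (toReal (tab r c x)) (fun q => ((x q : ℚ) : ℝ)) (fun q => rfl),
    lpb_obj (s := s) C hC y (ext y) (fun q => ext_val y q)] at h3
  have h4 : (0 : ℝ) < κ := by exact_mod_cast hκ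
  nlinarith

end Pool.Agent.Simplex.Net
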