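import Pool.Agent.Lib.MP_4d246d_lc.Net.InitDefs
import Pool.Agent.Lib.MP_4d246d_lc.Net.Tab

/-!
# The method on lists (definitions)
-/

open Finset

namespace Pool.Agent.Simplex.Net

/-- a tree as a list: root and parent arcs -/
abbrev LT : Type := ℕ × List ℕ

/-- the tree of a list -/
def LT.tr (t : LT) : Tr := ⟨t.1, fun v => t.2.getD v 0⟩

/-- the exchange -/
def lexch (t : LT) (a p : ℕ) : LT := (p, t.2.set t.1 a)

/-- the root moves one step towards `v` -/
def lmove (Γ : Graph) (v : ℕ) (t : LT) : LT :=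
  if t.1 = v then t else lexch t (t.tr.pa (child Γ t.tr v)) (child Γ t.tr v)

/-- the tree with the root `v` -/
def lreroot (Γ : Graph) (t : LT) (v : ℕ) : LT := (lmove Γ v)^[Γ.N] t

/-- the constants: supply, its perturbation, costs -/
abbrev LC : Type := List ℚ × List ℤ × List ℤ

/-- supply and perturbation -/
def LC.b (e : LC) : ℕ → ℚ ×ₗ ℤ := pert (fun v => e.1.getD v 0) (fun v => e.2.1.getD v 0)

/-- the costs -/
def LC.C (e : LC) : ℕ → ℤ := fun a => e.2.2.getD a 0

/-- the tree after the arc `a` has entered -/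
def lpivot (Γ : Graph) (e : LC) (t : LT) (a : ℕ) : LT :=
  lexch (lreroot Γ t (Γ.tail a)) a
    (leave Γ (val Γ e.b (lreroot Γ t (Γ.tail a)).tr) (lreroot Γ t (Γ.tail a)).tr (Γ.head a))

/-- a state as lists: tree, potentials, nodes that are awake, `h` -/
abbrev LS : Type := LT × List ℤ × List Bool × ℕ

/-- the state of a list -/
def LS.st (s : LS) : St := ⟨s.1.tr, fun v => s.2.1.getD v 0, fun v => s.2.2.1.getD v false, s.2.2.2⟩

/-- one step -/
def lstep (Γ : Graph) (e : LC) (s : LS) : LS :=
  if Sleep Γ s.st then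
    if s.2.2.2 = 0 then s else (s.1, s.2.1, List.replicate Γ.N true, s.2.2.2 - 1)
  else match ent Γ e.C s.st with
  | some a => (lpivot Γ e s.1 a, s.2)
  | none => (s.1,
      (List.range Γ.N).map (fun v => if InS Γ e.C s.st.π s.st.t v
        then s.st.π v + amount Γ e.C s.st else s.st.π v),
      (List.range Γ.N).map (fun v => if InS Γ e.C s.st.π s.st.t v then false else s.st.W v),
      s.2.2.2)

/-- the lists have the right lengths -/
structure LOk (Γ : Graph) (s : LS) : Prop where
  pa : s.1.2.length = Γ.N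
  π : s.2.1.length = Γ.N
  W : s.2.2.1.length = Γ.N

/-- one step of the growth of the first tree -/
def lgrow1 (Γ : Graph) (x : List ℚ) (t : LT) : LT :=
  match (List.range Γ.M).find? (fun a => decide (x.getD a 0 ≠ 0) && !decide (InT Γ t.tr a)) with
  | some a => lexch (lreroot Γ t (Γ.tail a)) a
      (first0 Γ (fun q => x.getD q 0) (lreroot Γ t (Γ.tail a)).tr (Γ.head a))
  | none => t

/-- the first tree -/
def lgrow (Γ : Graph) (x : List ℚ) (t : LT) : LT := (lgrow1 Γ x)^[Γ.M] t

/-- the perturbation of the supply -/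
def leta (Γ : Graph) (t : LT) : List ℤ := (List.range Γ.N).map (eta Γ t.tr)

/-- the first state -/
def lstart (Γ : Graph) (K : ℤ) (h : ℕ) (t : LT) : LS :=
  (t, (List.range Γ.N).map (pot0 Γ K t.tr), List.replicate Γ.N true, h)

/-- the flow on a tree -/
def flowOf (Γ : Graph) (b : ℕ → ℚ) (t : Tr) (q : ℕ) : ℚ :=
  ∑ v ∈ range Γ.N, if v ≠ t.r ∧ t.pa v = q then val Γ b t v else 0

/-! ### The whole method for a table -/

/-- the costs: integers, multiples of `2 N + 3`, negative (the program maximises); `dens` is the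
product of the denominators -/
def dens (l : List ℚ) : ℕ := (l.map Rat.den).prod

/-- the costs -/
def icost (N : ℕ) (l : List ℚ) : List ℤ :=
  l.map fun q => - ((2 * (N : ℤ) + 3) * (q.num * ((dens l / q.den : ℕ) : ℤ)))

/-- bound for the costs -/
def kbound (C : List ℤ) : ℤ := (C.map fun x => |x|).sum

/-- the first `h` -/
def hbound (N : ℕ) (C : List ℤ) : ℕ := Nat.size ((kbound C * (N + 2)).natAbs)

/-- the number of steps -/
def jbound (N M : ℕ) (C : List ℤ) : ℕ := (hbound N C + 1) * (phaseBound N M + 1)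

/-- data of a table program: `r`, `c`, line sums, objective, vertex -/
abbrev TD : Type := (ℕ × ℕ) × List ℚ × List ℚ × List ℚ

/-- the network -/
abbrev TD.Γ (d : TD) : Graph := tnet d.1.1 d.1.2

/-- the first tree -/
def TD.t0 (d : TD) : LT :=
  lgrow d.Γ d.2.2.2 (d.1.1 * d.1.2, (List.range d.Γ.N).map (tree0 d.1.1 d.1.2).pa)

/-- the constants -/
def TD.e (d : TD) : LC :=
  ((List.range d.Γ.N).map (supp2 d.1.1 d.1.2 fun p => d.2.1.getD p 0), leta d.Γ d.t0,
    icost d.Γ.N d.2.2.1)

/-- the first state -/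
def TD.s0 (d : TD) : LS := lstart d.Γ (kbound d.e.2.2) (hbound d.Γ.N d.e.2.2) d.t0

/-- the state after `k` steps -/
def TD.state (d : TD) (k : ℕ) : LS := (lstep d.Γ d.e)^[k] d.s0

/-- the table after `k` steps -/
def TD.vert (d : TD) (k : ℕ) : List ℚ :=
  (List.range d.Γ.M).map (flowOf d.Γ (fun v => d.e.1.getD v 0) (d.state k).1.tr)

/-- a sequence without repetitions of neighbours -/
def seqOf {α : Type*} [DecidableEq α] (f : ℕ → α) (J : ℕ) : List α :=
  ((List.range (J + 1)).filter (fun k => decide (k = 0 ∨ f k ≠ f (k - 1)))).map f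

/-- the vertices of the run -/
def TD.verts (d : TD) : List (List ℚ) :=
  if d.Γ.M = 0 then [d.2.2.2] else seqOf d.vert (jbound d.Γ.N d.Γ.M d.e.2.2)

end Pool.Agent.Simplex.Net
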