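import Pool.Agent.Lib.MP_4d246d_lc.Net.ListDefs
import Pool.Agent.Lib.PolyTime.RatBin
import Pool.Agent.Lib.PolyTime.EqOps

/-!
# Polynomial time: reading a state

Sizes: nodes and arcs are natural numbers in unary (`sz_nat`), numbers of the data are rationals or
integers in binary. `par` of a list tree is bounded by the root, `N` and the entries of the list.
-/

open Finset

namespace Pool.Agent.Simplex.Net

open Pool.Agent.Lib.PolyTime

variable {α : Type*} [TEnc α] {r c : α → ℕ} {t : α → LT} {u v a k : α → ℕ} {C π : α → List ℤ}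

theorem polyF_N (hr : PolyF r) (hc : PolyF c) : PolyF (fun x => (tnet (r x) (c x)).N) :=
  ((hr.natMul hc).natAdd hr).natAdd hc

theorem polyF_L (hr : PolyF r) (hc : PolyF c) : PolyF (fun x => (tnet (r x) (c x)).L) :=
  hr.natMul hc

theorem polyF_M (hr : PolyF r) (hc : PolyF c) : PolyF (fun x => (tnet (r x) (c x)).M) :=
  (PolyF.const 2).natMul (hr.natMul hc)

theorem polyF_tail (hr : PolyF r) (hc : PolyF c) (ha : PolyF a) :
    PolyF (fun x => (tnet (r x) (c x)).tail (a x)) :=
  ha.natDiv (PolyF.const 2)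

theorem polyF_head (hr : PolyF r) (hc : PolyF c) (ha : PolyF a) :
    PolyF (fun x => (tnet (r x) (c x)).head (a x)) :=
  PolyF.ite (p := fun x => a x % 2 = 0) (ha.natMod (PolyF.const 2)).natIsZero
    ((hr.natMul hc).natAdd ((ha.natDiv (PolyF.const 2)).natDiv hc))
    (((hr.natMul hc).natAdd hr).natAdd ((ha.natDiv (PolyF.const 2)).natMod hc))

theorem polyF_sg (hr : PolyF r) (hc : PolyF c) (hv : PolyF v) :
    PolyF (fun x => (tnet (r x) (c x)).sg (v x)) :=
  PolyF.ite (p := fun x => v x < r x * c x) (hv.natLt (hr.natMul hc)) (PolyF.const 1)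
    (PolyF.const (-1))

theorem polyF_pa (ht : PolyF t) (hv : PolyF v) : PolyF (fun x => (t x).tr.pa (v x)) :=
  ((hv.getElem? ht.snd).getD (PolyF.const 0)).congr fun x => by
    simp [LT.tr, List.getD_eq_getElem?_getD]

theorem polyF_par (hr : PolyF r) (hc : PolyF c) (ht : PolyF t) (hv : PolyF v) :
    PolyF (fun x => par (tnet (r x) (c x)) (t x).tr (v x)) :=
  PolyF.ite (p := fun x => v x = (t x).1) (hv.natEq ht.fst) ht.fst
    (PolyF.ite (p := fun x => v x < r x * c x) (hv.natLt (hr.natMul hc))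
      (polyF_head hr hc (polyF_pa ht hv)) (polyF_tail hr hc (polyF_pa ht hv)))

/-- the entries of a list tree are bounded by its size -/
theorem pa_le_sz_listtree (t : LT) (v : ℕ) : t.tr.pa v ≤ sz t := by
  have h0 : sz t = 1 + sz t.1 + sz t.2 := rfl
  have h1 : t.tr.pa v = t.2.getD v 0 := rfl
  rw [h1, List.getD_eq_getElem?_getD]
  rcases h : t.2[v]? with _ | b
  · simp
  · have hb : b ∈ t.2 := List.mem_of_getElem? h
    have := sz_mem hb
    simp only [Option.getD_some]
    rw [sz_nat] at this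
    omega

/-- parents are bounded -/
theorem par_le_bound_listtree (r c : ℕ) (t : LT) (v : ℕ) :
    par (tnet r c) t.tr v ≤ r * c + r + sz t := by
  have h0 : sz t = 1 + sz t.1 + sz t.2 := rfl
  have h1 := pa_le_sz_listtree t v
  unfold par
  split_ifs with h
  · have : t.tr.r = t.1 := rfl
    rw [this]
    rw [sz_nat] at h0
    omega
  · unfold Graph.opp
    split_ifs with h'
    · show (if t.tr.pa v % 2 = 0 then r * c + t.tr.pa v / 2 / c else r * c + r + t.tr.pa v / 2 % c)
        ≤ _
      have e1 : t.tr.pa v / 2 / c ≤ t.tr.pa v := (Nat.div_le_self _ _).trans (Nat.div_le_self _ _)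
      have e2 : t.tr.pa v / 2 % c ≤ t.tr.pa v := (Nat.mod_le _ _).trans (Nat.div_le_self _ _)
      split_ifs <;> omega
    · show t.tr.pa v / 2 ≤ _
      have e1 : t.tr.pa v / 2 ≤ t.tr.pa v := Nat.div_le_self _ _
      omega

/-- the nodes on the way up are bounded -/
theorem up_le_bound_listtree (r c : ℕ) (t : LT) (k v : ℕ) :
    up (tnet r c) t.tr k v ≤ v + (r * c + r + sz t) := by
  unfold up
  cases k with
  | zero => simp
  | succ k =>
    rw [Function.iterate_succ_apply']
    exact (par_le_bound_listtree r c t _).trans (Nat.le_add_left _ _)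

theorem polyF_up (hr : PolyF r) (hc : PolyF c) (ht : PolyF t) (hk : PolyF k) (hv : PolyF v) :
    PolyF (fun x => up (tnet (r x) (c x)) (t x).tr (k x) (v x)) := by
  have hB : PBd (fun x => v x + (r x * c x + r x + sz (t x))) :=
    hv.pbdNat.add (((hr.pbdNat.mul hc.pbdNat).add hr.pbdNat).add ht.pbd)
  obtain ⟨B, hB⟩ := hB
  refine PolyF.natIterate (f := fun x w => par (tnet (r x) (c x)) (t x).tr w) hk
    (polyF_par (hr.comp PolyF.fst') (hc.comp PolyF.fst') (ht.comp PolyF.fst') PolyF.snd') hv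
    ⟨B, fun x i _ => ?_⟩
  rw [sz_nat]
  exact (up_le_bound_listtree (r x) (c x) (t x) i (v x)).trans (hB x)

theorem polyF_anc (hr : PolyF r) (hc : PolyF c) (ht : PolyF t) (hu : PolyF u) (hv : PolyF v) :
    PolyF (fun x => decide (Anc (tnet (r x) (c x)) (t x).tr (u x) (v x))) := by
  refine (PolyF.existsLt (n := fun x => (tnet (r x) (c x)).N + 1)
    (p := fun x k => up (tnet (r x) (c x)) (t x).tr k (v x) = u x) (polyF_N hr hc).succ
    ((polyF_up (hr.comp PolyF.fst') (hc.comp PolyF.fst') (ht.comp PolyF.fst') PolyF.snd'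
      (hv.comp PolyF.fst')).natEq (hu.comp PolyF.fst'))).decide_congr fun x => Iff.rfl

theorem polyF_inT (hr : PolyF r) (hc : PolyF c) (ht : PolyF t) (ha : PolyF a) :
    PolyF (fun x => decide (InT (tnet (r x) (c x)) (t x).tr (a x))) := by
  refine (PolyF.existsLt (n := fun x => (tnet (r x) (c x)).N)
    (p := fun x v => v ≠ (t x).tr.r ∧ (t x).tr.pa v = a x) (polyF_N hr hc)
    (PolyF.decide_and (PolyF.decide_not (PolyF.snd'.natEq (ht.comp PolyF.fst').fst))
      ((polyF_pa (ht.comp PolyF.fst') PolyF.snd').natEq (ha.comp PolyF.fst')))).decide_congr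
    fun x => Iff.rfl

theorem polyF_child (hr : PolyF r) (hc : PolyF c) (ht : PolyF t) (hv : PolyF v) :
    PolyF (fun x => child (tnet (r x) (c x)) (t x).tr (v x)) := by
  refine PolyF.optionCases
    (o := fun x => (List.range (tnet (r x) (c x)).N).find?
      (fun k => decide (up (tnet (r x) (c x)) (t x).tr (k + 1) (v x) = (t x).tr.r)))
    (g := v) (h := fun p : α × ℕ => up (tnet (r p.1) (c p.1)) (t p.1).tr p.2 (v p.1))
    ?_ hv ?_ ?_ ?_
  · exact (polyF_N hr hc).range.find?
      (p := fun x k => decide (up (tnet (r x) (c x)) (t x).tr (k + 1) (v x) = (t x).tr.r))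
      ((polyF_up (hr.comp PolyF.fst') (hc.comp PolyF.fst') (ht.comp PolyF.fst') PolyF.snd'.succ
        (hv.comp PolyF.fst')).natEq (ht.comp PolyF.fst').fst)
  · exact polyF_up (hr.comp PolyF.fst') (hc.comp PolyF.fst') (ht.comp PolyF.fst') PolyF.snd'
      (hv.comp PolyF.fst')
  · intro x hx
    simp only [child, hx]
  · intro x b hx
    simp only [child, hx]

/-- entries of a list of integers -/
theorem polyF_getD_intlist {l : α → List ℤ} {n : α → ℕ} (hl : PolyF l) (hn : PolyF n) :
    PolyF (fun x => (l x).getD (n x) 0) :=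
  ((hn.getElem? hl).getD (PolyF.const 0)).congr fun x => by
    simp [List.getD_eq_getElem?_getD]

theorem polyF_red (hr : PolyF r) (hc : PolyF c) (hC : PolyF C) (hπ : PolyF π) (ha : PolyF a) :
    PolyF (fun x => red (tnet (r x) (c x)) (fun q => (C x).getD q 0) (fun w => (π x).getD w 0)
      (a x)) :=
  ((polyF_getD_intlist hC ha).intSub (polyF_getD_intlist hπ (polyF_tail hr hc ha))).intAdd
    (polyF_getD_intlist hπ (polyF_head hr hc ha))

theorem polyF_upc (hr : PolyF r) (hc : PolyF c) (hC : PolyF C) (hπ : PolyF π) (ht : PolyF t)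
    (hv : PolyF v) : PolyF (fun x => upc (tnet (r x) (c x)) (fun q => (C x).getD q 0)
      (fun w => (π x).getD w 0) (t x).tr (v x)) :=
  (polyF_sg hr hc hv).intMul (polyF_red hr hc hC hπ (polyF_pa ht hv))

theorem polyF_inS (hr : PolyF r) (hc : PolyF c) (hC : PolyF C) (hπ : PolyF π) (ht : PolyF t)
    (hv : PolyF v) : PolyF (fun x => decide (InS (tnet (r x) (c x)) (fun q => (C x).getD q 0)
      (fun w => (π x).getD w 0) (t x).tr (v x))) := by
  have hup : PolyF (fun q : α × ℕ => up (tnet (r q.1) (c q.1)) (t q.1).tr q.2 (v q.1)) :=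
    polyF_up (hr.comp PolyF.fst') (hc.comp PolyF.fst') (ht.comp PolyF.fst') PolyF.snd'
      (hv.comp PolyF.fst')
  refine (PolyF.forallLt (n := fun x => (tnet (r x) (c x)).N)
    (p := fun x k => up (tnet (r x) (c x)) (t x).tr k (v x) ≠ (t x).tr.r →
      upc (tnet (r x) (c x)) (fun q => (C x).getD q 0) (fun w => (π x).getD w 0) (t x).tr
        (up (tnet (r x) (c x)) (t x).tr k (v x)) = 0) (polyF_N hr hc)
    (PolyF.decide_imp (PolyF.decide_not (hup.natEq (ht.comp PolyF.fst').fst))
      ((polyF_upc (hr.comp PolyF.fst') (hc.comp PolyF.fst') (hC.comp PolyF.fst')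
        (hπ.comp PolyF.fst') (ht.comp PolyF.fst') hup).intEq (PolyF.const 0)))).decide_congr
    fun x => Iff.rfl

end Pool.Agent.Simplex.Net
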