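import Pool.Agent.Lib.MP_4d246d_lc.Net.PolyV

/-!
# Polynomial time: steps, iterations

Sizes of the iterates: the root is a node; the parent arcs are entries of the first list or arcs
below `M` (or `0`); the potentials grow by at most three bits per step; the lists keep their lengths
(or get length `N`); `h` does not grow.
-/

open Finset

namespace Pool.Agent.Simplex.Net

open Pool.Agent.Lib.PolyTime

/-! ### Bounds for trees -/

/-- bounds for a tree: root, length, entries -/
structure TB (E R ℓ : ℕ) (t : LT) : Prop where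
  root : t.1 ≤ R
  len : t.2.length ≤ ℓ
  ent : ∀ b ∈ t.2, b ≤ E

section bounds

variable {r c E R ℓ v a p : ℕ} {t : LT}

theorem TB.sz_le (h : TB E R ℓ t) : sz t ≤ 1 + R + (E + 1) * ℓ := by
  have h0 : sz t = 1 + sz t.1 + sz t.2 := rfl
  have h1 : sz t.2 ≤ (E + 1) * t.2.length :=
    sz_le_of_forall fun b hb => by rw [sz_nat]; exact h.ent b hb
  have h2 : (E + 1) * t.2.length ≤ (E + 1) * ℓ := Nat.mul_le_mul_left _ h.len
  have h3 := h.root
  rw [h0, sz_nat]
  omega

theorem TB.of_sz (t : LT) : TB (sz t) (sz t) (sz t) t := by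
  have h0 : sz t = 1 + sz t.1 + sz t.2 := rfl
  rw [sz_nat] at h0
  refine ⟨by omega, ?_, fun b hb => ?_⟩
  · have := sz_eq_sum t.2
    omega
  · have := sz_mem hb
    rw [sz_nat] at this
    omega

theorem TB.mono {E' R' ℓ' : ℕ} (h : TB E R ℓ t) (hE : E ≤ E') (hR : R ≤ R') (hl : ℓ ≤ ℓ') :
    TB E' R' ℓ' t :=
  ⟨h.root.trans hR, h.len.trans hl, fun b hb => (h.ent b hb).trans hE⟩

theorem TB.pa_le (h : TB E R ℓ t) : t.tr.pa v ≤ E := by
  show t.2.getD v 0 ≤ E
  rw [List.getD_eq_getElem?_getD]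
  rcases hq : t.2[v]? with _ | b
  · simp
  · exact h.ent b (List.mem_of_getElem? hq)

theorem tail_le_bd (hR : r * c + r + E ≤ R) (ha : a ≤ E) : (tnet r c).tail a ≤ R := by
  show a / 2 ≤ R
  have : a / 2 ≤ a := Nat.div_le_self _ _
  omega

theorem head_le_bd (hR : r * c + r + E ≤ R) (ha : a ≤ E) : (tnet r c).head a ≤ R := by
  show (if a % 2 = 0 then r * c + a / 2 / c else r * c + r + a / 2 % c) ≤ R
  have e1 : a / 2 / c ≤ a := (Nat.div_le_self _ _).trans (Nat.div_le_self _ _)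
  have e2 : a / 2 % c ≤ a := (Nat.mod_le _ _).trans (Nat.div_le_self _ _)
  split_ifs <;> omega

theorem TB.par_le (hR : r * c + r + E ≤ R) (h : TB E R ℓ t) : par (tnet r c) t.tr v ≤ R := by
  unfold par
  split_ifs
  · exact h.root
  · unfold Graph.opp
    split_ifs
    · exact head_le_bd hR h.pa_le
    · exact tail_le_bd hR h.pa_le

theorem TB.up_le (hR : r * c + r + E ≤ R) (h : TB E R ℓ t) (hv : v ≤ R) (k : ℕ) :
    up (tnet r c) t.tr k v ≤ R := by
  unfold up
  cases k with
  | zero => exact hv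
  | succ k =>
    rw [Function.iterate_succ_apply']
    exact h.par_le hR

theorem TB.child_le (hR : r * c + r + E ≤ R) (h : TB E R ℓ t) (hv : v ≤ R) :
    child (tnet r c) t.tr v ≤ R := by
  unfold child
  split
  · exact h.up_le hR hv _
  · exact hv

theorem TB.leave_le {G : Type*} [LinearOrder G] (f : ℕ → G) (hR : r * c + r + E ≤ R)
    (h : TB E R ℓ t) (hv : v ≤ R) : leave (tnet r c) f t.tr v ≤ R := by
  unfold leave
  split
  · exact h.up_le hR hv _
  · exact hv

theorem TB.first0_le (x : ℕ → ℚ) (hR : r * c + r + E ≤ R) (h : TB E R ℓ t) (hv : v ≤ R) :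
    first0 (tnet r c) x t.tr v ≤ R := by
  unfold first0
  split
  · exact h.up_le hR hv _
  · exact hv

theorem TB.lexch (h : TB E R ℓ t) (ha : a ≤ E) (hp : p ≤ R) : TB E R ℓ (lexch t a p) := by
  refine ⟨hp, ?_, fun b hb => ?_⟩
  · show (t.2.set t.1 a).length ≤ ℓ
    rw [List.length_set]
    exact h.len
  · rcases List.mem_or_eq_of_mem_set (show b ∈ t.2.set t.1 a from hb) with h1 | h1
    · exact h.ent b h1
    · rw [h1]; exact ha

theorem TB.lmove (hR : r * c + r + E ≤ R) (h : TB E R ℓ t) (hv : v ≤ R) :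
    TB E R ℓ (lmove (tnet r c) v t) := by
  unfold Net.lmove
  split_ifs
  · exact h
  · exact h.lexch h.pa_le (h.child_le hR hv)

theorem TB.lmove_iter (hR : r * c + r + E ≤ R) (h : TB E R ℓ t) (hv : v ≤ R) (i : ℕ) :
    TB E R ℓ ((Net.lmove (tnet r c) v)^[i] t) := by
  induction i with
  | zero => exact h
  | succ i ih =>
    rw [Function.iterate_succ_apply']
    exact ih.lmove hR hv

theorem TB.lreroot (hR : r * c + r + E ≤ R) (h : TB E R ℓ t) (hv : v ≤ R) :
    TB E R ℓ (lreroot (tnet r c) t v) := h.lmove_iter hR hv _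

theorem TB.lpivot (e : LC) (hR : r * c + r + E ≤ R) (h : TB E R ℓ t) (ha : a ≤ E) :
    TB E R ℓ (lpivot (tnet r c) e t a) := by
  have h1 := h.lreroot hR (tail_le_bd hR ha)
  exact h1.lexch ha (h1.leave_le _ hR (head_le_bd hR ha))

theorem TB.lgrow1 (y : List ℚ) (hR : r * c + r + E ≤ R) (hM : (tnet r c).M ≤ E)
    (h : TB E R ℓ t) : TB E R ℓ (lgrow1 (tnet r c) y t) := by
  unfold Net.lgrow1
  split
  · rename_i a ha
    have ha' : a ≤ E := by
      have := List.mem_of_find?_eq_some ha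
      rw [List.mem_range] at this
      omega
    have h1 := h.lreroot hR (tail_le_bd hR ha')
    exact h1.lexch ha' (h1.first0_le _ hR (head_le_bd hR ha'))
  · exact h

theorem TB.lgrow_iter (y : List ℚ) (hR : r * c + r + E ≤ R) (hM : (tnet r c).M ≤ E)
    (h : TB E R ℓ t) (i : ℕ) : TB E R ℓ ((Net.lgrow1 (tnet r c) y)^[i] t) := by
  induction i with
  | zero => exact h
  | succ i ih =>
    rw [Function.iterate_succ_apply']
    exact ih.lgrow1 y hR hM

end bounds

/-! ### Bounds for states -/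

/-- bounds for a state -/
structure SB (E R ℓ h b : ℕ) (s : LS) : Prop where
  tree : TB E R ℓ s.1
  lpot : s.2.1.length ≤ ℓ
  pot : ∀ z ∈ s.2.1, |z| < 2 ^ b
  lW : s.2.2.1.length ≤ ℓ
  h_le : s.2.2.2 ≤ h

theorem SB.sz_le {E R ℓ h b : ℕ} {s : LS} (hs : SB E R ℓ h b s) :
    sz s ≤ (1 + R + (E + 1) * ℓ) + (2 * b + 3) * ℓ + 2 * ℓ + h + 3 := by
  have h0 : sz s = 1 + sz s.1 + (1 + sz s.2.1 + (1 + sz s.2.2.1 + sz s.2.2.2)) := rfl
  have h1 := hs.tree.sz_le
  have h2 : sz s.2.1 ≤ (2 * b + 2 + 1) * s.2.1.length :=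
    sz_le_of_forall fun z hz => sz_int_le_of_abs_lt (hs.pot z hz)
  have h3 : sz s.2.2.1 ≤ (1 + 1) * s.2.2.1.length := sz_le_of_forall fun z _ => sz_bool_le z
  have h4 : (2 * b + 2 + 1) * s.2.1.length ≤ (2 * b + 3) * ℓ := Nat.mul_le_mul_left _ hs.lpot
  have h5 : (1 + 1) * s.2.2.1.length ≤ 2 * ℓ := Nat.mul_le_mul_left _ hs.lW
  have h6 := hs.h_le
  rw [h0, sz_nat]
  omega

theorem SB.mono {E R ℓ h b b' : ℕ} {s : LS} (hs : SB E R ℓ h b s) (hb : b ≤ b') :
    SB E R ℓ h b' s :=
  ⟨hs.tree, hs.lpot, fun z hz => (hs.pot z hz).trans_le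
    (pow_le_pow_right₀ (by norm_num) hb), hs.lW, hs.h_le⟩

theorem SB.getD {E R ℓ h b : ℕ} {s : LS} (hs : SB E R ℓ h b s) (v : ℕ) :
    |s.2.1.getD v 0| < 2 ^ b := by
  rw [List.getD_eq_getElem?_getD]
  rcases hq : s.2.1[v]? with _ | z
  · simp
  · exact hs.pot z (List.mem_of_getElem? hq)

private theorem pb_minOf {l : List ℤ} {d B : ℤ} (hl : ∀ z ∈ l, |z| ≤ B) (hd : |d| ≤ B) :
    |minOf l d| ≤ B := by
  unfold minOf
  rcases h : l.find? (fun x => l.all fun y => decide (x ≤ y)) with _ | z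
  · exact hd
  · exact hl z (List.mem_of_find?_eq_some h)

private theorem pb_amount {r c E R ℓ h b : ℕ} {e : LC} {s : LS} (hs : SB E R ℓ h b s)
    (hC : ∀ z ∈ e.2.2, |z| < 2 ^ b) (hh : h ≤ b) :
    |amount (tnet r c) e.C s.st| ≤ 3 * 2 ^ b := by
  have hb : (0 : ℤ) < 2 ^ b := by positivity
  unfold amount
  refine pb_minOf (fun z hz => ?_) ?_
  · rcases List.mem_cons.1 hz with h1 | h1
    · rw [h1]
      have h2 : (2 : ℤ) ^ s.st.h ≤ 2 ^ b :=
        pow_le_pow_right₀ (by norm_num) (hs.h_le.trans hh)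
      rw [abs_of_nonneg (by positivity)]
      linarith
    · obtain ⟨v, -, hv⟩ := List.mem_map.1 h1
      rw [← hv, abs_neg]
      have h2 : |upc (tnet r c) e.C s.st.π s.st.t v| =
          |red (tnet r c) e.C s.st.π (s.st.t.pa v)| := by
        unfold upc Graph.sg
        split_ifs
        · rw [one_mul]
        · rw [neg_one_mul, abs_neg]
      rw [h2]
      have h3 : |e.C (s.st.t.pa v)| < 2 ^ b := by
        show |e.2.2.getD _ 0| < 2 ^ b
        rw [List.getD_eq_getElem?_getD]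
        rcases hq : e.2.2[s.st.t.pa v]? with _ | z
        · simp
        · exact hC z (List.mem_of_getElem? hq)
      have h4 : |s.st.π ((tnet r c).tail (s.st.t.pa v))| < 2 ^ b := hs.getD _
      have h5 : |s.st.π ((tnet r c).head (s.st.t.pa v))| < 2 ^ b := hs.getD _
      unfold red
      rw [abs_lt] at h3 h4 h5
      rw [abs_le]
      constructor <;> linarith [h3.1, h3.2, h4.1, h4.2, h5.1, h5.2]
  · rw [abs_zero]; positivity

theorem SB.lstep {r c E R ℓ h b : ℕ} {e : LC} {s : LS} (hR : r * c + r + E ≤ R)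
    (hM : (tnet r c).M ≤ E) (hN : (tnet r c).N ≤ ℓ) (hC : ∀ z ∈ e.2.2, |z| < 2 ^ b)
    (hh : h ≤ b) (hs : SB E R ℓ h b s) : SB E R ℓ h (b + 3) (lstep (tnet r c) e s) := by
  have hs' : SB E R ℓ h (b + 3) s := hs.mono (by omega)
  unfold Net.lstep
  split_ifs with h1 h2
  · exact hs'
  · refine ⟨hs'.tree, hs'.lpot, hs'.pot, ?_, ?_⟩
    · show (List.replicate (tnet r c).N true).length ≤ ℓ
      rw [List.length_replicate]
      exact hN
    · show s.2.2.2 - 1 ≤ h
      have := hs.h_le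
      omega
  · split
    · rename_i a ha
      have ha' : a ≤ E := by
        have := List.mem_of_find?_eq_some ha
        rw [List.mem_range] at this
        omega
      exact ⟨hs'.tree.lpivot e hR ha', hs'.lpot, hs'.pot, hs'.lW, hs'.h_le⟩
    · refine ⟨hs'.tree, ?_, fun z hz => ?_, ?_, hs'.h_le⟩
      · simpa using hN
      · obtain ⟨v, -, hv⟩ := List.mem_map.1 hz
        have h3 : |s.st.π v| < 2 ^ b := hs.getD v
        have h4 := pb_amount (r := r) (c := c) hs hC hh
        have h5 : (2 : ℤ) ^ (b + 3) = 8 * 2 ^ b := by rw [pow_add]; ring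
        have hb : (0 : ℤ) < 2 ^ b := by positivity
        rw [← hv]
        rw [abs_lt] at h3
        rw [abs_le] at h4
        split_ifs
        · rw [abs_lt, h5]
          constructor <;> linarith [h3.1, h3.2, h4.1, h4.2]
        · rw [abs_lt, h5]
          constructor <;> linarith [h3.1, h3.2]
      · simpa using hN

theorem SB.iter {r c E R ℓ h b : ℕ} {e : LC} {s : LS} (hR : r * c + r + E ≤ R)
    (hM : (tnet r c).M ≤ E) (hN : (tnet r c).N ≤ ℓ) (hC : ∀ z ∈ e.2.2, |z| < 2 ^ b)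
    (hh : h ≤ b) (hs : SB E R ℓ h b s) (i : ℕ) :
    SB E R ℓ h (b + 3 * i) ((Net.lstep (tnet r c) e)^[i] s) := by
  induction i with
  | zero => exact hs
  | succ i ih =>
    rw [Function.iterate_succ_apply']
    have h1 : h ≤ b + 3 * i := by omega
    have h2 : b ≤ b + 3 * i := by omega
    exact ih.lstep hR hM hN (fun z hz => (hC z hz).trans_le
      (pow_le_pow_right₀ (by norm_num) h2)) h1

/-! ### Polynomial time -/

variable {α : Type*} [TEnc α] {r c : α → ℕ} {t : α → LT} {v a p k : α → ℕ} {e : α → LC}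
  {s : α → LS}

theorem polyF_lexch (ht : PolyF t) (ha : PolyF a) (hp : PolyF p) :
    PolyF (fun x => lexch (t x) (a x) (p x)) :=
  hp.pair (PolyF.set ht.fst ht.snd ha)

theorem polyF_lmove (hr : PolyF r) (hc : PolyF c) (hv : PolyF v) (ht : PolyF t) :
    PolyF (fun x => lmove (tnet (r x) (c x)) (v x) (t x)) := by
  have h1 := polyF_child hr hc ht hv
  exact PolyF.ite (p := fun x => (t x).1 = v x) (ht.fst.natEq hv) ht
    (polyF_lexch ht (polyF_pa ht h1) h1)

theorem polyF_lreroot (hr : PolyF r) (hc : PolyF c) (ht : PolyF t) (hv : PolyF v) :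
    PolyF (fun x => lreroot (tnet (r x) (c x)) (t x) (v x)) := by
  have hB : PBd (fun x => 1 + (r x * c x + r x + sz (t x) + v x) +
      (sz (t x) + 1) * sz (t x)) :=
    ((PBd.const 1).add ((((hr.pbdNat.mul hc.pbdNat).add hr.pbdNat).add ht.pbd).add
      hv.pbdNat)).add ((ht.pbd.add (PBd.const 1)).mul ht.pbd)
  obtain ⟨B, hB⟩ := hB
  refine PolyF.natIterate (n := fun x => (tnet (r x) (c x)).N)
    (f := fun x w => lmove (tnet (r x) (c x)) (v x) w) (polyF_N hr hc)
    (polyF_lmove (hr.comp PolyF.fst') (hc.comp PolyF.fst') (hv.comp PolyF.fst') PolyF.snd') ht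
    ⟨B, fun x i _ => le_trans ?_ (hB x)⟩
  have h1 : TB (sz (t x)) (r x * c x + r x + sz (t x) + v x) (sz (t x)) (t x) :=
    (TB.of_sz (t x)).mono le_rfl (by omega) le_rfl
  exact (h1.lmove_iter (by omega) (by omega) i).sz_le

theorem polyF_lpivot (hr : PolyF r) (hc : PolyF c) (he : PolyF e) (ht : PolyF t)
    (ha : PolyF a) : PolyF (fun x => lpivot (tnet (r x) (c x)) (e x) (t x) (a x)) := by
  have h1 := polyF_lreroot hr hc ht (polyF_tail hr hc ha)
  exact polyF_lexch h1 ha (polyF_leave hr hc he h1 (polyF_head hr hc ha))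

theorem polyF_lstep (hr : PolyF r) (hc : PolyF c) (he : PolyF e) (hs : PolyF s) :
    PolyF (fun x => lstep (tnet (r x) (c x)) (e x) (s x)) := by
  have hN : PolyF (fun x => (tnet (r x) (c x)).N) := polyF_N hr hc
  have hr1 := hr.comp (PolyF.fst' (α := α) (β := ℕ))
  have hc1 := hc.comp (PolyF.fst' (α := α) (β := ℕ))
  have he1 := he.comp (PolyF.fst' (α := α) (β := ℕ))
  have hs1 := hs.comp (PolyF.fst' (α := α) (β := ℕ))
  have hS := polyF_inS hr1 hc1 he1.snd.snd hs1.snd.fst hs1.fst (PolyF.snd' (α := α) (β := ℕ))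
  have hπ : PolyF (fun p : α × ℕ => (s p.1).2.1.getD p.2 0) :=
    polyF_getD_intlist hs1.snd.fst PolyF.snd'
  have hA := polyF_amount hr1 hc1 he1 hs1
  have hW : PolyF (fun p : α × ℕ => (s p.1).2.2.1.getD p.2 false) :=
    ((PolyF.snd'.getElem? hs1.snd.snd.fst).getD (PolyF.const false)).congr fun x => by
      rw [List.getD_eq_getElem?_getD]
  refine PolyF.ite (p := fun x => Sleep (tnet (r x) (c x)) (s x).st) (polyF_sleep hr hc hs) ?_ ?_
  · refine PolyF.ite (p := fun x => (s x).2.2.2 = 0) hs.snd.snd.snd.natIsZero hs ?_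
    exact hs.fst.pair (hs.snd.fst.pair ((PolyF.replicate hN (PolyF.const true)).pair
      hs.snd.snd.snd.pred))
  · refine PolyF.optionCases (o := fun x => ent (tnet (r x) (c x)) (e x).C (s x).st)
      (g := fun x => ((s x).1,
        (List.range (tnet (r x) (c x)).N).map (fun v =>
          if InS (tnet (r x) (c x)) (e x).C (s x).st.π (s x).st.t v
          then (s x).st.π v + amount (tnet (r x) (c x)) (e x).C (s x).st else (s x).st.π v),
        (List.range (tnet (r x) (c x)).N).map (fun v =>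
          if InS (tnet (r x) (c x)) (e x).C (s x).st.π (s x).st.t v then false
          else (s x).st.W v),
        (s x).2.2.2))
      (h := fun q : α × ℕ => (lpivot (tnet (r q.1) (c q.1)) (e q.1) (s q.1).1 q.2, (s q.1).2))
      (polyF_ent hr hc he hs) ?_ ?_ (fun x hx => ?_) (fun x b hx => ?_)
    · refine hs.fst.pair (PolyF.pair ?_ (PolyF.pair ?_ hs.snd.snd.snd))
      · refine hN.range.map (h := fun x v =>
          if InS (tnet (r x) (c x)) (e x).C (s x).st.π (s x).st.t v
          then (s x).st.π v + amount (tnet (r x) (c x)) (e x).C (s x).st else (s x).st.π v) ?_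
        exact PolyF.ite (p := fun p : α × ℕ => InS (tnet (r p.1) (c p.1)) (e p.1).C
          (s p.1).st.π (s p.1).st.t p.2) hS (hπ.intAdd hA) hπ
      · refine hN.range.map (h := fun x v =>
          if InS (tnet (r x) (c x)) (e x).C (s x).st.π (s x).st.t v then false
          else (s x).st.W v) ?_
        exact PolyF.ite (p := fun p : α × ℕ => InS (tnet (r p.1) (c p.1)) (e p.1).C
          (s p.1).st.π (s p.1).st.t p.2) hS (PolyF.const false) hW
    · exact (polyF_lpivot hr1 hc1 he1 hs1.fst PolyF.snd').pair hs1.snd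
    · simp only [hx]
    · simp only [hx]

private theorem pb_bits {C : List ℤ} {z : ℤ} (hz : z ∈ C) : |z| < 2 ^ sz C := by
  have h1 := sz_mem hz
  exact (abs_lt_two_pow_sz z).trans_le (pow_le_pow_right₀ (by norm_num) (by omega))

/-- the iterates -/
theorem polyF_lrun (hr : PolyF r) (hc : PolyF c) (he : PolyF e) (hs : PolyF s) (hk : PolyF k) :
    PolyF (fun x => (lstep (tnet (r x) (c x)) (e x))^[k x] (s x)) := by
  -- bounds
  have hE : PBd (fun x => sz (s x) + 2 * (r x * c x)) :=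
    hs.pbd.add ((PBd.const 2).mul (hr.pbdNat.mul hc.pbdNat))
  have hRb : PBd (fun x => r x * c x + r x + (sz (s x) + 2 * (r x * c x))) :=
    ((hr.pbdNat.mul hc.pbdNat).add hr.pbdNat).add hE
  have hl : PBd (fun x => sz (s x) + (r x * c x + r x + c x)) :=
    hs.pbd.add (((hr.pbdNat.mul hc.pbdNat).add hr.pbdNat).add hc.pbdNat)
  have hb : PBd (fun x => sz (s x) + sz (e x) + 3 * k x) :=
    (hs.pbd.add he.pbd).add ((PBd.const 3).mul hk.pbdNat)
  have hB := ((((((PBd.const 1).add hRb).add ((hE.add (PBd.const 1)).mul hl)).add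
    ((((PBd.const 2).mul hb).add (PBd.const 3)).mul hl)).add ((PBd.const 2).mul hl)).add
    hs.pbd).add (PBd.const 3)
  obtain ⟨B, hB⟩ := hB
  refine PolyF.natIterate (f := fun x w => lstep (tnet (r x) (c x)) (e x) w) hk
    (polyF_lstep (hr.comp PolyF.fst') (hc.comp PolyF.fst') (he.comp PolyF.fst') PolyF.snd') hs
    ⟨B, fun x i hi => le_trans ?_ (hB x)⟩
  have h0 : sz (s x) = 1 + sz (s x).1 + (1 + sz (s x).2.1 + (1 + sz (s x).2.2.1 +
      sz (s x).2.2.2)) := rfl
  have he0 : sz (e x) = 1 + sz (e x).1 + (1 + sz (e x).2.1 + sz (e x).2.2) := rfl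
  rw [sz_nat] at h0
  have h1 := sz_eq_sum (s x).2.1
  have h2 := sz_eq_sum (s x).2.2.1
  have hs0 : SB (sz (s x) + 2 * (r x * c x)) (r x * c x + r x + (sz (s x) + 2 * (r x * c x)))
      (sz (s x) + (r x * c x + r x + c x)) (sz (s x)) (sz (s x) + sz (e x)) (s x) := by
    refine ⟨(TB.of_sz (s x).1).mono (by omega) (by omega) (by omega), by omega,
      fun z hz => ?_, by omega, by omega⟩
    exact (pb_bits hz).trans_le (pow_le_pow_right₀ (by norm_num) (by omega))
  have h3 := hs0.iter (r := r x) (c := c x) (e := e x) le_rfl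
    (by show 2 * (r x * c x) ≤ _; omega)
    (by show r x * c x + r x + c x ≤ _; omega)
    (fun z hz => (pb_bits hz).trans_le (pow_le_pow_right₀ (by norm_num) (by omega)))
    (by omega) i
  exact (h3.mono (b' := sz (s x) + sz (e x) + 3 * k x) (by omega)).sz_le

theorem polyF_lgrow1 {y : α → List ℚ} (hr : PolyF r) (hc : PolyF c) (hy : PolyF y)
    (ht : PolyF t) : PolyF (fun x => lgrow1 (tnet (r x) (c x)) (y x) (t x)) := by
  have hr1 := hr.comp (PolyF.fst' (α := α) (β := ℕ))
  have hc1 := hc.comp (PolyF.fst' (α := α) (β := ℕ))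
  have ht1 := ht.comp (PolyF.fst' (α := α) (β := ℕ))
  have hy1 := hy.comp (PolyF.fst' (α := α) (β := ℕ))
  have hg : PolyF (fun p : α × ℕ => (y p.1).getD p.2 0) :=
    ((PolyF.snd'.getElem? hy1).getD (PolyF.const 0)).congr fun x => by
      rw [List.getD_eq_getElem?_getD]
  have h1 : PolyF (fun p : α × ℕ => decide ((y p.1).getD p.2 0 ≠ 0)) :=
    (hg.ratEq (PolyF.const 0)).decide_not
  have h2 := (polyF_inT hr1 hc1 ht1 (PolyF.snd' (α := α) (β := ℕ))).not
  have h3 := polyF_lreroot hr1 hc1 ht1 (polyF_tail hr1 hc1 (PolyF.snd' (α := α) (β := ℕ)))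
  refine PolyF.optionCases (o := fun x => (List.range (tnet (r x) (c x)).M).find?
      (fun a => decide ((y x).getD a 0 ≠ 0) && !decide (InT (tnet (r x) (c x)) (t x).tr a)))
      (g := t) (h := fun q : α × ℕ => lexch (lreroot (tnet (r q.1) (c q.1)) (t q.1)
        ((tnet (r q.1) (c q.1)).tail q.2)) q.2 (first0 (tnet (r q.1) (c q.1))
          (fun w => (y q.1).getD w 0) (lreroot (tnet (r q.1) (c q.1)) (t q.1)
            ((tnet (r q.1) (c q.1)).tail q.2)).tr ((tnet (r q.1) (c q.1)).head q.2)))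
      ((polyF_M hr hc).range.find? (h1.and h2)) ht ?_ (fun x hx => ?_) (fun x b hx => ?_)
  · exact polyF_lexch h3 PolyF.snd' (polyF_first0 hr1 hc1 hy1 h3
      (polyF_head hr1 hc1 PolyF.snd'))
  · simp only [lgrow1, hx]
  · simp only [lgrow1, hx]

theorem polyF_lgrow {y : α → List ℚ} (hr : PolyF r) (hc : PolyF c) (hy : PolyF y)
    (ht : PolyF t) : PolyF (fun x => lgrow (tnet (r x) (c x)) (y x) (t x)) := by
  have hE : PBd (fun x => sz (t x) + 2 * (r x * c x)) :=
    ht.pbd.add ((PBd.const 2).mul (hr.pbdNat.mul hc.pbdNat))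
  have hB := ((PBd.const 1).add (((hr.pbdNat.mul hc.pbdNat).add hr.pbdNat).add hE)).add
    ((hE.add (PBd.const 1)).mul ht.pbd)
  obtain ⟨B, hB⟩ := hB
  refine PolyF.natIterate (n := fun x => (tnet (r x) (c x)).M)
    (f := fun x w => lgrow1 (tnet (r x) (c x)) (y x) w) (polyF_M hr hc)
    (polyF_lgrow1 (hr.comp PolyF.fst') (hc.comp PolyF.fst') (hy.comp PolyF.fst') PolyF.snd') ht
    ⟨B, fun x i _ => le_trans ?_ (hB x)⟩
  have h1 : TB (sz (t x) + 2 * (r x * c x)) (r x * c x + r x + (sz (t x) + 2 * (r x * c x)))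
      (sz (t x)) (t x) :=
    (TB.of_sz (t x)).mono (by omega) (by omega) le_rfl
  exact (h1.lgrow_iter (r := r x) (c := c x) (y x) le_rfl
    (by show 2 * (r x * c x) ≤ _; omega) i).sz_le

theorem polyF_lstart {K : α → ℤ} {h : α → ℕ} (hr : PolyF r) (hc : PolyF c) (hK : PolyF K)
    (hh : PolyF h) (ht : PolyF t) :
    PolyF (fun x => lstart (tnet (r x) (c x)) (K x) (h x) (t x)) := by
  have hN : PolyF (fun x => (tnet (r x) (c x)).N) := polyF_N hr hc
  refine ht.pair (PolyF.pair ?_ ((PolyF.replicate hN (PolyF.const true)).pair hh))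
  refine hN.range.map (h := fun x v => pot0 (tnet (r x) (c x)) (K x) (t x).tr v) ?_
  exact polyF_pot0 (hr.comp PolyF.fst') (hc.comp PolyF.fst') (hK.comp PolyF.fst')
    (ht.comp PolyF.fst') PolyF.snd'

end Pool.Agent.Simplex.Net
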