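import Pool.Agent.Lib.MP_4d246d_lc.Net.PolyA

/-!
# Polynomial time: flows, entering and leaving arcs
-/

open Finset

namespace Pool.Agent.Simplex.Net

open Pool.Agent.Lib.PolyTime

variable {α : Type*} [TEnc α] {r c : α → ℕ} {t : α → LT} {u v a k : α → ℕ}

/-! ### Auxiliary: sums and entries of lists -/

private theorem pv_getD {β : Type*} [TEnc β] {l : α → List β} {n : α → ℕ} {d : α → β}
    (hl : PolyF l) (hn : PolyF n) (hd : PolyF d) : PolyF (fun x => (l x).getD (n x) (d x)) :=
  ((PolyF.getElem? hn hl).getD hd).congr fun x => by rw [List.getD_eq_getElem?_getD]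

private theorem pv_sum_range {M : Type*} [AddCommMonoid M] (f : ℕ → M) (n : ℕ) :
    ∑ i ∈ range n, f i = ((List.range n).map f).sum := by
  induction n with
  | zero => rfl
  | succ n ih =>
    rw [Finset.sum_range_succ, ih, List.range_succ, List.map_append, List.sum_append,
      List.map_singleton, List.sum_singleton]

private theorem pv_intSum {n : α → ℕ} {f : α → ℕ → ℤ} (hn : PolyF n)
    (hf : PolyF (fun p : α × ℕ => f p.1 p.2)) : PolyF (fun x => ∑ i ∈ range (n x), f x i) :=
  (hn.range.map hf).intSum.congr fun _ => (pv_sum_range _ _).symm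

private theorem pv_den_dvd (l : List ℚ) (q : ℚ) (h : q ∈ l) :
    (q.den : ℤ) ∣ (l.map fun y => (y.den : ℤ)).prod :=
  List.dvd_prod (List.mem_map.2 ⟨q, h, rfl⟩)

private theorem pv_ratSum_eq (l : List ℚ) (P : ℤ) (hP : P ≠ 0) (h : ∀ q ∈ l, (q.den : ℤ) ∣ P) :
    (((l.map fun q => q.num * (P / (q.den : ℤ))).sum : ℤ) : ℚ) / (P : ℚ) = l.sum := by
  have hP' : (P : ℚ) ≠ 0 := by exact_mod_cast hP
  rw [div_eq_iff hP']
  induction l with
  | nil => rw [List.map_nil, List.sum_nil, List.sum_nil, Int.cast_zero, zero_mul]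
  | cons q l ih =>
    rw [List.map_cons, List.sum_cons, List.sum_cons, Int.cast_add,
      ih fun y hy => h y (List.mem_cons_of_mem _ hy), add_mul]
    congr 1
    obtain ⟨w, hw⟩ := h q List.mem_cons_self
    have hd : (q.den : ℤ) ≠ 0 := by exact_mod_cast q.den_nz
    have hd' : (q.den : ℚ) ≠ 0 := by exact_mod_cast q.den_nz
    have h1 : P / (q.den : ℤ) = w := by
      rw [hw, Int.mul_ediv_cancel_left _ hd]
    rw [h1, hw]
    push_cast
    have h2 : q * (q.den : ℚ) = q.num := Rat.mul_den_eq_num q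
    rw [← mul_assoc, h2]

private theorem pv_ratListSum {l : α → List ℚ} (hl : PolyF l) : PolyF (fun x => (l x).sum) := by
  have hP : PolyF (fun x => ((l x).map fun q => (q.den : ℤ)).prod) :=
    (hl.map (h := fun _ (q : ℚ) => (q.den : ℤ)) PolyF.snd'.ratDenZ).intProd
  have hS : PolyF (fun x => ((l x).map fun q => q.num *
      ((((l x).map fun q => (q.den : ℤ)).prod) / (q.den : ℤ))).sum) :=
    (hl.map (h := fun x (q : ℚ) => q.num *
      ((((l x).map fun q => (q.den : ℤ)).prod) / (q.den : ℤ)))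
      (PolyF.snd'.ratNum.intMul ((hP.comp PolyF.fst').intEdiv PolyF.snd'.ratDenZ))).intSum
  refine (hS.ratDivZ hP).congr fun x => ?_
  refine pv_ratSum_eq (l x) _ ?_ fun q hq => pv_den_dvd _ q hq
  rw [Ne, List.prod_eq_zero_iff, List.mem_map]
  rintro ⟨q, _, hq⟩
  exact q.den_nz (by exact_mod_cast hq)

private theorem pv_ratSum {n : α → ℕ} {f : α → ℕ → ℚ} (hn : PolyF n)
    (hf : PolyF (fun p : α × ℕ => f p.1 p.2)) : PolyF (fun x => ∑ i ∈ range (n x), f x i) :=
  (pv_ratListSum (hn.range.map hf)).congr fun _ => (pv_sum_range _ _).symm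

private theorem pv_root (ht : PolyF t) : PolyF (fun x => (t x).tr.r) :=
  ht.fst.congr fun _ => rfl

/-- the flow for a rational supply -/
theorem polyF_valQ {b : α → List ℚ} (hr : PolyF r) (hc : PolyF c) (ht : PolyF t) (hb : PolyF b)
    (hv : PolyF v) :
    PolyF (fun x => val (tnet (r x) (c x)) (fun w => (b x).getD w 0) (t x).tr (v x)) := by
  have h1 : PolyF (fun x => ∑ u ∈ range (tnet (r x) (c x)).N,
      if Anc (tnet (r x) (c x)) (t x).tr (v x) u then (b x).getD u 0 else 0) :=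
    pv_ratSum (polyF_N hr hc) (f := fun x u =>
      if Anc (tnet (r x) (c x)) (t x).tr (v x) u then (b x).getD u 0 else 0)
      (PolyF.ite (polyF_anc (hr.comp PolyF.fst') (hc.comp PolyF.fst') (ht.comp PolyF.fst')
        (hv.comp PolyF.fst') PolyF.snd')
        (pv_getD (hb.comp PolyF.fst') PolyF.snd' (PolyF.const 0)) (PolyF.const 0))
  refine ((polyF_sg hr hc hv).ratOfInt.ratMul h1).congr fun x => ?_
  rw [val, zsmul_eq_mul]
  rfl

/-- the flow for an integral supply -/
theorem polyF_valZ {b : α → List ℤ} (hr : PolyF r) (hc : PolyF c) (ht : PolyF t) (hb : PolyF b)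
    (hv : PolyF v) :
    PolyF (fun x => val (tnet (r x) (c x)) (fun w => (b x).getD w 0) (t x).tr (v x)) := by
  have h1 : PolyF (fun x => ∑ u ∈ range (tnet (r x) (c x)).N,
      if Anc (tnet (r x) (c x)) (t x).tr (v x) u then (b x).getD u 0 else 0) :=
    pv_intSum (polyF_N hr hc) (f := fun x u =>
      if Anc (tnet (r x) (c x)) (t x).tr (v x) u then (b x).getD u 0 else 0)
      (PolyF.ite (polyF_anc (hr.comp PolyF.fst') (hc.comp PolyF.fst') (ht.comp PolyF.fst')
        (hv.comp PolyF.fst') PolyF.snd')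
        (pv_getD (hb.comp PolyF.fst') PolyF.snd' (PolyF.const 0)) (PolyF.const 0))
  refine ((polyF_sg hr hc hv).intMul h1).congr fun x => ?_
  rw [val, smul_eq_mul]
  rfl

private theorem pv_sum_lex (n : ℕ) (A : ℕ → Prop) [DecidablePred A] (b : ℕ → ℚ) (e : ℕ → ℤ) :
    ∑ u ∈ range n, (if A u then pert b e u else 0) =
      toLex (∑ u ∈ range n, (if A u then b u else 0), ∑ u ∈ range n, if A u then e u else 0) := by
  induction n with
  | zero => rfl
  | succ n ih =>
    rw [Finset.sum_range_succ, Finset.sum_range_succ, Finset.sum_range_succ, ih]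
    split_ifs
    · rfl
    · rw [add_zero, add_zero, add_zero]

/-- the flow for a perturbed supply in terms of the two parts -/
theorem val_pert (Γ : Graph) (b : ℕ → ℚ) (e : ℕ → ℤ) (t : Tr) (v : ℕ) :
    val Γ (pert b e) t v = toLex (val Γ b t v, val Γ e t v) := by
  unfold val sub
  rw [pv_sum_lex]
  rfl

private theorem pv_le {b : α → List ℚ} {η : α → List ℤ} (hr : PolyF r) (hc : PolyF c)
    (ht : PolyF t) (hb : PolyF b) (hη : PolyF η) (hu : PolyF u) (hv : PolyF v) :
    PolyF (fun x => decide (val (tnet (r x) (c x))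
      (pert (fun w => (b x).getD w 0) (fun w => (η x).getD w 0)) (t x).tr (u x) ≤
      val (tnet (r x) (c x)) (pert (fun w => (b x).getD w 0) (fun w => (η x).getD w 0)) (t x).tr
        (v x))) := by
  have h1 := polyF_valQ hr hc ht hb hu
  have h2 := polyF_valQ hr hc ht hb hv
  have h3 := polyF_valZ hr hc ht hη hu
  have h4 := polyF_valZ hr hc ht hη hv
  refine ((h1.ratLt h2).decide_or ((h1.ratEq h2).decide_and (h3.intLe h4))).decide_congr
    fun x => ?_
  rw [val_pert, val_pert, Prod.Lex.toLex_le_toLex]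

/-- the leaving node -/
theorem polyF_leave {e : α → LC} (hr : PolyF r) (hc : PolyF c) (he : PolyF e) (ht : PolyF t)
    (hv : PolyF v) :
    PolyF (fun x => leave (tnet (r x) (c x)) (val (tnet (r x) (c x)) (e x).b (t x).tr) (t x).tr
      (v x)) := by
  have hN1 : PolyF (fun x => (tnet (r x) (c x)).N + 1) := (polyF_N hr hc).succ
  have hup : PolyF (fun p : α × ℕ => up (tnet (r p.1) (c p.1)) (t p.1).tr p.2 (v p.1)) :=
    polyF_up (hr.comp PolyF.fst') (hc.comp PolyF.fst') (ht.comp PolyF.fst') PolyF.snd'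
      (hv.comp PolyF.fst')
  have hup2 : PolyF (fun q : (α × ℕ) × ℕ =>
      up (tnet (r q.1.1) (c q.1.1)) (t q.1.1).tr q.2 (v q.1.1)) :=
    polyF_up (hr.comp PolyF.fst'.fst) (hc.comp PolyF.fst'.fst) (ht.comp PolyF.fst'.fst)
      PolyF.snd' (hv.comp PolyF.fst'.fst)
  have hinner : PolyF (fun q : (α × ℕ) × ℕ =>
      decide ((tnet (r q.1.1) (c q.1.1)).L ≤
        up (tnet (r q.1.1) (c q.1.1)) (t q.1.1).tr q.2 (v q.1.1) →
        val (tnet (r q.1.1) (c q.1.1)) (e q.1.1).b (t q.1.1).tr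
          (up (tnet (r q.1.1) (c q.1.1)) (t q.1.1).tr q.1.2 (v q.1.1)) ≤
        val (tnet (r q.1.1) (c q.1.1)) (e q.1.1).b (t q.1.1).tr
          (up (tnet (r q.1.1) (c q.1.1)) (t q.1.1).tr q.2 (v q.1.1)))) :=
    (((polyF_L (hr.comp PolyF.fst'.fst) (hc.comp PolyF.fst'.fst)).natLe hup2)).decide_imp
      (pv_le (hr.comp PolyF.fst'.fst) (hc.comp PolyF.fst'.fst) (ht.comp PolyF.fst'.fst)
        (he.comp PolyF.fst'.fst).fst (he.comp PolyF.fst'.fst).snd.fst (hup.comp PolyF.fst') hup2)
  have hall : PolyF (fun p : α × ℕ => (List.range ((tnet (r p.1) (c p.1)).N + 1)).all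
      (fun j => decide ((tnet (r p.1) (c p.1)).L ≤
        up (tnet (r p.1) (c p.1)) (t p.1).tr j (v p.1) →
        val (tnet (r p.1) (c p.1)) (e p.1).b (t p.1).tr
          (up (tnet (r p.1) (c p.1)) (t p.1).tr p.2 (v p.1)) ≤
        val (tnet (r p.1) (c p.1)) (e p.1).b (t p.1).tr
          (up (tnet (r p.1) (c p.1)) (t p.1).tr j (v p.1))))) :=
    (hN1.comp PolyF.fst').range.all hinner
  have hfind : PolyF (fun x => (List.range ((tnet (r x) (c x)).N + 1)).find? (fun k =>
      decide ((tnet (r x) (c x)).L ≤ up (tnet (r x) (c x)) (t x).tr k (v x)) &&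
        (List.range ((tnet (r x) (c x)).N + 1)).all
      (fun j => decide ((tnet (r x) (c x)).L ≤ up (tnet (r x) (c x)) (t x).tr j (v x) →
        val (tnet (r x) (c x)) (e x).b (t x).tr (up (tnet (r x) (c x)) (t x).tr k (v x)) ≤
        val (tnet (r x) (c x)) (e x).b (t x).tr (up (tnet (r x) (c x)) (t x).tr j (v x)))))) :=
    hN1.range.find? (((polyF_L (hr.comp PolyF.fst') (hc.comp PolyF.fst')).natLe hup).and hall)
  refine PolyF.optionCases hfind hv hup (fun x hx => ?_) (fun x k hx => ?_)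
  · unfold leave
    rw [hx]
  · unfold leave
    rw [hx]

theorem polyF_first0 {y : α → List ℚ} (hr : PolyF r) (hc : PolyF c) (hy : PolyF y)
    (ht : PolyF t) (hv : PolyF v) :
    PolyF (fun x => first0 (tnet (r x) (c x)) (fun q => (y x).getD q 0) (t x).tr (v x)) := by
  have hN1 : PolyF (fun x => (tnet (r x) (c x)).N + 1) := (polyF_N hr hc).succ
  have hup : PolyF (fun p : α × ℕ => up (tnet (r p.1) (c p.1)) (t p.1).tr p.2 (v p.1)) :=
    polyF_up (hr.comp PolyF.fst') (hc.comp PolyF.fst') (ht.comp PolyF.fst') PolyF.snd'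
      (hv.comp PolyF.fst')
  have h1 : PolyF (fun p : α × ℕ =>
      decide (up (tnet (r p.1) (c p.1)) (t p.1).tr p.2 (v p.1) ≠ (t p.1).tr.r)) :=
    (hup.natEq (pv_root (ht.comp PolyF.fst'))).decide_not
  have h2 : PolyF (fun p : α × ℕ => decide ((y p.1).getD
      ((t p.1).tr.pa (up (tnet (r p.1) (c p.1)) (t p.1).tr p.2 (v p.1))) 0 = 0)) :=
    (pv_getD (hy.comp PolyF.fst') (polyF_pa (ht.comp PolyF.fst') hup) (PolyF.const 0)).ratEq
      (PolyF.const 0)
  have hfind : PolyF (fun x => (List.range ((tnet (r x) (c x)).N + 1)).find? (fun k =>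
      decide (up (tnet (r x) (c x)) (t x).tr k (v x) ≠ (t x).tr.r) &&
      decide ((y x).getD ((t x).tr.pa (up (tnet (r x) (c x)) (t x).tr k (v x))) 0 = 0))) :=
    hN1.range.find? (h1.and h2)
  refine PolyF.optionCases hfind hv hup (fun x hx => ?_) (fun x k hx => ?_)
  · unfold first0
    rw [hx]
  · unfold first0
    rw [hx]

theorem polyF_pot0 {K : α → ℤ} (hr : PolyF r) (hc : PolyF c) (hK : PolyF K) (ht : PolyF t)
    (hv : PolyF v) : PolyF (fun x => pot0 (tnet (r x) (c x)) (K x) (t x).tr (v x)) := by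
  have hN : PolyF (fun x => (tnet (r x) (c x)).N) := polyF_N hr hc
  have hup : PolyF (fun p : α × ℕ => up (tnet (r p.1) (c p.1)) (t p.1).tr p.2 (v p.1)) :=
    polyF_up (hr.comp PolyF.fst') (hc.comp PolyF.fst') (ht.comp PolyF.fst') PolyF.snd'
      (hv.comp PolyF.fst')
  have h1 : PolyF (fun p : α × ℕ =>
      decide (up (tnet (r p.1) (c p.1)) (t p.1).tr p.2 (v p.1) ≠ (t p.1).tr.r)) :=
    (hup.natEq (pv_root (ht.comp PolyF.fst'))).decide_not
  have h2 : PolyF (fun x => ((List.range (tnet (r x) (c x)).N).filter (fun k =>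
      decide (up (tnet (r x) (c x)) (t x).tr k (v x) ≠ (t x).tr.r))).length) :=
    (hN.range.filter h1).length
  exact PolyF.ite (hv.natLt hN) (hK.intMul h2.intOfNat) (PolyF.const 0)

private theorem pv_bump {q : α → ℕ} (hr : PolyF r) (hc : PolyF c) (ht : PolyF t)
    (hq : PolyF q) : PolyF (fun x => bump (tnet (r x) (c x)) (t x).tr (q x)) :=
  pv_intSum (polyF_N hr hc) (f := fun x w =>
    if w ≠ (t x).tr.r ∧ (t x).tr.pa w = q x then (2 : ℤ) ^ w else 0)
    (PolyF.ite
      (((PolyF.snd'.natEq (pv_root (ht.comp PolyF.fst'))).decide_not).decide_and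
        ((polyF_pa (ht.comp PolyF.fst') PolyF.snd').natEq (hq.comp PolyF.fst')))
      PolyF.snd'.intTwoPow (PolyF.const 0))

theorem polyF_eta (hr : PolyF r) (hc : PolyF c) (ht : PolyF t) (hv : PolyF v) :
    PolyF (fun x => eta (tnet (r x) (c x)) (t x).tr (v x)) := by
  have hb : PolyF (fun p : α × ℕ => bump (tnet (r p.1) (c p.1)) (t p.1).tr p.2) :=
    pv_bump (hr.comp PolyF.fst') (hc.comp PolyF.fst') (ht.comp PolyF.fst') PolyF.snd'
  have h1 : PolyF (fun p : α × ℕ => if (tnet (r p.1) (c p.1)).tail p.2 = v p.1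
      then bump (tnet (r p.1) (c p.1)) (t p.1).tr p.2 else 0) :=
    PolyF.ite ((polyF_tail (hr.comp PolyF.fst') (hc.comp PolyF.fst') PolyF.snd').natEq
      (hv.comp PolyF.fst')) hb (PolyF.const 0)
  have h2 : PolyF (fun p : α × ℕ => if (tnet (r p.1) (c p.1)).head p.2 = v p.1
      then bump (tnet (r p.1) (c p.1)) (t p.1).tr p.2 else 0) :=
    PolyF.ite ((polyF_head (hr.comp PolyF.fst') (hc.comp PolyF.fst') PolyF.snd').natEq
      (hv.comp PolyF.fst')) hb (PolyF.const 0)
  exact pv_intSum (polyF_M hr hc) (f := fun x q =>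
    (if (tnet (r x) (c x)).tail q = v x then bump (tnet (r x) (c x)) (t x).tr q else 0) -
      (if (tnet (r x) (c x)).head q = v x then bump (tnet (r x) (c x)) (t x).tr q else 0))
    (h1.intSub h2)

theorem polyF_flowOf {b : α → List ℚ} (hr : PolyF r) (hc : PolyF c) (ht : PolyF t)
    (hb : PolyF b) (ha : PolyF a) :
    PolyF (fun x => flowOf (tnet (r x) (c x)) (fun w => (b x).getD w 0) (t x).tr (a x)) :=
  pv_ratSum (polyF_N hr hc) (f := fun x w =>
    if w ≠ (t x).tr.r ∧ (t x).tr.pa w = a x then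
      val (tnet (r x) (c x)) (fun w => (b x).getD w 0) (t x).tr w else 0)
    (PolyF.ite
      (((PolyF.snd'.natEq (pv_root (ht.comp PolyF.fst'))).decide_not).decide_and
        ((polyF_pa (ht.comp PolyF.fst') PolyF.snd').natEq (ha.comp PolyF.fst')))
      (polyF_valQ (hr.comp PolyF.fst') (hc.comp PolyF.fst') (ht.comp PolyF.fst')
        (hb.comp PolyF.fst') PolyF.snd') (PolyF.const 0))

variable {e : α → LC} {s : α → LS}

theorem polyF_ent (hr : PolyF r) (hc : PolyF c) (he : PolyF e) (hs : PolyF s) :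
    PolyF (fun x => ent (tnet (r x) (c x)) (e x).C (s x).st) := by
  have hr1 := hr.comp (PolyF.fst' (α := α) (β := ℕ))
  have hc1 := hc.comp (PolyF.fst' (α := α) (β := ℕ))
  have he1 := (he.comp (PolyF.fst' (α := α) (β := ℕ))).snd.snd
  have hs1 := hs.comp (PolyF.fst' (α := α) (β := ℕ))
  have h1 := polyF_inS hr1 hc1 he1 hs1.snd.fst hs1.fst (polyF_tail hr1 hc1 PolyF.snd')
  have h2 := (polyF_red hr1 hc1 he1 hs1.snd.fst PolyF.snd').intLt
    hs1.snd.snd.snd.intTwoPow.intNeg
  exact (polyF_M hr hc).range.find? (h1.and h2)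

private theorem pv_minOf {l : α → List ℤ} {d : α → ℤ} (hl : PolyF l) (hd : PolyF d) :
    PolyF (fun x => minOf (l x) (d x)) := by
  have h1 : PolyF (fun p : α × ℤ => (l p.1).all fun y => decide (p.2 ≤ y)) :=
    (hl.comp PolyF.fst').all (PolyF.fst'.snd.intLe PolyF.snd')
  exact (hl.find? h1).getD hd

theorem polyF_amount (hr : PolyF r) (hc : PolyF c) (he : PolyF e) (hs : PolyF s) :
    PolyF (fun x => amount (tnet (r x) (c x)) (e x).C (s x).st) := by
  have hr1 := hr.comp (PolyF.fst' (α := α) (β := ℕ))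
  have hc1 := hc.comp (PolyF.fst' (α := α) (β := ℕ))
  have he1 := (he.comp (PolyF.fst' (α := α) (β := ℕ))).snd.snd
  have hs1 := hs.comp (PolyF.fst' (α := α) (β := ℕ))
  have h1 := (PolyF.snd'.natEq (pv_root hs1.fst)).decide_not
  have h2 := (polyF_inS hr1 hc1 he1 hs1.snd.fst hs1.fst PolyF.snd').not
  have h3 := polyF_inS hr1 hc1 he1 hs1.snd.fst hs1.fst
    (polyF_par hr1 hc1 hs1.fst PolyF.snd')
  have h4 := (polyF_upc hr1 hc1 he1 hs1.snd.fst hs1.fst PolyF.snd').intNeg
  have h5 : PolyF (fun x => ((List.range (tnet (r x) (c x)).N).filter (fun w =>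
      decide (w ≠ (s x).st.t.r) && (!decide (InS (tnet (r x) (c x)) (e x).C (s x).st.π
        (s x).st.t w)) && decide (InS (tnet (r x) (c x)) (e x).C (s x).st.π (s x).st.t
        (par (tnet (r x) (c x)) (s x).st.t w)))).map
      (fun w => - upc (tnet (r x) (c x)) (e x).C (s x).st.π (s x).st.t w)) :=
    ((polyF_N hr hc).range.filter ((h1.and h2).and h3)).map h4
  exact pv_minOf (hs.snd.snd.snd.intTwoPow.cons h5) (PolyF.const 0)

theorem polyF_sleep (hr : PolyF r) (hc : PolyF c) (hs : PolyF s) :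
    PolyF (fun x => decide (Sleep (tnet (r x) (c x)) (s x).st)) := by
  have hs1 := hs.comp (PolyF.fst' (α := α) (β := ℕ))
  have h1 : PolyF (fun p : α × ℕ => decide ((s p.1).2.2.1.getD p.2 false = false)) :=
    (pv_getD hs1.snd.snd.fst PolyF.snd' (PolyF.const false)).not.congr fun x => by
      cases (s x.1).2.2.1.getD x.2 false <;> rfl
  have : DecidablePred fun x => ∀ w < (tnet (r x) (c x)).N, (s x).2.2.1.getD w false = false :=
    fun x => inferInstance
  exact (PolyF.forallLt (p := fun x w => (s x).2.2.1.getD w false = false)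
    (polyF_N hr hc) h1).decide_congr fun x => Iff.rfl

end Pool.Agent.Simplex.Net
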