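import Pool.Agent.Lib.MP_4d246d_lc.Net.FlowB
import Pool.Agent.Lib.MP_4d246d_lc.Net.Move

/-!
# A pivot
-/

open Finset

namespace Pool.Agent.Simplex.Net

variable {Γ : Graph} {t : Tr}

theorem minOf_spec {l : List ℤ} (hl : l ≠ []) (d : ℤ) :
    minOf l d ∈ l ∧ ∀ x ∈ l, minOf l d ≤ x := by
  obtain ⟨m, hm, hmin⟩ : ∃ m ∈ l.toFinset, ∀ x ∈ l.toFinset, id m ≤ id x := by
    refine Finset.exists_min_image l.toFinset id ?_
    rw [List.toFinset_nonempty_iff]
    exact hl
  have hex : (l.find? fun x => l.all fun y => decide (x ≤ y)).isSome := by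
    rw [List.find?_isSome]
    refine ⟨m, List.mem_toFinset.1 hm, ?_⟩
    rw [List.all_eq_true]
    intro y hy
    exact decide_eq_true (hmin y (List.mem_toFinset.2 hy))
  obtain ⟨c, hc⟩ := Option.isSome_iff_exists.1 hex
  have h1 := List.mem_of_find?_eq_some hc
  have h2 := List.find?_some hc
  rw [List.all_eq_true] at h2
  unfold minOf
  rw [hc, Option.getD_some]
  exact ⟨h1, fun x hx => of_decide_eq_true (h2 x hx)⟩

/-- the leaving node: there is a right node on the way up from the right node `w` -/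
theorem leave_spec {G : Type*} [LinearOrder G] (ht : IsTree Γ t) (f : ℕ → G) {w : ℕ}
    (hw : w < Γ.N) (hL : Γ.L ≤ w) :
    Anc Γ t (leave Γ f t w) w ∧ Γ.L ≤ leave Γ f t w ∧
      ∀ q, Anc Γ t q w → Γ.L ≤ q → f (leave Γ f t w) ≤ f q := by
  have hne : ((range (Γ.N + 1)).filter fun k => Γ.L ≤ up Γ t k w).Nonempty :=
    ⟨0, mem_filter.2 ⟨mem_range.2 (Nat.succ_pos _), hL⟩⟩
  obtain ⟨m, hm, hmin⟩ := Finset.exists_min_image _ (fun k => f (up Γ t k w)) hne
  rw [mem_filter, mem_range] at hm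
  have hex : ((List.range (Γ.N + 1)).find? (fun k => decide (Γ.L ≤ up Γ t k w) &&
    (List.range (Γ.N + 1)).all (fun j => decide (Γ.L ≤ up Γ t j w → f (up Γ t k w) ≤
      f (up Γ t j w))))).isSome := by
    rw [List.find?_isSome]
    refine ⟨m, List.mem_range.2 hm.1, ?_⟩
    rw [Bool.and_eq_true, List.all_eq_true]
    refine ⟨decide_eq_true hm.2, fun j hj => decide_eq_true fun hjL => ?_⟩
    exact hmin j (mem_filter.2 ⟨mem_range.2 (List.mem_range.1 hj), hjL⟩)
  obtain ⟨c, hc⟩ := Option.isSome_iff_exists.1 hex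
  have h1 := List.mem_range.1 (List.mem_of_find?_eq_some hc)
  have h2 := List.find?_some hc
  rw [Bool.and_eq_true, List.all_eq_true] at h2
  have he : leave Γ f t w = up Γ t c w := by
    unfold leave
    rw [hc]
  rw [he]
  refine ⟨⟨c, h1, rfl⟩, of_decide_eq_true h2.1, ?_⟩
  rintro q ⟨j, hj, rfl⟩ hq
  exact (of_decide_eq_true (h2.2 j (List.mem_range.2 hj))) hq

variable {G : Type*} [AddCommGroup G] [LinearOrder G] [IsOrderedAddMonoid G]
  {b : ℕ → G} {C : ℕ → ℤ} {s : St}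

/-- the entering arc: its tail is in `S` and it is not in the tree (a tree arc with tail in `S`
has nonnegative reduced cost) -/
theorem ent_spec (hΓ : Γ.Ok) (hs : Inv Γ b C s) {a : ℕ} (h : ent Γ C s = some a) :
    a < Γ.M ∧ InS Γ C s.π s.t (Γ.tail a) ∧ red Γ C s.π a < -(2 ^ s.h) ∧ ¬ InT Γ s.t a := by
  unfold ent at h
  have h1 := List.mem_range.1 (List.mem_of_find?_eq_some h)
  have h2 := List.find?_some h
  rw [Bool.and_eq_true] at h2
  have h3 : InS Γ C s.π s.t (Γ.tail a) := of_decide_eq_true h2.1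
  have h4 : red Γ C s.π a < -(2 ^ s.h) := of_decide_eq_true h2.2
  have hpos : (0 : ℤ) < 2 ^ s.h := by positivity
  refine ⟨h1, h3, h4, ?_⟩
  rintro ⟨v, hv, hvr, hva⟩
  have hown := hs.tree.own v hv hvr
  rw [hva] at hown
  unfold Graph.own at hown
  by_cases hvL : v < Γ.L
  · rw [if_pos hvL] at hown
    rw [hown] at h3
    have h5 := h3 0 (by omega)
    rw [up_zero] at h5
    have h6 := h5 hvr
    unfold upc Graph.sg at h6
    rw [if_pos hvL, one_mul, hva] at h6
    omega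
  · have h6 := hs.feas.up_le v hv hvr
    unfold upc Graph.sg at h6
    rw [if_neg hvL, hva] at h6
    linarith

theorem ent_none (h : ent Γ C s = none) : ∀ a < Γ.M, InS Γ C s.π s.t (Γ.tail a) →
    -(2 ^ s.h) ≤ red Γ C s.π a := by
  intro a ha hS
  unfold ent at h
  rw [List.find?_eq_none] at h
  have h1 := h a (List.mem_range.2 ha)
  by_contra hcon
  apply h1
  rw [Bool.and_eq_true]
  exact ⟨decide_eq_true hS, decide_eq_true (by linarith)⟩

/-- A pivot. The new flow is `x + x_l • cyc`; it is nonnegative by `leave_spec` and not zero on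
the new tree because `b` is generic. -/
theorem pivot_spec (hΓ : Γ.Ok) (hb : Generic Γ b) (hs : Inv Γ b C s) {a : ℕ}
    (h : ent Γ C s = some a) :
    Inv Γ b C ⟨pivot Γ b s.t a, s.π, s.W, s.h⟩ ∧
    ∃ (l : ℕ) (z : ℕ → ℤ), Exch Γ C s.t (pivot Γ b s.t a) a l z ∧ 0 ≤ red Γ C s.π l := by
  obtain ⟨ha, hS, hneg, hna⟩ := ent_spec hΓ hs h
  have hpos : (0 : ℤ) < 2 ^ s.h := by positivity
  have htL : Γ.tail a < Γ.L := hΓ.tail_lt a ha
  have htN : Γ.tail a < Γ.N := hΓ.tail_ltN ha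
  have hhL : Γ.L ≤ Γ.head a := hΓ.le_head a ha
  have hhN : Γ.head a < Γ.N := hΓ.head_lt a ha
  obtain ⟨t1, ht1⟩ : ∃ t1 : Tr, t1 = reroot Γ s.t (Γ.tail a) := ⟨_, rfl⟩
  have hT1 : IsTree Γ t1 := by rw [ht1]; exact reroot_tree hΓ hs.tree htN
  have hr1 : t1.r = Γ.tail a := by rw [ht1]; exact reroot_root hΓ hs.tree htN
  have hI1 : ∀ q, InT Γ t1 q ↔ InT Γ s.t q := by
    intro q
    rw [ht1]
    exact reroot_inT hΓ hs.tree htN q
  have hF1 : Feas Γ C s.π t1 (2 ^ s.h) := by
    rw [ht1]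
    exact reroot_feas hΓ hs.tree htN hpos.le hS hs.feas
  have hA1 : Asleep Γ C s.π t1 (2 ^ s.h) s.W := by
    rw [ht1]
    exact reroot_asleep hΓ hs.tree htN hpos.le hS hs.asleep
  have hna1 : ¬ InT Γ t1 a := fun h => hna ((hI1 a).1 h)
  obtain ⟨hp1, hp2, hp3⟩ := leave_spec hT1 (val Γ b t1) hhN hhL
  obtain ⟨p, hp⟩ : ∃ p, p = leave Γ (val Γ b t1) t1 (Γ.head a) := ⟨_, rfl⟩
  rw [← hp] at hp1 hp2 hp3
  have hpN : p < Γ.N := hT1.anc_lt hΓ hhN hp1
  have hpr : p ≠ t1.r := by rw [hr1]; omega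
  have hpiv : pivot Γ b s.t a = exch t1 a p := by
    unfold pivot
    rw [← ht1, ← hp]
  rw [hpiv]
  have hE := exch_cyc hΓ hT1 ha hr1.symm hna1 hF1.up_le (by linarith : red Γ C s.π a < 0) hp1 hp2 hpr
  have hown1 : Γ.own t1.r a = t1.r := by
    rw [hr1]
    unfold Graph.own
    rw [if_pos htL]
  have hopp1 : Γ.opp t1.r a = Γ.head a := by
    rw [hr1]
    unfold Graph.opp
    rw [if_pos htL]
  have hT2 : IsTree Γ (exch t1 a p) := hT1.exch hΓ ha hown1 hpr (by rw [hopp1]; exact hp1)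
  have hl : InT Γ t1 (t1.pa p) := ⟨p, hpN, hpr, rfl⟩
  refine ⟨⟨hT2, ⟨?_, ?_, hF1.le_red⟩, ⟨?_, hA1.le_red⟩, ?_⟩, t1.pa p, cyc Γ t1 a, ?_, ?_⟩
  · -- `up_le`
    intro v hv hvp
    change v ≠ p at hvp
    by_cases hvr : v = t1.r
    · subst hvr
      show Γ.sg t1.r * red Γ C s.π ((Function.update t1.pa t1.r a) t1.r) ≤ 0
      rw [Function.update_self]
      unfold Graph.sg
      rw [if_pos (by rw [hr1]; exact htL), one_mul]
      linarith
    · show Γ.sg v * red Γ C s.π ((Function.update t1.pa t1.r a) v) ≤ 0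
      rw [Function.update_of_ne hvr]
      exact hF1.up_le v hv hvr
  · -- `le_up`
    intro v hv hvp
    change v ≠ p at hvp
    by_cases hvr : v = t1.r
    · subst hvr
      show -(4 * 2 ^ s.h) ≤ Γ.sg t1.r * red Γ C s.π ((Function.update t1.pa t1.r a) t1.r)
      rw [Function.update_self]
      unfold Graph.sg
      rw [if_pos (by rw [hr1]; exact htL), one_mul]
      exact hF1.le_red a ha
    · show -(4 * 2 ^ s.h) ≤ Γ.sg v * red Γ C s.π ((Function.update t1.pa t1.r a) v)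
      rw [Function.update_of_ne hvr]
      exact hF1.le_up v hv hvr
  · -- asleep
    intro v hv hW hvp
    change v ≠ p at hvp
    by_cases hvr : v = t1.r
    · subst hvr
      show -(2 * 2 ^ s.h) ≤ Γ.sg t1.r * red Γ C s.π ((Function.update t1.pa t1.r a) t1.r)
      rw [Function.update_self]
      unfold Graph.sg
      rw [if_pos (by rw [hr1]; exact htL), one_mul]
      refine hA1.le_red a ha ?_
      rw [← hr1]
      exact hW
    · show -(2 * 2 ^ s.h) ≤ Γ.sg v * red Γ C s.π ((Function.update t1.pa t1.r a) v)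
      rw [Function.update_of_ne hvr]
      exact hA1.le_up v hv hW hvr
  · -- flow
    obtain ⟨x, hx, hx0⟩ := hs.flow
    have hx1 : TFlow Γ b t1 x := hx.congr fun q _ => hI1 q
    have hx2 := hE.flow hx1
    refine ⟨_, hx2, ?_⟩
    intro q hq hqT
    have hne := hx2.ne_zero hΓ hT2 hb q hq hqT
    have hxl : 0 < x (t1.pa p) := hx0 _ (hT1.pa_lt p hpN hpr) ((hI1 _).1 hl)
    rcases (hE.arcs q hq).1 hqT with rfl | ⟨hq1, hq2⟩
    · rw [hE.za, one_smul, hx1.supp _ hq hna1, zero_add]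
      exact hxl
    · obtain ⟨u, hu, hur, huq⟩ := hq1
      have hxq : 0 < x q := hx0 q hq ((hI1 _).1 ⟨u, hu, hur, huq⟩)
      rw [← huq, cyc_pa hΓ hT1 hu hur hna1] at hne ⊢
      rw [← huq] at hxq
      by_cases hAnc : Anc Γ t1 u (Γ.head a)
      · rw [if_pos hAnc] at hne ⊢
        by_cases huL : u < Γ.L
        · have hsg : Γ.sg u = 1 := by unfold Graph.sg; rw [if_pos huL]
          rw [hsg, one_smul]
          exact add_pos hxq hxl
        · have hsg : Γ.sg u = -1 := by unfold Graph.sg; rw [if_neg huL]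
          rw [hsg, neg_one_zsmul, ← sub_eq_add_neg] at hne ⊢
          have h5 := hp3 u hAnc (by omega)
          rw [← hx1.eq_val hΓ hT1 hu hur, ← hx1.eq_val hΓ hT1 hpN hpr] at h5
          exact lt_of_le_of_ne (sub_nonneg.2 h5) (Ne.symm hne)
      · rw [if_neg hAnc, zero_smul, add_zero]
        exact hxq
  · -- the exchange
    exact {
      a_lt := ha
      l_lt := hE.l_lt
      na := hna
      l_in := (hI1 _).1 hE.l_in
      div := hE.div
      za := hE.za
      zl := hE.zl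
      supp := fun q hq hz => (hE.supp q hq hz).imp id (fun h => (hI1 q).1 h)
      arcs := fun q hq => by rw [hE.arcs q hq, hI1 q]
      cost := hE.cost }
  · have h6 := hF1.up_le p hpN hpr
    unfold upc Graph.sg at h6
    rw [if_neg (by omega)] at h6
    linarith

end Pool.Agent.Simplex.Net
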