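import Pool.Agent.Lib.MP_4d246d_lc.Net.StepA

/-!
# A raise, and one step
-/

open Finset

namespace Pool.Agent.Simplex.Net

variable {Γ : Graph} {G : Type*} [AddCommGroup G] [LinearOrder G] [IsOrderedAddMonoid G]
  {b : ℕ → G} {C : ℕ → ℤ} {s : St}

/-! ### Auxiliary statements -/

private theorem sb_inS_root {t : Tr} {π : ℕ → ℤ} : InS Γ C π t t.r := by
  intro k _ h
  exact absurd (up_root k) h

private theorem sb_inS_iff {t : Tr} (ht : IsTree Γ t) {π : ℕ → ℤ} {v : ℕ} (hv : v < Γ.N)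
    (hr : v ≠ t.r) : InS Γ C π t v ↔ upc Γ C π t v = 0 ∧ InS Γ C π t (par Γ t v) := by
  constructor
  · intro h
    refine ⟨?_, ?_⟩
    · have := h 0 (by omega) (by rw [up_zero]; exact hr)
      rwa [up_zero] at this
    · intro k hk hne
      rw [← up_succ] at hne ⊢
      refine h (k + 1) ?_ hne
      by_contra hc
      have hN : k + 1 = Γ.N := by omega
      rw [hN] at hne
      exact hne (ht.reach v hv)
  · rintro ⟨h1, h2⟩ k hk hne
    cases k with
    | zero => rwa [up_zero]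
    | succ k =>
      rw [up_succ] at hne ⊢
      exact h2 k (by omega) hne

private theorem sb_inS_up {t : Tr} (hΓ : Γ.Ok) (ht : IsTree Γ t) {π : ℕ → ℤ} {v : ℕ} (hv : v < Γ.N)
    (h : InS Γ C π t v) (k : ℕ) : InS Γ C π t (up Γ t k v) := by
  induction k with
  | zero => rwa [up_zero]
  | succ k ih =>
    rw [up_succ']
    by_cases hr : up Γ t k v = t.r
    · rw [hr, par_root]
      exact sb_inS_root
    · exact ((sb_inS_iff ht (ht.up_lt hΓ hv k) hr).1 ih).2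

private theorem sb_upc {t : Tr} (ht : IsTree Γ t) (π σ : ℕ → ℤ) {v : ℕ} (hv : v < Γ.N)
    (hr : v ≠ t.r) : upc Γ C (fun u => π u + σ u) t v =
      upc Γ C π t v - σ v + σ (par Γ t v) := by
  have h1 := ht.own v hv hr
  rw [par_of_ne hr]
  unfold upc red
  unfold Graph.own at h1
  unfold Graph.sg Graph.opp
  by_cases hL : v < Γ.L
  · simp only [hL, if_true] at h1 ⊢
    rw [h1]
    ring
  · simp only [hL, if_false] at h1 ⊢
    rw [h1]
    ring

private theorem sb_amount (Γ : Graph) (C : ℕ → ℤ) (s : St) :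
    (amount Γ C s = 2 ^ s.h ∨ ∃ v < Γ.N, v ≠ s.t.r ∧ ¬ InS Γ C s.π s.t v ∧
      InS Γ C s.π s.t (par Γ s.t v) ∧ amount Γ C s = - upc Γ C s.π s.t v) ∧
    amount Γ C s ≤ 2 ^ s.h ∧
    ∀ v < Γ.N, v ≠ s.t.r → ¬ InS Γ C s.π s.t v → InS Γ C s.π s.t (par Γ s.t v) →
      amount Γ C s ≤ - upc Γ C s.π s.t v := by
  have h := minOf_spec (l := 2 ^ s.h :: ((List.range Γ.N).filter (fun v => decide (v ≠ s.t.r) &&
    (!decide (InS Γ C s.π s.t v)) && decide (InS Γ C s.π s.t (par Γ s.t v)))).map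
      (fun v => - upc Γ C s.π s.t v)) (by simp) 0
  change amount Γ C s ∈ _ ∧ ∀ x ∈ _, amount Γ C s ≤ x at h
  obtain ⟨h1, h2⟩ := h
  refine ⟨?_, h2 _ List.mem_cons_self, ?_⟩
  · rw [List.mem_cons] at h1
    rcases h1 with h1 | h1
    · exact Or.inl h1
    · right
      rw [List.mem_map] at h1
      obtain ⟨v, hv, hv2⟩ := h1
      rw [List.mem_filter, List.mem_range] at hv
      obtain ⟨hv1, hv3⟩ := hv
      simp only [Bool.and_eq_true, decide_eq_true_eq, Bool.not_eq_true', decide_eq_false_iff_not] at hv3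
      exact ⟨v, hv1, hv3.1.1, hv3.1.2, hv3.2, hv2.symm⟩
  · intro v hv hr hS hp
    refine h2 _ (List.mem_cons_of_mem _ (List.mem_map.2 ⟨v, ?_, rfl⟩))
    rw [List.mem_filter, List.mem_range]
    refine ⟨hv, ?_⟩
    simp only [Bool.and_eq_true, decide_eq_true_eq, Bool.not_eq_true', decide_eq_false_iff_not]
    exact ⟨⟨hr, hS⟩, hp⟩

/-- A raise. -/
theorem raise_spec (hΓ : Γ.Ok) (hs : Inv Γ b C s) (h : ent Γ C s = none) :
    0 < amount Γ C s ∧ amount Γ C s ≤ 2 ^ s.h ∧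
    ∀ s' : St, s' = ⟨s.t, fun v => if v < Γ.N ∧ InS Γ C s.π s.t v then s.π v + amount Γ C s
        else s.π v, fun v => if v < Γ.N ∧ InS Γ C s.π s.t v then false else s.W v, s.h⟩ →
      Inv Γ b C s' ∧ (∀ v < Γ.N, InS Γ C s.π s.t v → InS Γ C s'.π s.t v) ∧
      (amount Γ C s = 2 ^ s.h ∨ ∃ v < Γ.N, ¬ InS Γ C s.π s.t v ∧ InS Γ C s'.π s.t v) := by
  obtain ⟨hA1, hA2, hA3⟩ := sb_amount Γ C s
  have ht := hs.tree
  have hδ : (0 : ℤ) < 2 ^ s.h := by positivity
  have hApos : 0 < amount Γ C s := by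
    rcases hA1 with h1 | ⟨v, hv, hr, hS, hp, h1⟩
    · rw [h1]
      exact hδ
    · have h2 := hs.feas.up_le v hv hr
      have h3 : upc Γ C s.π s.t v ≠ 0 := fun h3 => hS ((sb_inS_iff ht hv hr).2 ⟨h3, hp⟩)
      rw [h1]
      have := lt_of_le_of_ne h2 h3
      omega
  refine ⟨hApos, hA2, ?_⟩
  intro s' hs'
  set A := amount Γ C s with hAdef
  clear_value A
  set σ : ℕ → ℤ := fun v => if v < Γ.N ∧ InS Γ C s.π s.t v then A else 0 with hσ
  have hπ : s'.π = fun v => s.π v + σ v := by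
    rw [hs']
    funext v
    simp only [hσ]
    split_ifs <;> simp
  have htt : s'.t = s.t := by rw [hs']
  have hWW : s'.W = fun v => if v < Γ.N ∧ InS Γ C s.π s.t v then false else s.W v := by rw [hs']
  have hhh : s'.h = s.h := by rw [hs']
  have hσ1 : ∀ v < Γ.N, InS Γ C s.π s.t v → σ v = A := by
    intro v hv h1
    simp only [hσ]
    rw [if_pos ⟨hv, h1⟩]
  have hσ2 : ∀ v, ¬ InS Γ C s.π s.t v → σ v = 0 := by
    intro v h1
    simp only [hσ]
    rw [if_neg (fun h2 => h1 h2.2)]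
  have hσ3 : ∀ v, 0 ≤ σ v := by
    intro v
    simp only [hσ]
    split_ifs
    · exact hApos.le
    · exact le_refl 0
  have hσ4 : ∀ v, σ v ≤ A := by
    intro v
    simp only [hσ]
    split_ifs
    · exact le_refl A
    · exact hApos.le
  -- the new values
  have hupc : ∀ v < Γ.N, v ≠ s.t.r → upc Γ C s'.π s.t v =
      upc Γ C s.π s.t v - σ v + σ (par Γ s.t v) := by
    intro v hv hr
    rw [hπ]
    exact sb_upc ht s.π σ hv hr
  have hupS : ∀ v < Γ.N, v ≠ s.t.r → InS Γ C s.π s.t v → upc Γ C s'.π s.t v = 0 := by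
    intro v hv hr hS
    obtain ⟨h1, h2⟩ := (sb_inS_iff ht hv hr).1 hS
    rw [hupc v hv hr, h1, hσ1 v hv hS, hσ1 _ (ht.par_lt hΓ hv) h2]
    ring
  have hupN : ∀ v < Γ.N, v ≠ s.t.r → upc Γ C s.π s.t v ≤ upc Γ C s'.π s.t v ∧
      upc Γ C s'.π s.t v ≤ 0 := by
    intro v hv hr
    by_cases hS : InS Γ C s.π s.t v
    · rw [hupS v hv hr hS]
      exact ⟨hs.feas.up_le v hv hr, le_refl 0⟩
    · rw [hupc v hv hr, hσ2 v hS]
      have h0 := hs.feas.up_le v hv hr
      by_cases hp : InS Γ C s.π s.t (par Γ s.t v)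
      · rw [hσ1 _ (ht.par_lt hΓ hv) hp]
        have h3 := hA3 v hv hr hS hp
        constructor <;> omega
      · rw [hσ2 _ hp]
        constructor <;> omega
  have hred : ∀ a < Γ.M, red Γ C s'.π a = red Γ C s.π a - σ (Γ.tail a) + σ (Γ.head a) := by
    intro a _
    rw [hπ]
    unfold red
    ring
  have hent := ent_none (Γ := Γ) (C := C) (s := s) h
  have hredS : ∀ a < Γ.M, InS Γ C s.π s.t (Γ.tail a) → -(2 * 2 ^ s.h) ≤ red Γ C s'.π a := by
    intro a ha hS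
    rw [hred a ha]
    have h1 := hent a ha hS
    have h2 := hσ4 (Γ.tail a)
    have h3 := hσ3 (Γ.head a)
    omega
  have hredN : ∀ a < Γ.M, ¬ InS Γ C s.π s.t (Γ.tail a) → red Γ C s.π a ≤ red Γ C s'.π a := by
    intro a ha hS
    rw [hred a ha, hσ2 _ hS]
    have h3 := hσ3 (Γ.head a)
    omega
  have hS' : ∀ v < Γ.N, InS Γ C s.π s.t v → InS Γ C s'.π s.t v := by
    intro v hv hS k hk hne
    exact hupS _ (ht.up_lt hΓ hv k) hne (sb_inS_up hΓ ht hv hS k)
  refine ⟨⟨?_, ⟨?_, ?_, ?_⟩, ⟨?_, ?_⟩, ?_⟩, hS', ?_⟩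
  · rw [htt]
    exact ht
  · intro v hv hr
    rw [htt] at hr ⊢
    exact (hupN v hv hr).2
  · intro v hv hr
    rw [htt] at hr ⊢
    rw [hhh]
    exact le_trans (hs.feas.le_up v hv hr) (hupN v hv hr).1
  · intro a ha
    rw [hhh]
    by_cases hS : InS Γ C s.π s.t (Γ.tail a)
    · have := hredS a ha hS
      omega
    · exact le_trans (hs.feas.le_red a ha) (hredN a ha hS)
  · intro v hv hW hr
    rw [htt] at hr ⊢
    rw [hhh]
    by_cases hS : InS Γ C s.π s.t v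
    · rw [hupS v hv hr hS]
      omega
    · rw [hWW] at hW
      simp only at hW
      rw [if_neg (fun h2 => hS h2.2)] at hW
      exact le_trans (hs.asleep.le_up v hv hW hr) (hupN v hv hr).1
  · intro a ha hW
    rw [hhh]
    by_cases hS : InS Γ C s.π s.t (Γ.tail a)
    · exact hredS a ha hS
    · rw [hWW] at hW
      simp only at hW
      rw [if_neg (fun h2 => hS h2.2)] at hW
      exact le_trans (hs.asleep.le_red a ha hW) (hredN a ha hS)
  · rw [htt]
    exact hs.flow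
  · rcases hA1 with h1 | ⟨v, hv, hr, hS, hp, h1⟩
    · exact Or.inl h1
    · refine Or.inr ⟨v, hv, hS, (sb_inS_iff ht hv hr).2 ⟨?_, hS' _ (ht.par_lt hΓ hv) hp⟩⟩
      rw [hupc v hv hr, hσ2 v hS, hσ1 _ (ht.par_lt hΓ hv) hp, h1]
      ring

/-- What a step does as long as a node is awake. -/
theorem step_cases (hΓ : Γ.Ok) (hb : Generic Γ b) (hs : Inv Γ b C s) (hW : ¬ Sleep Γ s) :
    Inv Γ b C (step Γ b C s) ∧ (step Γ b C s).h = s.h ∧
    ((∃ (a l : ℕ) (z : ℕ → ℤ), Exch Γ C s.t (step Γ b C s).t a l z ∧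
        red Γ C s.π a < -(2 ^ s.h) ∧ 0 ≤ red Γ C s.π l ∧ (step Γ b C s).π = s.π ∧
        (step Γ b C s).W = s.W) ∨
      ((step Γ b C s).t = s.t ∧ ∃ Δ : ℤ, 0 < Δ ∧ Δ ≤ 2 ^ s.h ∧
        (∀ v, (step Γ b C s).π v =
          if v < Γ.N ∧ InS Γ C s.π s.t v then s.π v + Δ else s.π v) ∧
        (∀ v, (step Γ b C s).W v =
          if v < Γ.N ∧ InS Γ C s.π s.t v then false else s.W v) ∧
        (∀ v < Γ.N, InS Γ C s.π s.t v → InS Γ C (step Γ b C s).π s.t v) ∧
        (Δ = 2 ^ s.h ∨ ∃ v < Γ.N, ¬ InS Γ C s.π s.t v ∧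
          InS Γ C (step Γ b C s).π s.t v))) := by
  cases he : ent Γ C s with
  | some a =>
    have hst : step Γ b C s = ⟨pivot Γ b s.t a, s.π, s.W, s.h⟩ := by
      unfold step
      rw [if_neg hW]
      simp only [he]
    obtain ⟨h1, l, z, h2, h3⟩ := pivot_spec hΓ hb hs he
    obtain ⟨h4, h5, h6, h7⟩ := ent_spec hΓ hs he
    rw [hst]
    exact ⟨h1, rfl, Or.inl ⟨a, l, z, h2, h6, h3, rfl, rfl⟩⟩
  | none =>
    have hst : step Γ b C s = ⟨s.t, fun v => if v < Γ.N ∧ InS Γ C s.π s.t v then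
        s.π v + amount Γ C s else s.π v,
        fun v => if v < Γ.N ∧ InS Γ C s.π s.t v then false else s.W v, s.h⟩ := by
      unfold step
      rw [if_neg hW]
      simp only [he]
    obtain ⟨h1, h2, h3⟩ := raise_spec hΓ hs he
    obtain ⟨h4, h5, h6⟩ := h3 _ hst
    refine ⟨h4, by rw [hst], Or.inr ⟨by rw [hst], amount Γ C s, h1, h2, ?_, ?_, h5, h6⟩⟩
    · intro v
      rw [hst]
    · intro v
      rw [hst]

/-- The end of a phase: `δ` is halved. -/
theorem inv_half (hΓ : Γ.Ok) (hs : Inv Γ b C s) (hW : Sleep Γ s) (h : s.h ≠ 0) :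
    Inv Γ b C (step Γ b C s) ∧ (step Γ b C s).h + 1 = s.h := by
  have hst : step Γ b C s = ⟨s.t, s.π, fun v => decide (v < Γ.N), s.h - 1⟩ := by
    unfold step
    rw [if_pos hW, if_neg h]
  have h2 : (4 : ℤ) * 2 ^ (s.h - 1) = 2 * 2 ^ s.h := by
    obtain ⟨k, hk⟩ := Nat.exists_eq_succ_of_ne_zero h
    rw [hk, Nat.succ_sub_one, pow_succ]
    ring
  rw [hst]
  refine ⟨⟨hs.tree, ⟨hs.feas.up_le, ?_, ?_⟩, ⟨?_, ?_⟩, hs.flow⟩, ?_⟩
  · intro v hv hr
    change -(4 * 2 ^ (s.h - 1)) ≤ _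
    rw [h2]
    exact hs.asleep.le_up v hv (hW v hv) hr
  · intro a ha
    change -(4 * 2 ^ (s.h - 1)) ≤ _
    rw [h2]
    exact hs.asleep.le_red a ha (hW _ (hΓ.tail_ltN ha))
  · intro v hv hWv
    simp only [decide_eq_false_iff_not] at hWv
    exact absurd hv hWv
  · intro a ha hWa
    simp only [decide_eq_false_iff_not] at hWa
    exact absurd (hΓ.tail_ltN ha) hWa
  · change s.h - 1 + 1 = s.h
    omega

theorem inv_step (hΓ : Γ.Ok) (hb : Generic Γ b) (hs : Inv Γ b C s) : Inv Γ b C (step Γ b C s) := by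
  by_cases hW : Sleep Γ s
  · by_cases h : s.h = 0
    · have hst : step Γ b C s = s := by
        unfold step
        rw [if_pos hW, if_pos h]
      rw [hst]
      exact hs
    · exact (inv_half hΓ hs hW h).1
  · exact (step_cases hΓ hb hs hW).1

/-- a step keeps the arcs of the tree or is an exchange -/
theorem step_arcs (hΓ : Γ.Ok) (hb : Generic Γ b) (hs : Inv Γ b C s) :
    (step Γ b C s).t = s.t ∨
      ∃ (a l : ℕ) (z : ℕ → ℤ), Exch Γ C s.t (step Γ b C s).t a l z := by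
  by_cases hW : Sleep Γ s
  · left
    unfold step
    rw [if_pos hW]
    split_ifs <;> rfl
  · obtain ⟨_, _, h3⟩ := step_cases hΓ hb hs hW
    rcases h3 with ⟨a, l, z, h4, _⟩ | ⟨h4, _⟩
    · exact Or.inr ⟨a, l, z, h4⟩
    · exact Or.inl h4

end Pool.Agent.Simplex.Net
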