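import Pool.Agent.Lib.MP_4d246d_lc.Net.Defs

/-!
# Rooted trees
-/

open Finset

namespace Pool.Agent.Simplex.Net

variable {Γ : Graph} {t : Tr}

theorem par_root : par Γ t t.r = t.r := if_pos rfl

theorem par_of_ne {v : ℕ} (h : v ≠ t.r) : par Γ t v = Γ.opp v (t.pa v) := if_neg h

theorem up_zero (v : ℕ) : up Γ t 0 v = v := rfl

theorem up_succ (k v : ℕ) : up Γ t (k + 1) v = up Γ t k (par Γ t v) :=
  Function.iterate_succ_apply _ _ _

theorem up_succ' (k v : ℕ) : up Γ t (k + 1) v = par Γ t (up Γ t k v) :=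
  Function.iterate_succ_apply' _ _ _

theorem up_add (j k v : ℕ) : up Γ t (j + k) v = up Γ t j (up Γ t k v) :=
  Function.iterate_add_apply _ _ _ _

theorem up_root (k : ℕ) : up Γ t k t.r = t.r := by
  induction k with
  | zero => rfl
  | succ k ih => rw [up_succ, par_root, ih]

theorem Graph.Ok.tail_ltN (hΓ : Γ.Ok) {a : ℕ} (ha : a < Γ.M) : Γ.tail a < Γ.N :=
  (hΓ.tail_lt a ha).trans_le hΓ.le

theorem Graph.Ok.opp_lt (hΓ : Γ.Ok) {v a : ℕ} (ha : a < Γ.M) : Γ.opp v a < Γ.N := by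
  unfold Graph.opp
  split_ifs
  · exact hΓ.head_lt a ha
  · exact hΓ.tail_ltN ha

/-- the two ends are on different sides -/
theorem Graph.Ok.opp_side (hΓ : Γ.Ok) {v a : ℕ} (ha : a < Γ.M) : Γ.opp v a < Γ.L ↔ ¬ v < Γ.L := by
  unfold Graph.opp
  have h1 := hΓ.tail_lt a ha
  have h2 := hΓ.le_head a ha
  split_ifs with h
  · constructor
    · intro h3; omega
    · intro h3; exact absurd h h3
  · exact ⟨fun _ => h, fun _ => h1⟩

theorem Graph.Ok.own_opp (hΓ : Γ.Ok) {v a : ℕ} (ha : a < Γ.M) :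
    Γ.own (Γ.opp v a) a = Γ.opp v a := by
  have h := hΓ.opp_side (v := v) ha
  unfold Graph.own
  by_cases h1 : v < Γ.L
  · rw [if_neg (fun h2 => h.1 h2 h1)]
    unfold Graph.opp
    rw [if_pos h1]
  · rw [if_pos (h.2 h1)]
    unfold Graph.opp
    rw [if_neg h1]

theorem Graph.Ok.opp_opp (hΓ : Γ.Ok) {v a : ℕ} (ha : a < Γ.M) (h : Γ.own v a = v) :
    Γ.opp (Γ.opp v a) a = v := by
  have h0 := hΓ.opp_side (v := v) ha
  unfold Graph.own at h
  by_cases h1 : v < Γ.L
  · have h2 : ¬ Γ.opp v a < Γ.L := fun h2 => h0.1 h2 h1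
    rw [if_pos h1] at h
    show (if Γ.opp v a < Γ.L then Γ.head a else Γ.tail a) = v
    rw [if_neg h2, h]
  · have h2 : Γ.opp v a < Γ.L := h0.2 h1
    rw [if_neg h1] at h
    show (if Γ.opp v a < Γ.L then Γ.head a else Γ.tail a) = v
    rw [if_pos h2, h]

theorem Graph.Ok.sg_opp (hΓ : Γ.Ok) {v a : ℕ} (ha : a < Γ.M) : Γ.sg (Γ.opp v a) = - Γ.sg v := by
  have h0 := hΓ.opp_side (v := v) ha
  unfold Graph.sg
  by_cases h1 : v < Γ.L
  · rw [if_neg (fun h2 => h0.1 h2 h1), if_pos h1]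
  · rw [if_pos (h0.2 h1), if_neg h1, neg_neg]

theorem IsTree.par_lt (hΓ : Γ.Ok) (ht : IsTree Γ t) {v : ℕ} (hv : v < Γ.N) :
    par Γ t v < Γ.N := by
  by_cases h : v = t.r
  · rw [h, par_root]
    exact ht.root
  · rw [par_of_ne h]
    exact hΓ.opp_lt (ht.pa_lt v hv h)

theorem IsTree.up_lt (hΓ : Γ.Ok) (ht : IsTree Γ t) {v : ℕ} (hv : v < Γ.N) (k : ℕ) :
    up Γ t k v < Γ.N := by
  induction k with
  | zero => exact hv
  | succ k ih =>
    rw [up_succ']
    exact ht.par_lt hΓ ih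

/-- the number of steps from `v` to the root -/
noncomputable def height (Γ : Graph) (t : Tr) (v : ℕ) : ℕ := sInf {k | up Γ t k v = t.r}

theorem IsTree.up_height (ht : IsTree Γ t) {v : ℕ} (hv : v < Γ.N) :
    up Γ t (height Γ t v) v = t.r :=
  Nat.sInf_mem (s := {k | up Γ t k v = t.r}) ⟨Γ.N, ht.reach v hv⟩

theorem IsTree.height_le (ht : IsTree Γ t) {v : ℕ} (hv : v < Γ.N) : height Γ t v ≤ Γ.N :=
  Nat.sInf_le (ht.reach v hv)

theorem height_root : height Γ t t.r = 0 :=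
  Nat.sInf_eq_zero.2 (Or.inl rfl)

theorem IsTree.up_ne_root (ht : IsTree Γ t) {v k : ℕ} (hv : v < Γ.N) (hk : k < height Γ t v) :
    up Γ t k v ≠ t.r := fun h => Nat.notMem_of_lt_sInf hk h

theorem IsTree.up_of_height_le (ht : IsTree Γ t) {v k : ℕ} (hv : v < Γ.N)
    (hk : height Γ t v ≤ k) : up Γ t k v = t.r := by
  obtain ⟨j, rfl⟩ := Nat.exists_eq_add_of_le hk
  rw [Nat.add_comm, up_add, ht.up_height hv, up_root]

theorem IsTree.height_par (hΓ : Γ.Ok) (ht : IsTree Γ t) {v : ℕ} (hv : v < Γ.N) (h : v ≠ t.r) :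
    height Γ t v = height Γ t (par Γ t v) + 1 := by
  have hp := ht.par_lt hΓ hv
  have h1 : height Γ t v ≠ 0 := by
    intro h0
    have := ht.up_height hv
    rw [h0, up_zero] at this
    exact h this
  obtain ⟨j, hj⟩ := Nat.exists_eq_succ_of_ne_zero h1
  have h2 : up Γ t j (par Γ t v) = t.r := by
    have := ht.up_height hv
    rwa [hj, Nat.succ_eq_add_one, up_succ] at this
  have h3 : height Γ t (par Γ t v) ≤ j := Nat.sInf_le h2
  have h4 : height Γ t v ≤ height Γ t (par Γ t v) + 1 := by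
    refine Nat.sInf_le ?_
    show up Γ t (height Γ t (par Γ t v) + 1) v = t.r
    rw [up_succ]
    exact ht.up_height hp
  omega

/-- A tree from a height function. -/
theorem isTree_of_height (hΓ : Γ.Ok) (hr : t.r < Γ.N) (h1 : ∀ v < Γ.N, v ≠ t.r → t.pa v < Γ.M)
    (h2 : ∀ v < Γ.N, v ≠ t.r → Γ.own v (t.pa v) = v) (h : ℕ → ℕ)
    (hh : ∀ v < Γ.N, v ≠ t.r → h (par Γ t v) < h v) : IsTree Γ t := by
  refine ⟨hr, h1, h2, fun v hv => ?_⟩
  by_contra hne
  have hlt : ∀ k, up Γ t k v < Γ.N := by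
    intro k
    induction k with
    | zero => exact hv
    | succ k ih =>
      rw [up_succ']
      by_cases h3 : up Γ t k v = t.r
      · rw [h3, par_root]
        exact hr
      · rw [par_of_ne h3]
        exact hΓ.opp_lt (h1 _ ih h3)
  have hnr : ∀ k ≤ Γ.N, up Γ t k v ≠ t.r := by
    intro k hk h3
    obtain ⟨j, hj⟩ := Nat.exists_eq_add_of_le hk
    apply hne
    rw [hj, Nat.add_comm, up_add, h3, up_root]
  have hdec : ∀ k < Γ.N, h (up Γ t (k + 1) v) < h (up Γ t k v) := by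
    intro k hk
    rw [up_succ']
    exact hh _ (hlt k) (hnr k hk.le)
  have hanti : ∀ j k, j < k → k ≤ Γ.N → h (up Γ t k v) < h (up Γ t j v) := by
    intro j k hjk
    induction k with
    | zero => omega
    | succ k ih =>
      intro hk
      have h4 := hdec k (by omega)
      rcases Nat.lt_succ_iff_lt_or_eq.1 hjk with h5 | h5
      · exact h4.trans (ih h5 (by omega))
      · rw [h5]
        exact h4
  have hinj : Set.InjOn (fun k => up Γ t k v) (range (Γ.N + 1) : Set ℕ) := by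
    intro j hj k hk hjk
    rw [Finset.mem_coe, mem_range] at hj hk
    dsimp only at hjk
    rcases lt_trichotomy j k with h5 | h5 | h5
    · have := hanti j k h5 (by omega)
      rw [hjk] at this
      omega
    · exact h5
    · have := hanti k j h5 (by omega)
      rw [hjk] at this
      omega
  have h6 := card_le_card_of_injOn (s := range (Γ.N + 1)) (t := range Γ.N)
    (fun k => up Γ t k v) (fun k _ => by rw [mem_coe, mem_range]; exact hlt k) hinj
  rw [card_range, card_range] at h6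
  omega

end Pool.Agent.Simplex.Net
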