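import Pool.Agent.Lib.MP_4d246d_lc.Net.TreeA

/-!
# Ancestors and exchange
-/

open Finset

namespace Pool.Agent.Simplex.Net

variable {Γ : Graph} {t : Tr}

/-! ### Ancestors -/

theorem IsTree.anc_iff (ht : IsTree Γ t) {u v : ℕ} (hv : v < Γ.N) :
    Anc Γ t u v ↔ ∃ k, up Γ t k v = u := by
  constructor
  · rintro ⟨k, _, hk⟩
    exact ⟨k, hk⟩
  · rintro ⟨k, hk⟩
    by_cases h : k < Γ.N + 1
    · exact ⟨k, h, hk⟩
    · refine ⟨Γ.N, Nat.lt_succ_self _, ?_⟩
      rw [ht.reach v hv, ← hk]
      exact (ht.up_of_height_le hv ((ht.height_le hv).trans (by omega))).symm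

theorem anc_refl (v : ℕ) : Anc Γ t v v := by
  exact ⟨0, Nat.succ_pos _, up_zero v⟩

theorem IsTree.anc_root (ht : IsTree Γ t) {v : ℕ} (hv : v < Γ.N) : Anc Γ t t.r v := by
  exact ⟨Γ.N, Nat.lt_succ_self _, ht.reach v hv⟩

theorem IsTree.anc_lt (hΓ : Γ.Ok) (ht : IsTree Γ t) {u v : ℕ} (hv : v < Γ.N)
    (h : Anc Γ t u v) : u < Γ.N := by
  obtain ⟨k, _, hk⟩ := h
  rw [← hk]
  exact ht.up_lt hΓ hv k

theorem IsTree.anc_trans (hΓ : Γ.Ok) (ht : IsTree Γ t) {u v w : ℕ} (hw : w < Γ.N)
    (h1 : Anc Γ t u v) (h2 : Anc Γ t v w) : Anc Γ t u w := by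
  obtain ⟨j, _, hj⟩ := h1
  obtain ⟨k, _, hk⟩ := h2
  rw [ht.anc_iff hw]
  refine ⟨j + k, ?_⟩
  rw [up_add, hk, hj]

theorem IsTree.anc_par (hΓ : Γ.Ok) (ht : IsTree Γ t) {u v : ℕ} (hv : v < Γ.N) (h : v ≠ t.r) :
    Anc Γ t u v ↔ u = v ∨ Anc Γ t u (par Γ t v) := by
  constructor
  · rintro ⟨k, hk, hku⟩
    rcases k with _ | k
    · left
      rw [up_zero] at hku
      exact hku.symm
    · right
      rw [up_succ] at hku
      exact ⟨k, by omega, hku⟩
  · rintro (h1 | ⟨k, _, hk⟩)
    · rw [h1]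
      exact anc_refl v
    · rw [ht.anc_iff hv]
      exact ⟨k + 1, by rw [up_succ, hk]⟩

/-- heights are at most the height of a descendant, with equality only at the node itself -/
theorem IsTree.height_of_anc (hΓ : Γ.Ok) (ht : IsTree Γ t) {u v : ℕ} (hv : v < Γ.N)
    (h : Anc Γ t u v) : u = v ∨ height Γ t u < height Γ t v := by
  obtain ⟨k, _, hk⟩ := h
  have key : ∀ (k : ℕ) (v : ℕ), v < Γ.N → up Γ t k v = u →
      u = v ∨ height Γ t u < height Γ t v := by
    intro k
    induction k with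
    | zero =>
      intro v _ h
      rw [up_zero] at h
      exact Or.inl h.symm
    | succ k ih =>
      intro v hv h
      by_cases hr : v = t.r
      · left
        rw [hr, up_root] at h
        rw [hr, ← h]
      · rw [up_succ] at h
        have h1 := ht.height_par hΓ hv hr
        rcases ih (par Γ t v) (ht.par_lt hΓ hv) h with h2 | h2
        · right
          rw [h1, h2]
          exact Nat.lt_succ_self _
        · right
          omega
  exact key k v hv hk

theorem IsTree.not_anc_par (hΓ : Γ.Ok) (ht : IsTree Γ t) {v : ℕ} (hv : v < Γ.N) (h : v ≠ t.r) :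
    ¬ Anc Γ t v (par Γ t v) := by
  intro h1
  have h2 := ht.height_par hΓ hv h
  rcases ht.height_of_anc hΓ (ht.par_lt hΓ hv) h1 with h3 | h3
  · rw [← h3] at h2
    omega
  · omega

theorem IsTree.anc_root_iff (ht : IsTree Γ t) {u : ℕ} : Anc Γ t u t.r ↔ u = t.r := by
  constructor
  · rintro ⟨k, _, hk⟩
    rw [← hk]
    exact up_root k
  · intro h
    rw [h]
    exact anc_refl _

/-- different nodes have different parent arcs -/
theorem IsTree.pa_inj (hΓ : Γ.Ok) (ht : IsTree Γ t) {v w : ℕ} (hv : v < Γ.N) (hw : w < Γ.N)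
    (h1 : v ≠ t.r) (h2 : w ≠ t.r) (h : t.pa v = t.pa w) : v = w := by
  have hv' := ht.own v hv h1
  have hw' := ht.own w hw h2
  rw [h] at hv'
  have e1 := ht.height_par hΓ hv h1
  have e2 := ht.height_par hΓ hw h2
  rw [par_of_ne h1, h] at e1
  rw [par_of_ne h2] at e2
  unfold Graph.own at hv' hw'
  unfold Graph.opp at e1 e2
  by_cases a1 : v < Γ.L
  · by_cases a2 : w < Γ.L
    · rw [if_pos a1] at hv'
      rw [if_pos a2] at hw'
      rw [← hv', hw']
    · rw [if_pos a1] at hv' e1
      rw [if_neg a2] at hw' e2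
      rw [hw'] at e1
      rw [hv'] at e2
      omega
  · by_cases a2 : w < Γ.L
    · rw [if_neg a1] at hv' e1
      rw [if_pos a2] at hw' e2
      rw [hw'] at e1
      rw [hv'] at e2
      omega
    · rw [if_neg a1] at hv'
      rw [if_neg a2] at hw'
      rw [← hv', hw']

/-! ### Exchange -/

/-- Height function for the new tree: `height v` on the nodes below `p` (with `Anc p v`), and
`height v + 1 + N` on the others. -/
theorem IsTree.exch (hΓ : Γ.Ok) (ht : IsTree Γ t) {a p : ℕ} (ha : a < Γ.M)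
    (hown : Γ.own t.r a = t.r) (hpr : p ≠ t.r) (hp : Anc Γ t p (Γ.opp t.r a)) :
    IsTree Γ (exch t a p) := by
  have hwN : Γ.opp t.r a < Γ.N := hΓ.opp_lt ha
  have hpN : p < Γ.N := ht.anc_lt hΓ hwN hp
  have hpr' : ¬ Anc Γ t p t.r := fun h => hpr (ht.anc_root_iff.1 h)
  have eup : ∀ v, v ≠ t.r → (Net.exch t a p).pa v = t.pa v := by
    intro v hv
    show Function.update t.pa t.r a v = t.pa v
    exact Function.update_of_ne hv _ _
  have eur : (Net.exch t a p).pa t.r = a := by
    show Function.update t.pa t.r a t.r = a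
    exact Function.update_self _ _ _
  refine isTree_of_height hΓ (t := Net.exch t a p) hpN ?_ ?_
    (fun v => if Anc Γ t p v then height Γ t v else height Γ t v + 1 + Γ.N) ?_
  · intro v hv _
    by_cases h : v = t.r
    · rw [h, eur]
      exact ha
    · rw [eup v h]
      exact ht.pa_lt v hv h
  · intro v hv _
    by_cases h : v = t.r
    · rw [h, eur]
      exact hown
    · rw [eup v h]
      exact ht.own v hv h
  · intro v hv hne
    rw [par_of_ne hne]
    by_cases h : v = t.r
    · rw [h, eur, if_pos hp, if_neg hpr']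
      have := ht.height_le hwN
      omega
    · rw [eup v h, ← par_of_ne h]
      have h1 := ht.height_par hΓ hv h
      have h2 := ht.anc_par hΓ (u := p) hv h
      by_cases h3 : Anc Γ t p v
      · have h4 : Anc Γ t p (par Γ t v) := by
          rcases h2.1 h3 with h4 | h4
          · exact absurd h4.symm hne
          · exact h4
        rw [if_pos h3, if_pos h4]
        omega
      · have h4 : ¬ Anc Γ t p (par Γ t v) := fun h4 => h3 (h2.2 (Or.inr h4))
        rw [if_neg h3, if_neg h4]
        omega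

theorem IsTree.inT_exch (hΓ : Γ.Ok) (ht : IsTree Γ t) {a p : ℕ} (hpN : p < Γ.N)
    (hpr : p ≠ t.r) (q : ℕ) : InT Γ (Net.exch t a p) q ↔ q = a ∨ InT Γ t q ∧ q ≠ t.pa p := by
  constructor
  · rintro ⟨v, hv, hvp, hq⟩
    by_cases h : v = t.r
    · left
      rw [← hq, h]
      exact Function.update_self _ _ _
    · right
      have h1 : (Net.exch t a p).pa v = t.pa v := by
        show Function.update t.pa t.r a v = t.pa v
        exact Function.update_of_ne h _ _
      rw [h1] at hq
      refine ⟨⟨v, hv, h, hq⟩, fun h2 => hvp ?_⟩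
      exact ht.pa_inj hΓ hv hpN h hpr (hq.trans h2)
  · rintro (h | ⟨⟨v, hv, hvr, hq⟩, hne⟩)
    · refine ⟨t.r, ht.root, fun h1 => hpr h1.symm, ?_⟩
      rw [h]
      exact Function.update_self _ _ _
    · refine ⟨v, hv, ?_, ?_⟩
      · intro h1
        have h2 : v = p := h1
        exact hne (by rw [← hq, h2])
      · rw [← hq]
        exact Function.update_of_ne hvr _ _

theorem up_exch {a p k v : ℕ} (h : ∀ j < k, up Γ t j v ≠ t.r ∧ up Γ t j v ≠ p) :
    up Γ (exch t a p) k v = up Γ t k v := by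
  induction k with
  | zero => rw [up_zero, up_zero]
  | succ k ih =>
    have h1 := ih fun j hj => h j (by omega)
    have h2 := h k (Nat.lt_succ_self k)
    rw [up_succ', up_succ', h1, par_of_ne h2.1]
    have h3 : up Γ t k v ≠ (exch t a p).r := h2.2
    rw [par_of_ne h3]
    have h4 : (exch t a p).pa (up Γ t k v) = t.pa (up Γ t k v) := by
      show Function.update t.pa t.r a (up Γ t k v) = t.pa (up Γ t k v)
      exact Function.update_of_ne h2.1 _ _
    rw [h4]

end Pool.Agent.Simplex.Net
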